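import Pool.Agent.N138.SV.B2
import Pool.Agent.N138.SU.WA

set_option autoImplicit false
set_option linter.unusedSectionVars false
set_option linter.unusedVariables false

/-! # The exponential sums of the plane curves are controlled by the periods -/

namespace Pool.Agent.N138.SV

open MeasureTheory Pool.Agent.W574.SM Pool.Agent.Y230.RE Pool.Agent.Y230.PL Polynomial
open Pool.Agent.Y230.PT Pool.Agent.Y465.TH Pool.Agent.Y230.PS Pool.Agent.Y230.TH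
open Pool.Agent.W427.SMC (msZ bsZ mu tr' tr'_pos tr'_lt tr'_le Conv exists_s)
open Pool.Agent.N138.SU

variable {p : ℕ} [Fact p.Prime]

attribute [local instance] msK bsK msZ bsZ

/-- the multiplicities: the leading exponents of periods -/
noncomputable def mP (p : ℕ) [Fact p.Prime] {τ : Type} (g : MvPolynomial τ ℂ) (T : ℂ) : ℕ∞ :=
  open Classical in if 1 < ‖T‖ ∧ Per g ((rr p T : ℝ) : ℂ) then ⊤ else 0

theorem mP_top {τ : Type} {g : MvPolynomial τ ℂ} {T : ℂ} (h : 1 < ‖T‖)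
    (h2 : Per g ((rr p T : ℝ) : ℂ)) : mP p g T = ⊤ := by
  unfold mP
  rw [if_pos ⟨h, h2⟩]

theorem mP_le {τ : Type} {g : MvPolynomial τ ℂ} {T : ℂ} {a : ℕ} (ha : 1 ≤ a)
    (h : (a : ℕ∞) ≤ mP p g T) : 1 < ‖T‖ ∧ Per g ((rr p T : ℝ) : ℂ) := by
  by_contra hn
  unfold mP at h
  rw [if_neg hn] at h
  have : (a : ℕ∞) = 0 := le_antisymm h bot_le
  have h2 : a = 0 := by exact_mod_cast this
  omega

theorem mP_tr {τ : Type} (g : MvPolynomial τ ℂ) : Pool.Agent.Y230.PS.tr (mP p g) = mP p g := by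
  funext T
  unfold Pool.Agent.Y230.PS.tr
  split_ifs with h
  · unfold mP
    rw [if_neg fun h2 => absurd h2.1 (not_lt.2 h)]
  · rfl

section Curve

variable (h5a : StA5) (h6a : StA6) (emb : ℚ_[p] →+* ℂ) (g : A ℚ_[p]) (hg : g ≠ 0)
  (φ : (Fin 2 → ℤ_[p]) → ℤ_[p])
  (hφ : ∀ x, inc p (φ x) = MvPolynomial.eval (fun i => inc p (x i)) g)

include hφ

theorem cu_meas : Measurable φ := by
  have h1 : Continuous (fun x => inc p (φ x)) := by
    have : (fun x => inc p (φ x)) = fun x : Fin 2 → ℤ_[p] =>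
        MvPolynomial.eval (fun i => inc p (x i)) g := funext hφ
    rw [this]
    exact (MvPolynomial.continuous_eval _).comp (continuous_pi fun i =>
      (inc_emb p).continuous.comp (continuous_apply i))
  exact ((inc_emb p).isInducing.continuous_iff.2 h1).measurable

theorem cu_FZ (s : ℝ) (hs : 0 ≤ s) : ZI (fun _ : Fin 1 => g) s =
    Pool.Agent.Y230.PS.FZ (Measure.pi fun _ : Fin 2 => mu p) (fun y => ‖φ y‖) s := by
  rw [ZI_FF _ s hs]
  unfold Pool.Agent.Y230.PS.FF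
  congr 2
  funext x
  rw [← norm_inc', hφ x]
  unfold Pool.Agent.Y230.PS.sz
  rw [Pi.norm_def]
  simp

include h5a h6a hg

/-- the twisted zeta functions -/
theorem cu_FRx (χ : UC p) (hχ : ¬ χ.IsTr) :
    FR p (mP p (mp emb g)) (FX (Measure.pi fun _ : Fin 2 => mu p) φ χ) := by
  have hp0 : (p : ℚ_[p]) ≠ 0 := by exact_mod_cast (Fact.out : p.Prime).ne_zero
  have hne : ∃ j : Fin 1, (fun _ : Fin 1 => g) j ≠ 0 := ⟨0, hg⟩
  have hφ' : ∀ x, inc p (φ x) = (p : ℚ_[p]) ^ 0 * MvPolynomial.eval (fun i => inc p (x i)) g := by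
    intro x
    rw [hφ x, pow_zero, one_mul]
  have hReg : ∀ T0 : ℂ, T0 ≠ 0 → ∀ M : ℕ, Reg p T0 M (ZXI χ fun _ => g) →
      Reg p T0 M (FX (Measure.pi fun _ : Fin 2 => mu p) φ χ) := fun T0 hT0 M h =>
    ((reg_om χ hT0 _ (pow_ne_zero 0 hp0)).mul0 h).congr fun s _ => (FX_plane χ g 0 φ hφ' s).symm
  intro T0 hT0
  by_cases hT1 : ‖T0‖ ≤ 1
  · refine ⟨0, by rw [Nat.cast_zero]; exact bot_le, hReg T0 hT0 0 (regx0 χ _ hne hT0 hT1)⟩
  have hT : 1 < ‖T0‖ := not_le.1 hT1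
  rw [mP_tr]
  by_cases hF : Per (mp emb g) ((rr p T0 : ℝ) : ℂ)
  · obtain ⟨M, hM⟩ := Pool.Agent.N138.PA.reg_fin
      (regx0 χ (fun _ : Fin 1 => g) hne (T0 := 1) one_ne_zero (by simp)) T0
    refine ⟨M, ?_, hReg T0 hT0 M hM⟩
    rw [mP_top hT hF]
    exact le_top
  · refine ⟨0, by rw [Nat.cast_zero]; exact bot_le, hReg T0 hT0 0 ?_⟩
    exact LReg.glue (addF_Zx (okx_H χ (fun _ : Fin 1 => g) 0 1 0 1)) CO_ub fun x _ =>
      lregx_pt χ _ x (local_xP h5a h6a χ hχ emb _ hT0 hF ![x.1, x.2] hne)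

/-- the zeta function -/
theorem cu_FR : FR p (fun T => open Classical in mP p (mp emb g) T + if T = (p : ℂ) then 1 else 0)
    (Pool.Agent.Y230.PS.FZ (Measure.pi fun _ : Fin 2 => mu p) (fun y => ‖φ y‖)) := by
  have hne : ∃ j : Fin 1, (fun _ : Fin 1 => g) j ≠ 0 := ⟨0, hg⟩
  have hReg : ∀ T0 : ℂ, ∀ M : ℕ, Reg p T0 M (ZI fun _ : Fin 1 => g) →
      Reg p T0 M (Pool.Agent.Y230.PS.FZ (Measure.pi fun _ : Fin 2 => mu p) (fun y => ‖φ y‖)) :=
    fun T0 M h => h.congr fun s hs => cu_FZ g φ hφ s hs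
  intro T0 hT0
  by_cases hT1 : ‖T0‖ ≤ 1
  · exact ⟨0, by rw [Nat.cast_zero]; exact bot_le, hReg T0 0 (reg_ZI0 _ hne hT0 hT1)⟩
  have hT : 1 < ‖T0‖ := not_le.1 hT1
  unfold Pool.Agent.Y230.PS.tr
  rw [if_neg hT1]
  by_cases hF : Per (mp emb g) ((rr p T0 : ℝ) : ℂ)
  · obtain ⟨M, hM⟩ := Pool.Agent.N138.PA.reg_fin
      (reg_ZI0 (fun _ : Fin 1 => g) hne (T0 := 1) one_ne_zero (by simp)) T0
    refine ⟨M, ?_, hReg T0 M hM⟩
    beta_reduce
    rw [mP_top hT hF, top_add]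
    exact le_top
  · by_cases hTp : T0 = p
    · refine ⟨1, ?_, hReg T0 1 ?_⟩
      · beta_reduce
        rw [if_pos hTp]
        simp
      · exact LReg.glue (addF_Zc (ok_Hn (fun _ : Fin 1 => g) 0 1 0 1)) CO_ub fun x _ =>
          lreg_pt _ x (local_pP h5a emb _ hT0 hF ![x.1, x.2] hne)
    · refine ⟨0, by rw [Nat.cast_zero]; exact bot_le, hReg T0 0 ?_⟩
      exact LReg.glue (addF_Zc (ok_Hn (fun _ : Fin 1 => g) 0 1 0 1)) CO_ub fun x _ =>
        lreg_pt _ x (local_cP h5a h6a emb _ hT0 hTp hF ![x.1, x.2] hne)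

theorem cu_D : (fun e : ℕ => (p : ℂ) * Uo (Measure.pi fun _ : Fin 2 => mu p) φ (e + 1) -
      Uo (Measure.pi fun _ : Fin 2 => mu p) φ e) ∈ EP (mP p (mp emb g)) := by
  have hp0 : (p : ℂ) ≠ 0 := by exact_mod_cast (Fact.out : p.Prime).ne_zero
  have h2 := Vc_mem _ _ (continuous_norm.measurable.comp (cu_meas g φ hφ))
    (fun x => val_norm (φ x)) (cu_FR h5a h6a emb g hg φ hφ)
  have h3 := EP_op _ (p : ℂ) _ h2
  have h4 : (fun e : ℕ => (p : ℂ) * Uo (Measure.pi fun _ : Fin 2 => mu p) φ (e + 1) -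
      Uo (Measure.pi fun _ : Fin 2 => mu p) φ e) =
      (p : ℂ) • op (p : ℂ)⁻¹ (Vc (Measure.pi fun _ : Fin 2 => mu p) (fun y => ‖φ y‖) p) := by
    funext e
    rw [Pi.smul_apply, op_apply, ← Uo_Vc, ← Uo_Vc, smul_eq_mul, mul_sub, ← mul_assoc,
      mul_inv_cancel₀ hp0, one_mul]
  rw [h4]
  refine Submodule.smul_mem _ _ (EP_mono (fun T hT => ?_) h3)
  by_cases hT1 : ‖T‖ ≤ 1
  · unfold Pool.Agent.Y230.PS.tr
    simp only [if_pos hT1]
    simp
  · unfold Pool.Agent.Y230.PS.tr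
    simp only [if_neg hT1]
    split_ifs with hTp
    · exact tsub_le_iff_right.2 le_rfl
    · rw [add_zero]

/-- **The exponential sums of the plane curves.** -/
theorem cu_Eh (χ : UC p) : (fun e : ℕ => Eh (Measure.pi fun _ : Fin 2 => mu p) φ χ e) ∈
    EP (mP p (mp emb g)) := by
  refine stB1 p _ φ (cu_meas g φ hφ) _ (cu_D h5a h6a emb g hg φ hφ) (fun χ hχ => ?_) χ
  have h := Vx_mem _ φ χ (cu_meas g φ hφ) (cu_FRx h5a h6a emb g hg φ hφ χ hχ)
  rwa [mP_tr] at h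

end Curve

end Pool.Agent.N138.SV
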