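import Pool.Agent.N138.SV.Stm
import Pool.Agent.N87.SU.Fml

set_option autoImplicit false

/-! # Job A1 (helper227): the leading exponents of periods are roots of `b(s) / (s + 1)` -/

namespace Pool.Agent.N138.SV.A1

open MvPolynomial
open Pool.Agent.H628R4.TP (IsBFunction weylS)
open Pool.Agent.N87.SU (ev ev_single Dv Dv_single ss ss_single mu_single ext_single lift ev_inj
  aeval_op kj kj_zero kj_of_le ev_ss)

variable {τ : Type}

/-- the functional on the formal module -/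
noncomputable def Phi (c : ℕ → MvPolynomial τ ℂ →ₗ[ℂ] ℂ) : (ℤ →₀ MvPolynomial τ ℂ) →ₗ[ℂ] ℂ :=
  Finsupp.lsum ℂ fun j : ℤ => if 0 ≤ j then ((-1 : ℂ) ^ j.toNat) • c j.toNat else 0

theorem Phi_nat (c : ℕ → MvPolynomial τ ℂ →ₗ[ℂ] ℂ) (j : ℕ) (r : MvPolynomial τ ℂ) :
    Phi c (Finsupp.single (j : ℤ) r) = (-1 : ℂ) ^ j * c j r := by
  unfold Phi
  rw [Finsupp.lsum_single, if_pos (Int.natCast_nonneg j), Int.toNat_natCast]
  rfl

theorem Phi_neg (c : ℕ → MvPolynomial τ ℂ →ₗ[ℂ] ℂ) {j : ℤ} (hj : j < 0) (r : MvPolynomial τ ℂ) :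
    Phi c (Finsupp.single j r) = 0 := by
  unfold Phi
  rw [Finsupp.lsum_single, if_neg (not_le.2 hj)]
  rfl

theorem Phi_ss {f : MvPolynomial τ ℂ} {e0 : ℂ} {S : Set (ℕ → MvPolynomial τ ℂ →ₗ[ℂ] ℂ)}
    (h : IsPer f e0 S) {c : ℕ → MvPolynomial τ ℂ →ₗ[ℂ] ℂ} (hc : c ∈ S)
    (v : ℤ →₀ MvPolynomial τ ℂ) : Phi c (ss f v) = e0 • Phi c v := by
  have key : Phi c ∘ₗ ss f = e0 • Phi c := by
    apply ext_single
    intro j r
    rw [LinearMap.comp_apply, LinearMap.smul_apply, ss_single, map_add, map_smul]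
    rcases lt_trichotomy j (-1) with hj | hj | hj
    · rw [Phi_neg c (by omega), Phi_neg c (by omega)]
      simp
    · subst hj
      rw [Phi_neg c (by omega) r]
      have e : Phi c (Finsupp.single (-1 + 1) (f * r)) = 0 := by
        have := Phi_nat c 0 (f * r)
        rw [h.e1 c hc, mul_zero] at this
        exact this
      rw [e]
      simp
    · obtain ⟨n, rfl⟩ : ∃ n : ℕ, j = (n : ℤ) := ⟨j.toNat, by omega⟩
      have e : Phi c (Finsupp.single ((n : ℤ) + 1) (f * r)) =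
          (-1 : ℂ) ^ (n + 1) * c (n + 1) (f * r) := by
        have := Phi_nat c (n + 1) (f * r)
        push_cast at this
        exact this
      rw [e, Phi_nat, h.e2 c hc, smul_eq_mul, smul_eq_mul, pow_succ]
      push_cast
      ring
  exact LinearMap.congr_fun key v

theorem Phi_Dv {f : MvPolynomial τ ℂ} {e0 : ℂ} {S : Set (ℕ → MvPolynomial τ ℂ →ₗ[ℂ] ℂ)}
    (h : IsPer f e0 S) {c : ℕ → MvPolynomial τ ℂ →ₗ[ℂ] ℂ} (hc : c ∈ S) (i : τ) :
    ∃ c' ∈ S, ∀ v : ℤ →₀ MvPolynomial τ ℂ, Phi c (Dv f i v) = Phi c' v := by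
  obtain ⟨c', hc', hcc⟩ := h.d2 c hc i
  refine ⟨c', hc', fun v => ?_⟩
  have key : Phi c ∘ₗ Dv f i = Phi c' := by
    apply ext_single
    intro j r
    rw [LinearMap.comp_apply, Dv_single, map_add]
    rcases lt_trichotomy j (-1) with hj | hj | hj
    · rw [Phi_neg c (by omega), Phi_neg c (by omega), Phi_neg c' (by omega)]
      simp
    · subst hj
      rw [Phi_neg c (by omega), Phi_neg c' (by omega)]
      have e : Phi c (Finsupp.single (-1 + 1) (pderiv i f * r)) = 0 := by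
        have := Phi_nat c 0 (pderiv i f * r)
        rw [h.d1 c hc, mul_zero] at this
        exact this
      rw [e]
      simp
    · obtain ⟨n, rfl⟩ : ∃ n : ℕ, j = (n : ℤ) := ⟨j.toNat, by omega⟩
      have e : Phi c (Finsupp.single ((n : ℤ) + 1) (pderiv i f * r)) =
          (-1 : ℂ) ^ (n + 1) * c (n + 1) (pderiv i f * r) := by
        have := Phi_nat c (n + 1) (pderiv i f * r)
        push_cast at this
        exact this
      rw [e, Phi_nat, Phi_nat, ← hcc n r, pow_succ]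
      ring
  exact LinearMap.congr_fun key v

theorem Phi_mu {f : MvPolynomial τ ℂ} {e0 : ℂ} {S : Set (ℕ → MvPolynomial τ ℂ →ₗ[ℂ] ℂ)}
    (h : IsPer f e0 S) {c : ℕ → MvPolynomial τ ℂ →ₗ[ℂ] ℂ} (hc : c ∈ S) (i : τ) :
    ∃ c' ∈ S, ∀ v : ℤ →₀ MvPolynomial τ ℂ,
      Phi c (Pool.Agent.N87.SU.mu (X i) v) = Phi c' v := by
  obtain ⟨c', hc', hcc⟩ := h.mu c hc i
  refine ⟨c', hc', fun v => ?_⟩
  have key : Phi c ∘ₗ Pool.Agent.N87.SU.mu (X i) = Phi c' := by
    apply ext_single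
    intro j r
    rw [LinearMap.comp_apply, mu_single]
    rcases lt_or_ge j 0 with hj | hj
    · rw [Phi_neg c hj, Phi_neg c' hj]
    · obtain ⟨n, rfl⟩ : ∃ n : ℕ, j = (n : ℤ) := ⟨j.toNat, by omega⟩
      rw [Phi_nat, Phi_nat, hcc]
  exact LinearMap.congr_fun key v

theorem t : StA1 := by
  intro τ f e0 he0 hPer b hb
  obtain ⟨S, hS, c0, hc0, hc01⟩ := hPer
  obtain ⟨P, hP⟩ := hb
  have hndvd : ¬ f ∣ 1 := by
    rintro ⟨h, hh⟩
    have := hS.e1 c0 hc0 h
    rw [← hh] at this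
    exact hc01 this
  have hf0 : f ≠ 0 := by
    intro hf
    have := hS.e2 c0 hc0 0 1
    rw [hf, zero_mul, map_zero] at this
    push_cast at this
    rw [zero_sub] at this
    rcases mul_eq_zero.1 this.symm with h | h
    · exact he0 (neg_eq_zero.1 h)
    · exact hc01 h
  have hm1 : b.eval (-1) = 0 := by
    refine Pool.Agent.W574.HS.minus_one f 1 hf0 hndvd b P fun s => ?_
    rw [one_mul]
    exact hP s
  obtain ⟨b', hb'⟩ : (Polynomial.X + 1) ∣ b := by
    have h1 : (Polynomial.X - Polynomial.C (-1 : ℂ)) ∣ b :=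
      Polynomial.dvd_iff_isRoot.2 hm1
    have e : (Polynomial.X - Polynomial.C (-1 : ℂ)) = Polynomial.X + 1 := by
      rw [map_neg, map_one, sub_neg_eq_add]
    rwa [e] at h1
  refine ⟨b', hb', ?_⟩
  -- the formal equation
  choose Q' hQ1 hQ2 using fun m : ℕ => lift f (P m).1 (P m).2
  set v : ℤ →₀ MvPolynomial τ ℂ := Polynomial.aeval (ss f) b' (Finsupp.single 0 1) -
    ∑ m ∈ P.support, Q' m (((ss f) ^ m) (Finsupp.single (-1) 1)) with hv
  have hevp : ∀ (k m : ℕ) (w : ℤ →₀ MvPolynomial τ ℂ),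
      ev f k (((ss f) ^ m) w) = ((k : ℂ) ^ m) • ev f k w := by
    intro k m w
    induction m with
    | zero => simp
    | succ m ih => rw [pow_succ', Module.End.mul_apply, ev_ss, ih, smul_smul, pow_succ']
  have hv0 : v = 0 := by
    apply ev_inj f hf0
    intro k
    have h1 : ev f k (Polynomial.aeval (ss f) b' (Finsupp.single 0 1)) =
        b'.eval (k : ℂ) • f ^ k := by
      rw [aeval_op (ss f) (ev f k) (k : ℂ) (fun w => ev_ss f k w), ev_single, kj_zero]
      simp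
    have hk1 : ((k : ℂ) + 1) ≠ 0 := by exact_mod_cast Nat.succ_ne_zero k
    have h2 : ev f k (Finsupp.single (-1) 1) = ((k : ℂ) + 1)⁻¹ • f ^ (k + 1) := by
      rw [ev_single, kj_of_le (by omega)]
      have e1 : ((k : ℤ) - (-1)).toNat = k + 1 := by omega
      rw [e1, one_mul]
      congr 1
      rw [Nat.factorial_succ]
      have : (k.factorial : ℂ) ≠ 0 := by exact_mod_cast k.factorial_ne_zero
      push_cast
      field_simp
    rw [hv, map_sub, h1, map_sum]
    have h3 : ∀ m ∈ P.support, ev f k (Q' m (((ss f) ^ m) (Finsupp.single (-1) 1))) =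
        ((k : ℂ) + 1)⁻¹ • (((k : ℂ) ^ m) •
          (P m : Module.End ℂ (MvPolynomial τ ℂ)) (f ^ (k + 1))) := by
      intro m _
      rw [hQ1, hevp, h2, map_smul, map_smul, smul_comm]
    rw [Finset.sum_congr rfl h3, ← Finset.smul_sum]
    have h4 := hP k
    rw [Finsupp.sum] at h4
    rw [← h4, hb', Polynomial.eval_mul, Polynomial.eval_add, Polynomial.eval_X,
      Polynomial.eval_one, ← smul_eq_C_mul, smul_smul, ← mul_assoc, inv_mul_cancel₀ hk1, one_mul,
      sub_self]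
  -- the kernel of all functionals
  let K : Submodule ℂ (ℤ →₀ MvPolynomial τ ℂ) :=
    { carrier := {w | ∀ c ∈ S, Phi c w = 0}
      add_mem' := fun {a b} ha hb c hc => by rw [map_add, ha c hc, hb c hc, add_zero]
      zero_mem' := fun c _ => map_zero _
      smul_mem' := fun z a ha c hc => by rw [map_smul, ha c hc, smul_zero] }
  have hKss : ∀ w ∈ K, ss f w ∈ K := fun w hw c hc => by
    rw [Phi_ss hS hc, hw c hc, smul_zero]
  have hKmu : ∀ i, ∀ w ∈ K, Pool.Agent.N87.SU.mu (X i) w ∈ K := fun i w hw c hc => by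
    obtain ⟨c', hc', h⟩ := Phi_mu hS hc i
    rw [h, hw c' hc']
  have hKD : ∀ i, ∀ w ∈ K, Dv f i w ∈ K := fun i w hw c hc => by
    obtain ⟨c', hc', h⟩ := Phi_Dv hS hc i
    rw [h, hw c' hc']
  have hd : Finsupp.single (-1 : ℤ) (1 : MvPolynomial τ ℂ) ∈ K := fun c _ => Phi_neg c (by omega) _
  have hpow : ∀ m : ℕ, ((ss f) ^ m) (Finsupp.single (-1 : ℤ) (1 : MvPolynomial τ ℂ)) ∈ K := by
    intro m
    induction m with
    | zero => exact hd
    | succ m ih =>
      rw [pow_succ', Module.End.mul_apply]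
      exact hKss _ ih
  have hsum : ∑ m ∈ P.support, Q' m (((ss f) ^ m) (Finsupp.single (-1) 1)) ∈ K :=
    K.sum_mem fun m _ => hQ2 m K hKmu hKD _ (hpow m)
  have hb0 : Polynomial.aeval (ss f) b' (Finsupp.single 0 1) ∈ K := by
    rw [hv, sub_eq_zero] at hv0
    rw [hv0]
    exact hsum
  have hfin := hb0 c0 hc0
  rw [aeval_op (ss f) (Phi c0) e0 (fun w => Phi_ss hS hc0 w)] at hfin
  have e0' : Phi c0 (Finsupp.single 0 1) = c0 0 1 := by
    have := Phi_nat c0 0 1
    simpa using this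
  rw [e0', smul_eq_mul] at hfin
  exact (mul_eq_zero.1 hfin).resolve_right hc01

end Pool.Agent.N138.SV.A1
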