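import Pool.Agent.N138.SV.Stm

/-!
# Project SV (helper138), job A2 (helper592): periods of sums in disjoint sets of variables

The families of functionals are written as linear maps to power series; the product of such maps is again one.
-/

set_option autoImplicit false

namespace Pool.Agent.N138.SV.A2

open MvPolynomial

/-! ### Generating series -/

/-- the generating series of a sequence of functionals -/
noncomputable def gs {σ : Type} (c : ℕ → MvPolynomial σ ℂ →ₗ[ℂ] ℂ) :
    MvPolynomial σ ℂ →ₗ[ℂ] PowerSeries ℂ where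
  toFun h := PowerSeries.mk fun m => c m h
  map_add' a b := by
    ext m
    simp
  map_smul' r a := by
    ext m
    simp

/-- the coefficients -/
noncomputable def cf {σ : Type} (L : MvPolynomial σ ℂ →ₗ[ℂ] PowerSeries ℂ) (m : ℕ) :
    MvPolynomial σ ℂ →ₗ[ℂ] ℂ := (PowerSeries.coeff m).comp L

lemma gs_coeff {σ : Type} (c : ℕ → MvPolynomial σ ℂ →ₗ[ℂ] ℂ) (m : ℕ) (h : MvPolynomial σ ℂ) :
    PowerSeries.coeff m (gs c h) = c m h := by
  show PowerSeries.coeff m (PowerSeries.mk fun m => c m h) = c m h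
  rw [PowerSeries.coeff_mk]

lemma cf_apply {σ : Type} (L : MvPolynomial σ ℂ →ₗ[ℂ] PowerSeries ℂ) (m : ℕ)
    (h : MvPolynomial σ ℂ) : cf L m h = PowerSeries.coeff m (L h) := rfl

/-- the derivation `z d/dz` -/
noncomputable def th : Derivation ℂ (PowerSeries ℂ) (PowerSeries ℂ) :=
  (PowerSeries.X : PowerSeries ℂ) • PowerSeries.derivative ℂ

lemma th_coeff (a : PowerSeries ℂ) (m : ℕ) :
    PowerSeries.coeff m (th a) = (m : ℂ) * PowerSeries.coeff m a := by
  have e : th a = PowerSeries.X * PowerSeries.derivative ℂ a := rfl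
  rw [e]
  cases m with
  | zero => rw [PowerSeries.coeff_zero_X_mul, Nat.cast_zero, zero_mul]
  | succ m =>
    rw [PowerSeries.coeff_succ_X_mul, PowerSeries.coeff_derivative]
    push_cast
    ring

/-- `IsPer` in terms of the generating series -/
structure IsS {σ : Type} (g : MvPolynomial σ ℂ) (e0 : ℂ)
    (T : Set (MvPolynomial σ ℂ →ₗ[ℂ] PowerSeries ℂ)) : Prop where
  e : ∀ L ∈ T, ∀ h, L (g * h) = PowerSeries.X * (th (L h) - e0 • L h)
  d : ∀ L ∈ T, ∀ i, ∃ L' ∈ T, ∀ h,
    PowerSeries.X * L (pderiv i h) - L (pderiv i g * h) = PowerSeries.X * L' h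
  mu : ∀ L ∈ T, ∀ i, ∃ L' ∈ T, ∀ h, L (X i * h) = L' h

lemma toS {σ : Type} {g : MvPolynomial σ ℂ} {e0 : ℂ} {S : Set (ℕ → MvPolynomial σ ℂ →ₗ[ℂ] ℂ)}
    (h : IsPer g e0 S) : IsS g e0 (gs '' S) := by
  refine ⟨?_, ?_, ?_⟩
  · rintro _ ⟨c, hc, rfl⟩ q
    ext m
    cases m with
    | zero => rw [gs_coeff, h.e1 c hc, PowerSeries.coeff_zero_X_mul]
    | succ m =>
      rw [gs_coeff, h.e2 c hc, PowerSeries.coeff_succ_X_mul, map_sub, th_coeff, map_smul, gs_coeff,
        smul_eq_mul]
      ring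
  · rintro _ ⟨c, hc, rfl⟩ i
    obtain ⟨c', hc', h1⟩ := h.d2 c hc i
    refine ⟨gs c', ⟨c', hc', rfl⟩, fun q => ?_⟩
    ext m
    cases m with
    | zero =>
      rw [map_sub, PowerSeries.coeff_zero_X_mul, gs_coeff, h.d1 c hc, PowerSeries.coeff_zero_X_mul,
        sub_zero]
    | succ m =>
      rw [map_sub, PowerSeries.coeff_succ_X_mul, PowerSeries.coeff_succ_X_mul, gs_coeff, gs_coeff,
        gs_coeff, h1]
  · rintro _ ⟨c, hc, rfl⟩ i
    obtain ⟨c', hc', h1⟩ := h.mu c hc i
    refine ⟨gs c', ⟨c', hc', rfl⟩, fun q => ?_⟩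
    ext m
    rw [gs_coeff, gs_coeff, h1]

lemma ofS {σ : Type} {g : MvPolynomial σ ℂ} {e0 : ℂ}
    {T : Set (MvPolynomial σ ℂ →ₗ[ℂ] PowerSeries ℂ)} (h : IsS g e0 T) : IsPer g e0 (cf '' T) := by
  refine ⟨?_, ?_, ?_, ?_, ?_⟩
  · rintro _ ⟨L, hL, rfl⟩ q
    rw [cf_apply, h.e L hL, PowerSeries.coeff_zero_X_mul]
  · rintro _ ⟨L, hL, rfl⟩ m q
    rw [cf_apply, h.e L hL, PowerSeries.coeff_succ_X_mul, map_sub, th_coeff, map_smul, smul_eq_mul,
      cf_apply]
    ring
  · rintro _ ⟨L, hL, rfl⟩ i q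
    obtain ⟨L', -, h1⟩ := h.d L hL i
    have h2 := congrArg (PowerSeries.coeff 0) (h1 q)
    rw [map_sub, PowerSeries.coeff_zero_X_mul, PowerSeries.coeff_zero_X_mul, zero_sub,
      neg_eq_zero] at h2
    exact h2
  · rintro _ ⟨L, hL, rfl⟩ i
    obtain ⟨L', hL', h1⟩ := h.d L hL i
    refine ⟨cf L', ⟨L', hL', rfl⟩, fun m q => ?_⟩
    have h2 := congrArg (PowerSeries.coeff (m + 1)) (h1 q)
    rw [map_sub, PowerSeries.coeff_succ_X_mul, PowerSeries.coeff_succ_X_mul] at h2
    exact h2
  · rintro _ ⟨L, hL, rfl⟩ i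
    obtain ⟨L', hL', h1⟩ := h.mu L hL i
    refine ⟨cf L', ⟨L', hL', rfl⟩, fun m q => ?_⟩
    rw [cf_apply, cf_apply, h1]

/-! ### Products -/

section prods

variable {ι τ : Type} [Fintype ι]

lemma pu {A R : Type} [CommMonoid R] [DecidableEq ι] (F : ι → A → R) (h : ι → A) (j : ι) (b : A) :
    ∏ i, F i (Function.update h j b i) = F j b * ∏ i ∈ Finset.univ.erase j, F i (h i) := by
  rw [← Finset.mul_prod_erase Finset.univ _ (Finset.mem_univ j), Function.update_self]
  congr 1
  refine Finset.prod_congr rfl fun i hi => ?_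
  rw [Function.update_of_ne (Finset.ne_of_mem_erase hi)]

lemma pe {A R : Type} [CommMonoid R] [DecidableEq ι] (F : ι → A → R) (h : ι → A) (j : ι) :
    ∏ i, F i (h i) = F j (h j) * ∏ i ∈ Finset.univ.erase j, F i (h i) :=
  (Finset.mul_prod_erase Finset.univ _ (Finset.mem_univ j)).symm

/-- the product of polynomials in disjoint sets of variables -/
noncomputable def P (h : ι → MvPolynomial τ ℂ) : MvPolynomial (ι × τ) ℂ :=
  ∏ i, rename (fun t => (i, t)) (h i)

/-- the monomials are products -/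
lemma P_mon (s : ι × τ →₀ ℕ) : ∃ t : ι → τ →₀ ℕ, P (fun i => monomial (t i) (1 : ℂ)) =
    monomial s 1 := by
  classical
  induction s using Finsupp.induction with
  | zero =>
    refine ⟨fun _ => 0, ?_⟩
    unfold P
    refine Finset.prod_eq_one fun i _ => ?_
    show rename (fun t : τ => (i, t)) (monomial (0 : τ →₀ ℕ) (1 : ℂ)) = 1
    rw [show (monomial (0 : τ →₀ ℕ)) (1 : ℂ) = 1 from rfl, map_one]
  | single_add a n s _ _ ih =>
    obtain ⟨t, ht⟩ := ih
    refine ⟨Function.update t a.1 (Finsupp.single a.2 n + t a.1), ?_⟩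
    unfold P at ht ⊢
    have e1 := pu (fun (i : ι) (u : τ →₀ ℕ) => rename (fun t : τ => (i, t)) (monomial u (1 : ℂ))) t a.1
      (Finsupp.single a.2 n + t a.1)
    have e2 := pe (fun (i : ι) (u : τ →₀ ℕ) => rename (fun t : τ => (i, t)) (monomial u (1 : ℂ))) t a.1
    rw [e1]
    rw [e2] at ht
    have e3 : (monomial (Finsupp.single a.2 n + t a.1)) (1 : ℂ) =
        monomial (Finsupp.single a.2 n) 1 * monomial (t a.1) 1 := by
      rw [monomial_mul, one_mul]
    have e4 : rename (fun t : τ => (a.1, t)) (monomial (Finsupp.single a.2 n) (1 : ℂ)) =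
        monomial (Finsupp.single a n) 1 := by
      rw [rename_monomial, Finsupp.mapDomain_single]
    rw [e3, map_mul, e4, mul_assoc, ht, monomial_mul, one_mul]

lemma P_span (H : MvPolynomial (ι × τ) ℂ) :
    H ∈ Submodule.span ℂ (Set.range (P : (ι → MvPolynomial τ ℂ) → MvPolynomial (ι × τ) ℂ)) := by
  rw [← MvPolynomial.support_sum_monomial_coeff H]
  refine Submodule.sum_mem _ fun s _ => ?_
  obtain ⟨t, ht⟩ := P_mon s
  have e : monomial s (coeff s H) = coeff s H • monomial s (1 : ℂ) := by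
    rw [smul_monomial, smul_eq_mul, mul_one]
  rw [e, ← ht]
  exact Submodule.smul_mem _ _ (Submodule.subset_span ⟨_, rfl⟩)

/-- the exponents of the variables of the `i`-th set -/
noncomputable def cd (i : ι) (s : ι × τ →₀ ℕ) : τ →₀ ℕ :=
  s.comapDomain (fun t => (i, t)) (fun _ _ _ _ h => (Prod.mk.inj h).2)

omit [Fintype ι] in
lemma cd_apply (i : ι) (s : ι × τ →₀ ℕ) (t : τ) : cd i s t = s (i, t) := rfl

lemma cd_sum (t : ι → τ →₀ ℕ) (i : ι) : cd i (∑ j, (t j).mapDomain fun u => (j, u)) = t i := by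
  classical
  ext u
  rw [cd_apply, Finsupp.finsetSum_apply, Finset.sum_eq_single i]
  · exact Finsupp.mapDomain_apply (fun _ _ h => (Prod.mk.inj h).2) _ _
  · intro j _ hj
    refine Finsupp.mapDomain_of_notMem_range _ _ ?_
    rintro ⟨v, hv⟩
    exact hj (Prod.mk.inj hv).1
  · intro h
    exact absurd (Finset.mem_univ i) h

/-- the product of linear maps -/
lemma ex_prod (l : ι → MvPolynomial τ ℂ →ₗ[ℂ] PowerSeries ℂ) :
    ∃ L : MvPolynomial (ι × τ) ℂ →ₗ[ℂ] PowerSeries ℂ, ∀ h, L (P h) = ∏ i, l i (h i) := by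
  classical
  set L : MvPolynomial (ι × τ) ℂ →ₗ[ℂ] PowerSeries ℂ :=
    (basisMonomials (ι × τ) ℂ).constr ℂ fun s => ∏ i, l i (monomial (cd i s) 1) with hL
  refine ⟨L, ?_⟩
  have key : ∀ t : ι → τ →₀ ℕ, L (P fun i => monomial (t i) 1) = ∏ i, l i (monomial (t i) 1) := by
    intro t
    have e1 : P (fun i => monomial (t i) (1 : ℂ)) =
        monomial (∑ i, (t i).mapDomain fun u => (i, u)) 1 := by
      unfold P
      rw [monomial_sum_one]
      refine Finset.prod_congr rfl fun i _ => ?_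
      rw [rename_monomial]
    rw [e1]
    have e2 : monomial (∑ i, (t i).mapDomain fun u => (i, u)) (1 : ℂ) =
        basisMonomials (ι × τ) ℂ (∑ i, (t i).mapDomain fun u => (i, u)) := by
      rw [coe_basisMonomials]
    rw [e2, hL, Module.Basis.constr_basis]
    refine Finset.prod_congr rfl fun i _ => ?_
    rw [cd_sum]
  -- both sides are multilinear
  let A1 : MultilinearMap ℂ (fun _ : ι => MvPolynomial τ ℂ) (PowerSeries ℂ) :=
    L.compMultilinearMap ((MultilinearMap.mkPiAlgebra ℂ ι (MvPolynomial (ι × τ) ℂ)).compLinearMap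
      fun i => (rename (R := ℂ) (fun t : τ => (i, t))).toLinearMap)
  let A2 : MultilinearMap ℂ (fun _ : ι => MvPolynomial τ ℂ) (PowerSeries ℂ) :=
    (MultilinearMap.mkPiAlgebra ℂ ι (PowerSeries ℂ)).compLinearMap l
  have hA : A1 = A2 := by
    refine Module.Basis.ext_multilinear (fun _ => basisMonomials τ ℂ) fun t => ?_
    have := key t
    simp only [A1, A2, LinearMap.compMultilinearMap_apply, MultilinearMap.compLinearMap_apply,
      MultilinearMap.mkPiAlgebra_apply, coe_basisMonomials]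
    exact this
  intro h
  exact congrArg (fun A : MultilinearMap ℂ (fun _ : ι => MvPolynomial τ ℂ) (PowerSeries ℂ) => A h) hA

/-- multiplication of one factor -/
lemma P_mul [DecidableEq ι] (j : ι) (a : MvPolynomial τ ℂ) (h : ι → MvPolynomial τ ℂ) :
    rename (fun t => (j, t)) a * P h = P (Function.update h j (a * h j)) := by
  unfold P
  rw [pu (fun (i : ι) (q : MvPolynomial τ ℂ) => rename (fun t : τ => (i, t)) q) h j (a * h j),
    pe (fun (i : ι) (q : MvPolynomial τ ℂ) => rename (fun t : τ => (i, t)) q) h j, map_mul, mul_assoc]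

omit [Fintype ι] in
lemma inj_mk (j : ι) : Function.Injective (fun t : τ => (j, t)) := fun _ _ h => (Prod.mk.inj h).2

omit [Fintype ι] in
lemma pd_self (j : ι) (t : τ) (a : MvPolynomial τ ℂ) :
    pderiv (j, t) (rename (fun u => (j, u)) a) = rename (fun u => (j, u)) (pderiv t a) :=
  pderiv_rename (inj_mk j) t a

omit [Fintype ι] in
lemma pd_ne {i j : ι} (hij : i ≠ j) (t : τ) (a : MvPolynomial τ ℂ) :
    pderiv (j, t) (rename (fun u => (i, u)) a) = 0 := by
  classical
  refine pderiv_eq_zero_of_notMem_vars fun h => ?_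
  obtain ⟨u, -, hu⟩ := Finset.mem_image.1 (vars_rename (fun u => (i, u)) a h)
  exact hij (Prod.mk.inj hu).1

omit [Fintype ι] in
lemma pd_prod (j : ι) (t : τ) (h : ι → MvPolynomial τ ℂ) (s : Finset ι) (hs : j ∉ s) :
    pderiv (j, t) (∏ i ∈ s, rename (fun u => (i, u)) (h i)) = 0 := by
  classical
  induction s using Finset.induction_on with
  | empty => rw [Finset.prod_empty, pderiv_one]
  | insert a s ha ih =>
    rw [Finset.mem_insert, not_or] at hs
    rw [Finset.prod_insert ha, Derivation.leibniz, ih hs.2, pd_ne (Ne.symm hs.1), smul_zero,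
      smul_zero, add_zero]

/-- the derivative of a product -/
lemma P_pd [DecidableEq ι] (j : ι) (t : τ) (h : ι → MvPolynomial τ ℂ) :
    pderiv (j, t) (P h) = P (Function.update h j (pderiv t (h j))) := by
  unfold P
  rw [pu (fun (i : ι) (q : MvPolynomial τ ℂ) => rename (fun t : τ => (i, t)) q) h j _,
    pe (fun (i : ι) (q : MvPolynomial τ ℂ) => rename (fun t : τ => (i, t)) q) h j,
    Derivation.leibniz, pd_prod j t h _ (Finset.notMem_erase _ _), pd_self, smul_zero, zero_add,
    smul_eq_mul, mul_comm]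

lemma pd_sum (f : ι → MvPolynomial τ ℂ) (j : ι) (t : τ) :
    pderiv (j, t) (∑ i, rename (fun u => (i, u)) (f i)) = rename (fun u => (j, u)) (pderiv t (f j)) := by
  classical
  rw [map_sum, Finset.sum_eq_single j]
  · exact pd_self j t _
  · intro i _ hi
    exact pd_ne hi t _
  · intro h
    exact absurd (Finset.mem_univ j) h

omit [Fintype ι] in
/-- the derivation of a product of power series -/
lemma th_prod [DecidableEq ι] (a : ι → PowerSeries ℂ) (e : ι → ℂ) (s : Finset ι) :
    th (∏ i ∈ s, a i) - (∑ i ∈ s, e i) • ∏ i ∈ s, a i =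
      ∑ j ∈ s, (th (a j) - e j • a j) * ∏ i ∈ s.erase j, a i := by
  induction s using Finset.induction_on with
  | empty => simp
  | insert b s hb ih =>
    rw [Finset.sum_insert hb, Finset.prod_insert hb, Finset.sum_insert hb, Finset.erase_insert hb,
      Derivation.leibniz]
    have e1 : ∑ j ∈ s, (th (a j) - e j • a j) * ∏ i ∈ (insert b s).erase j, a i =
        a b * ∑ j ∈ s, (th (a j) - e j • a j) * ∏ i ∈ s.erase j, a i := by
      rw [Finset.mul_sum]
      refine Finset.sum_congr rfl fun j hj => ?_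
      have hbj : b ≠ j := fun h => hb (h ▸ hj)
      rw [Finset.erase_insert_of_ne hbj, Finset.prod_insert (fun h => hb (Finset.mem_of_mem_erase h))]
      ring
    rw [e1, ← ih]
    simp only [smul_eq_mul, Algebra.smul_def, map_add]
    ring

/-- the family of the products -/
def Fam (T : ι → Set (MvPolynomial τ ℂ →ₗ[ℂ] PowerSeries ℂ)) :
    Set (MvPolynomial (ι × τ) ℂ →ₗ[ℂ] PowerSeries ℂ) :=
  {L | ∃ l : ι → MvPolynomial τ ℂ →ₗ[ℂ] PowerSeries ℂ, (∀ i, l i ∈ T i) ∧
    ∀ h, L (P h) = ∏ i, l i (h i)}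

theorem main (f : ι → MvPolynomial τ ℂ) (e : ι → ℂ)
    (T : ι → Set (MvPolynomial τ ℂ →ₗ[ℂ] PowerSeries ℂ)) (hT : ∀ i, IsS (f i) (e i) (T i)) :
    IsS (∑ i, rename (fun t => (i, t)) (f i)) (∑ i, e i) (Fam T) := by
  classical
  have upd : ∀ (l : ι → MvPolynomial τ ℂ →ₗ[ℂ] PowerSeries ℂ) (h : ι → MvPolynomial τ ℂ) (j : ι)
      (b : MvPolynomial τ ℂ), ∏ i, l i (Function.update h j b i) =
        l j b * ∏ i ∈ Finset.univ.erase j, l i (h i) := fun l h j b =>
    pu (fun (i : ι) (q : MvPolynomial τ ℂ) => l i q) h j b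
  have upd' : ∀ (l : ι → MvPolynomial τ ℂ →ₗ[ℂ] PowerSeries ℂ) (j : ι)
      (l' : MvPolynomial τ ℂ →ₗ[ℂ] PowerSeries ℂ) (h : ι → MvPolynomial τ ℂ),
      ∏ i, (Function.update l j l' i) (h i) = l' (h j) * ∏ i ∈ Finset.univ.erase j, l i (h i) :=
    fun l j l' h =>
      pu (fun (i : ι) (m : MvPolynomial τ ℂ →ₗ[ℂ] PowerSeries ℂ) => m (h i)) l j l'
  refine ⟨?_, ?_, ?_⟩
  · rintro L ⟨l, hl, hL⟩ H
    refine Submodule.span_induction (p := fun H _ => L ((∑ i, rename (fun t => (i, t)) (f i)) * H) =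
      PowerSeries.X * (th (L H) - (∑ i, e i) • L H)) ?_ ?_ ?_ ?_ (P_span H)
    · rintro _ ⟨h, rfl⟩
      rw [Finset.sum_mul, map_sum, hL, th_prod, Finset.mul_sum]
      refine Finset.sum_congr rfl fun j _ => ?_
      rw [P_mul, hL, upd, (hT j).e (l j) (hl j)]
      ring
    · simp
    · intro a b _ _ ha hb
      rw [mul_add, map_add, ha, hb, map_add, map_add, smul_add]
      ring
    · intro r a _ ha
      rw [mul_smul_comm, map_smul, ha, map_smul, Derivation.map_smul]
      simp only [Algebra.smul_def]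
      ring
  · rintro L ⟨l, hl, hL⟩ ⟨j, t⟩
    obtain ⟨l', hl', h1⟩ := (hT j).d (l j) (hl j) t
    obtain ⟨L', hL'⟩ := ex_prod (Function.update l j l')
    refine ⟨L', ⟨Function.update l j l', fun i => ?_, hL'⟩, fun H => ?_⟩
    · by_cases hi : i = j
      · subst hi
        rw [Function.update_self]
        exact hl'
      · rw [Function.update_of_ne hi]
        exact hl i
    · rw [pd_sum]
      refine Submodule.span_induction (p := fun H _ => PowerSeries.X * L (pderiv (j, t) H) -
        L (rename (fun u => (j, u)) (pderiv t (f j)) * H) = PowerSeries.X * L' H) ?_ ?_ ?_ ?_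
        (P_span H)
      · rintro _ ⟨h, rfl⟩
        rw [P_pd, P_mul, hL, hL, hL', upd, upd, upd']
        have h2 := h1 (h j)
        linear_combination (∏ i ∈ Finset.univ.erase j, l i (h i)) * h2
      · simp
      · intro a b _ _ ha hb
        rw [map_add, map_add, mul_add (rename (fun u => (j, u)) (pderiv t (f j))), map_add, map_add]
        linear_combination ha + hb
      · intro r a _ ha
        simp only [Derivation.map_smul, map_smul, mul_smul_comm]
        rw [← smul_sub, ha]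
  · rintro L ⟨l, hl, hL⟩ ⟨j, t⟩
    obtain ⟨l', hl', h1⟩ := (hT j).mu (l j) (hl j) t
    obtain ⟨L', hL'⟩ := ex_prod (Function.update l j l')
    refine ⟨L', ⟨Function.update l j l', fun i => ?_, hL'⟩, fun H => ?_⟩
    · by_cases hi : i = j
      · subst hi
        rw [Function.update_self]
        exact hl'
      · rw [Function.update_of_ne hi]
        exact hl i
    · have e1 : (X (j, t) : MvPolynomial (ι × τ) ℂ) = rename (fun u => (j, u)) (X t) := by
        rw [rename_X]
      rw [e1]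
      refine Submodule.span_induction (p := fun H _ => L (rename (fun u => (j, u)) (X t) * H) = L' H)
        ?_ ?_ ?_ ?_ (P_span H)
      · rintro _ ⟨h, rfl⟩
        rw [P_mul, hL, hL', upd, upd', h1]
      · simp
      · intro a b _ _ ha hb
        rw [mul_add, map_add, map_add, ha, hb]
      · intro r a _ ha
        rw [mul_smul_comm, map_smul, map_smul, ha]

end prods

/-- **Periods of sums in disjoint sets of variables.** -/
theorem t : StA2 := by
  intro ι τ _ _ f e h
  choose S hS c hc h0 using h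
  refine ⟨_, ofS (main f e (fun i => gs '' S i) fun i => toS (hS i)), ?_⟩
  obtain ⟨L, hL⟩ := ex_prod (fun i => gs (c i))
  refine ⟨cf L, ⟨L, ⟨fun i => gs (c i), fun i => ⟨c i, hc i, rfl⟩, hL⟩, rfl⟩, ?_⟩
  have e1 : (1 : MvPolynomial (ι × τ) ℂ) = P (fun _ : ι => (1 : MvPolynomial τ ℂ)) := by
    unfold P
    simp
  rw [cf_apply, e1, hL, PowerSeries.coeff_zero_eq_constantCoeff_apply, map_prod]
  refine Finset.prod_ne_zero_iff.2 fun i _ => ?_
  rw [← PowerSeries.coeff_zero_eq_constantCoeff_apply, gs_coeff]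
  exact h0 i

end Pool.Agent.N138.SV.A2
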