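import Pool.Agent.N138.SV.Stm
set_option autoImplicit false
namespace Pool.Agent.N138.SV.A3
open MvPolynomial Pool.Agent.N138.SV

/-- The span of a period system is a period system. -/
theorem isPer_span {τ : Type} {g : MvPolynomial τ ℂ} {e0 : ℂ}
    {S : Set (ℕ → MvPolynomial τ ℂ →ₗ[ℂ] ℂ)} (hS : IsPer g e0 S) :
    IsPer g e0 (Submodule.span ℂ S : Set (ℕ → MvPolynomial τ ℂ →ₗ[ℂ] ℂ)) := by
  refine ⟨?_, ?_, ?_, ?_, ?_⟩
  · intro c hc
    induction hc using Submodule.span_induction with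
    | mem x hx => exact hS.e1 x hx
    | zero => intro h; simp
    | add x y _ _ hx hy => intro h; simp [hx h, hy h]
    | smul a x _ hx => intro h; simp [hx h]
  · intro c hc
    induction hc using Submodule.span_induction with
    | mem x hx => exact hS.e2 x hx
    | zero => intro m h; simp
    | add x y _ _ hx hy =>
      intro m h
      simp only [Pi.add_apply, LinearMap.add_apply, hx m h, hy m h]; ring
    | smul a x _ hx =>
      intro m h
      simp only [Pi.smul_apply, LinearMap.smul_apply, hx m h, smul_eq_mul]; ring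
  · intro c hc
    induction hc using Submodule.span_induction with
    | mem x hx => exact hS.d1 x hx
    | zero => intro i h; simp
    | add x y _ _ hx hy => intro i h; simp [hx i h, hy i h]
    | smul a x _ hx => intro i h; simp [hx i h]
  · intro c hc i
    induction hc using Submodule.span_induction with
    | mem x hx =>
      obtain ⟨c', hc', h'⟩ := hS.d2 x hx i
      exact ⟨c', Submodule.subset_span hc', h'⟩
    | zero => exact ⟨0, Submodule.zero_mem _, by intro m h; simp⟩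
    | add x y _ _ hx hy =>
      obtain ⟨cx, hcx, hx'⟩ := hx
      obtain ⟨cy, hcy, hy'⟩ := hy
      refine ⟨cx + cy, Submodule.add_mem _ hcx hcy, ?_⟩
      intro m h
      simp only [Pi.add_apply, LinearMap.add_apply, ← hx' m h, ← hy' m h]; ring
    | smul a x _ hx =>
      obtain ⟨cx, hcx, hx'⟩ := hx
      refine ⟨a • cx, Submodule.smul_mem _ _ hcx, ?_⟩
      intro m h
      simp only [Pi.smul_apply, LinearMap.smul_apply, ← hx' m h, smul_eq_mul]; ring
  · intro c hc i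
    induction hc using Submodule.span_induction with
    | mem x hx =>
      obtain ⟨c', hc', h'⟩ := hS.mu x hx i
      exact ⟨c', Submodule.subset_span hc', h'⟩
    | zero => exact ⟨0, Submodule.zero_mem _, by intro m h; simp⟩
    | add x y _ _ hx hy =>
      obtain ⟨cx, hcx, hx'⟩ := hx
      obtain ⟨cy, hcy, hy'⟩ := hy
      refine ⟨cx + cy, Submodule.add_mem _ hcx hcy, ?_⟩
      intro m h
      simp only [Pi.add_apply, LinearMap.add_apply, ← hx' m h, ← hy' m h]
    | smul a x _ hx =>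
      obtain ⟨cx, hcx, hx'⟩ := hx
      refine ⟨a • cx, Submodule.smul_mem _ _ hcx, ?_⟩
      intro m h
      simp only [Pi.smul_apply, LinearMap.smul_apply, ← hx' m h]

theorem pd_aff {τ : Type} (α : ℂ) (β : τ → ℂ) (i : τ) (h : MvPolynomial τ ℂ) :
    pderiv i (aeval (fun j => (C α * X j + C (β j) : MvPolynomial τ ℂ)) h) =
      C α * aeval (fun j => (C α * X j + C (β j) : MvPolynomial τ ℂ)) (pderiv i h) := by
  classical
  induction h using MvPolynomial.induction_on with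
  | C a => simp [MvPolynomial.algebraMap_eq]
  | add p q hp hq => simp only [map_add, hp, hq]; ring
  | mul_X p j hp =>
    simp only [map_mul, aeval_X, Derivation.leibniz, hp, smul_eq_mul, map_add, pderiv_C,
      pderiv_X, mul_zero, add_zero, zero_add]
    by_cases hij : j = i
    · subst hij
      simp; ring
    · have h1 : (Pi.single i (1 : MvPolynomial τ ℂ) : τ → MvPolynomial τ ℂ) j = 0 := by
        simp [Pi.single_apply, hij]
      simp [h1]; ring

theorem t : StA3 := by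
  intro τ g κ α β e0 hκ hα hP
  obtain ⟨S, hS, c1, hc1, hc10⟩ := hP
  set σ : MvPolynomial τ ℂ →ₐ[ℂ] MvPolynomial τ ℂ :=
    aeval (fun j => (C α * X j + C (β j) : MvPolynomial τ ℂ)) with hσ
  have hT := isPer_span hS
  set T : Submodule ℂ (ℕ → MvPolynomial τ ℂ →ₗ[ℂ] ℂ) := Submodule.span ℂ S with hTdef
  -- the new family
  let Φ : (ℕ → MvPolynomial τ ℂ →ₗ[ℂ] ℂ) → (ℕ → MvPolynomial τ ℂ →ₗ[ℂ] ℂ) :=
    fun c m => κ ^ m • (c m ∘ₗ σ.toLinearMap)
  have hΦ : ∀ c m h, Φ c m h = κ ^ m * c m (σ h) := by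
    intro c m h; simp [Φ]
  have hσg : ∀ h, σ (g * h) = κ⁻¹ • (C κ * σ g * σ h) := by
    intro h
    rw [map_mul, MvPolynomial.smul_eq_C_mul, ← mul_assoc, ← mul_assoc, ← C_mul,
      inv_mul_cancel₀ hκ, C_1, one_mul]
  have hpd : ∀ i h, σ (pderiv i h) = α⁻¹ • pderiv i (σ h) := by
    intro i h
    rw [hσ, pd_aff, MvPolynomial.smul_eq_C_mul, ← mul_assoc, ← C_mul,
      inv_mul_cancel₀ hα, C_1, one_mul]
  have hpg : ∀ i h, σ (pderiv i g * h) = (κ⁻¹ * α⁻¹) • (pderiv i (C κ * σ g) * σ h) := by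
    intro i h
    rw [map_mul, hpd, pderiv_C_mul, MvPolynomial.smul_eq_C_mul, MvPolynomial.smul_eq_C_mul,
      C_mul]
    have h1 : (C κ⁻¹ * C κ : MvPolynomial τ ℂ) = 1 := by
      rw [← C_mul, inv_mul_cancel₀ hκ, C_1]
    calc C α⁻¹ * pderiv i (σ g) * σ h = (C κ⁻¹ * C κ) * (C α⁻¹ * pderiv i (σ g) * σ h) := by
          rw [h1, one_mul]
      _ = _ := by ring
  refine ⟨Φ '' (T : Set (ℕ → MvPolynomial τ ℂ →ₗ[ℂ] ℂ)), ⟨?_, ?_, ?_, ?_, ?_⟩, Φ c1,
    ⟨c1, Submodule.subset_span hc1, rfl⟩, ?_⟩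
  · rintro _ ⟨c, hc, rfl⟩ h
    rw [hΦ, hσg, map_smul, hT.e1 c hc]; simp
  · rintro _ ⟨c, hc, rfl⟩ m h
    rw [hΦ, hΦ, hσg, map_smul, hT.e2 c hc, smul_eq_mul, pow_succ]
    field_simp
  · rintro _ ⟨c, hc, rfl⟩ i h
    rw [hΦ, hpg, map_smul, hT.d1 c hc]; simp
  · rintro _ ⟨c, hc, rfl⟩ i
    obtain ⟨c', hc', h'⟩ := hT.d2 c hc i
    refine ⟨Φ (α⁻¹ • c'), ⟨α⁻¹ • c', Submodule.smul_mem _ _ hc', rfl⟩, ?_⟩
    intro m h
    rw [hΦ, hΦ, hΦ, hpg, hpd, map_smul, map_smul, Pi.smul_apply, LinearMap.smul_apply,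
      ← h' m (σ h), smul_eq_mul, smul_eq_mul, smul_eq_mul, pow_succ]
    field_simp
  · rintro _ ⟨c, hc, rfl⟩ i
    obtain ⟨c', hc', h'⟩ := hT.mu c hc i
    refine ⟨Φ (α • c' + β i • c), ⟨_, Submodule.add_mem _ (Submodule.smul_mem _ _ hc')
      (Submodule.smul_mem _ _ hc), rfl⟩, ?_⟩
    intro m h
    rw [hΦ, hΦ, map_mul]
    have h2 : σ (X i) * σ h = α • (X i * σ h) + β i • σ h := by
      rw [hσ, aeval_X, ← hσ, MvPolynomial.smul_eq_C_mul, MvPolynomial.smul_eq_C_mul]; ring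
    rw [h2, map_add, map_smul, map_smul, h' m (σ h)]
    simp only [Pi.add_apply, Pi.smul_apply, LinearMap.add_apply, LinearMap.smul_apply]
  · rw [hΦ]; simpa using hc10

end Pool.Agent.N138.SV.A3
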