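import Pool.Agent.N138.SV.Stm

/-!
# Project SV (helper138), job A4 (helper592): periods from a functional on a field

The family of functionals attached to the elements of a subalgebra which is stable under the derivations.
-/

set_option autoImplicit false

namespace Pool.Agent.N138.SV.A4
open MvPolynomial Pool.Agent.N138.SV Pool.Agent.W574.SM

/-- the Pochhammer factors -/
noncomputable def gam (e : ℂ) (m : ℕ) : ℂ := ∏ i ∈ Finset.range m, ((i : ℂ) - e)

theorem gam_succ (e : ℂ) (m : ℕ) : gam e (m + 1) = ((m : ℂ) - e) * gam e m := by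
  rw [gam, Finset.prod_range_succ, mul_comm]; rfl

/-- the functional attached to an element of the algebra -/
noncomputable def fam {σ L : Type} [Field L] [Algebra ℂ L] (φ : MvPolynomial σ ℂ →ₐ[ℂ] L)
    (T : L →ₗ[ℂ] ℂ) (J G : L) (e : ℂ) (ρ : L) (m : ℕ) : MvPolynomial σ ℂ →ₗ[ℂ] ℂ :=
  gam e m • (T ∘ₗ (LinearMap.mulLeft ℂ (J * ρ * (G ^ m)⁻¹)) ∘ₗ φ.toLinearMap)

theorem fam_apply {σ L : Type} [Field L] [Algebra ℂ L] (φ : MvPolynomial σ ℂ →ₐ[ℂ] L)
    (T : L →ₗ[ℂ] ℂ) (J G : L) (e : ℂ) (ρ : L) (m : ℕ) (h : MvPolynomial σ ℂ) :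
    fam φ T J G e ρ m h = gam e m * T (J * ρ * (G ^ m)⁻¹ * φ h) := by
  simp [fam, mul_assoc]

theorem t : StA4 := by
  intro σ L _ _ _ _ _ φ θ f e F a ν ha hJ hJν hcomm T hT hT1 hfa hf0 S hS1 hS2 hS3 hem hρ0
  set J := (Jac φ θ).det with hJdef
  set G := φ f with hG
  -- the twisted integration by parts
  have hom : ∀ i, om φ θ (fun t => algebraMap ℂ L e * (θ t G * G⁻¹)) i
      = algebraMap ℂ L e * (DD φ θ i G * G⁻¹) := by
    intro i
    simp only [om, DD_apply, Finset.mul_sum, Finset.sum_mul]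
    refine Finset.sum_congr rfl fun t _ => ?_
    ring
  have hparts : ∀ i u v, T (J * (v * (DD φ θ i u + algebraMap ℂ L e * (DD φ θ i G * G⁻¹) * u)))
      = T (J * ((- DD φ θ i v) * u)) := by
    intro i u v
    have h := T_parts_tw φ θ hJ hcomm T (fun t => algebraMap ℂ L e * (θ t G * G⁻¹)) hT i u v
    rw [hom] at h
    exact h
  have hDf : ∀ i, φ (pderiv i f) = DD φ θ i G := fun i => (DD_phi φ θ hJ i f).symm
  have hDpow : ∀ i (m : ℕ), DD φ θ i ((G ^ m)⁻¹) = - (m : L) * (G ^ (m + 1))⁻¹ * DD φ θ i G := by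
    intro i m
    rw [Derivation.leibniz_inv, Derivation.leibniz_pow]
    rcases Nat.eq_zero_or_pos m with h | h
    · subst h; simp
    · obtain ⟨k, rfl⟩ : ∃ k, m = k + 1 := ⟨m - 1, by omega⟩
      rw [Nat.add_sub_cancel]
      simp only [smul_eq_mul, nsmul_eq_mul]
      field_simp
      ring
  have hS0 : ∀ ρ ∈ S, ∀ h : MvPolynomial σ ℂ, ρ * φ h ∈ S := fun ρ hρ h =>
    S.mul_mem hρ (hS1 h)
  refine ⟨{c | ∃ ρ ∈ S, c = fam φ T J G e ρ}, ⟨?_, ?_, ?_, ?_, ?_⟩, ?_⟩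
  · rintro _ ⟨ρ, hρ, rfl⟩ h
    rw [fam_apply, map_mul φ, pow_zero, inv_one, mul_one]
    have h1 : J * ρ * (φ f * φ h) ∈ F.ge (ν + 1) := by
      have h2 := F.mul hJν (F.mul (hS3 _ (hS0 ρ hρ h)) hfa)
      have h3 := F.mono (show ν + 1 ≤ ν + (0 + a) by omega) h2
      have h4 : J * ρ * (φ f * φ h) = J * (ρ * φ h * G) := by rw [← hG]; ring
      rw [h4]; exact h3
    rw [hT1 _ h1, mul_zero]
  · rintro _ ⟨ρ, hρ, rfl⟩ m h
    rw [fam_apply, fam_apply, map_mul φ, gam_succ, mul_assoc]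
    congr 3
    rw [← hG, pow_succ]
    field_simp
  · rintro _ ⟨ρ, hρ, rfl⟩ i h
    rw [fam_apply, map_mul φ, pow_zero, inv_one, mul_one, hDf]
    by_cases he : e = -1
    · have h1 : J * ρ * (DD φ θ i G * φ h) ∈ F.ge (ν + 1) := by
        have h2 := F.mul (hem he i) (hS3 _ (hS0 ρ hρ h))
        rw [add_zero] at h2
        have h4 : J * ρ * (DD φ θ i G * φ h) = J * DD φ θ i G * (ρ * φ h) := by ring
        rw [h4]; exact h2
      rw [hT1 _ h1, mul_zero]
    · have h1 := hparts i (ρ * φ h * G) 1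
      rw [one_mul, Derivation.map_one_eq_zero, neg_zero, zero_mul, mul_zero, map_zero] at h1
      have h2 : J * (DD φ θ i (ρ * φ h * G) + algebraMap ℂ L e * (DD φ θ i G * G⁻¹) *
          (ρ * φ h * G)) = J * (DD φ θ i (ρ * φ h) * G) +
            (1 + e) • (J * ρ * (DD φ θ i G * φ h)) := by
        rw [Derivation.leibniz, smul_eq_mul, smul_eq_mul, Algebra.smul_def, map_add, map_one]
        field_simp
        ring
      have h3 : J * (DD φ θ i (ρ * φ h) * G) ∈ F.ge (ν + 1) := by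
        have h4 := F.mul hJν (F.mul (hS3 _ (hS2 i _ (hS0 ρ hρ h))) hfa)
        exact F.mono (by omega) h4
      rw [h2, map_add, hT1 _ h3, zero_add, map_smul, smul_eq_mul, mul_eq_zero] at h1
      rcases h1 with h1 | h1
      · exact absurd (by linear_combination h1) he
      · rw [h1, mul_zero]
  · rintro _ ⟨ρ, hρ, rfl⟩ i
    refine ⟨_, ⟨- DD φ θ i ρ, S.neg_mem (hS2 i ρ hρ), rfl⟩, ?_⟩
    intro m h
    rw [fam_apply, fam_apply, fam_apply, map_mul φ, hDf, gam_succ]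
    have h1 := hparts i (φ h * (G ^ m)⁻¹) ρ
    have h2 : J * (ρ * (DD φ θ i (φ h * (G ^ m)⁻¹) + algebraMap ℂ L e * (DD φ θ i G * G⁻¹) *
        (φ h * (G ^ m)⁻¹))) = J * ρ * (G ^ m)⁻¹ * φ (pderiv i h) -
          ((m : ℂ) - e) • (J * ρ * (G ^ (m + 1))⁻¹ * (DD φ θ i G * φ h)) := by
      rw [Derivation.leibniz, hDpow, smul_eq_mul, smul_eq_mul, DD_phi φ θ hJ i h,
        Algebra.smul_def, map_sub, map_natCast, pow_succ]
      field_simp
      ring
    rw [h2, map_sub, map_smul, smul_eq_mul] at h1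
    have h3 : J * -(DD φ θ i ρ) * (G ^ m)⁻¹ * φ h = J * (-(DD φ θ i ρ) * (φ h * (G ^ m)⁻¹)) := by
      ring
    rw [h3, ← h1]
    ring
  · rintro _ ⟨ρ, hρ, rfl⟩ i
    refine ⟨_, ⟨ρ * φ (X i), hS0 ρ hρ _, rfl⟩, ?_⟩
    intro m h
    rw [fam_apply, fam_apply, map_mul φ]
    congr 2
    ring
  · obtain ⟨ρ, hρ, h⟩ := hρ0
    refine ⟨_, ⟨ρ, hρ, rfl⟩, ?_⟩
    rw [fam_apply, map_one, pow_zero, inv_one, mul_one, mul_one]
    simpa [gam] using h

end Pool.Agent.N138.SV.A4
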