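import Pool.Agent.N138.SV.Stm

set_option autoImplicit false
set_option linter.unusedSectionVars false
set_option linter.unusedVariables false

/-! # Project SV, part A5: periods from exceptional curves (helper749; the first part is a copy of
the proof of `Pool.Agent.W574.SM.tw_root`) -/

namespace Pool.Agent.N138.SV.A5

attribute [-instance] HahnSeries.powerSeriesAlgebra

open HahnSeries Pool.Agent.W574.SM

theorem hd_ge {M : Type} [Field M] [Algebra ℂ M] (δ : Derivation ℂ M M) (k : ℤ) {d : ℤ}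
    {u : HahnSeries ℤ M} (hu : u ∈ (filtZ M).ge d) : hd δ k u ∈ (filtZ M).ge d := by
  intro g hg
  apply hu
  intro h
  rw [coeff_hd, h, map_zero, mul_zero, add_zero] at hg
  exact hg rfl

theorem adj_ge {L : Type} [Field L] [Algebra ℂ L] (F : Filt L) (A : Matrix (Fin 2) (Fin 2) L)
    {d : ℤ} (h : ∀ i j, A i j ∈ F.ge d) (i j : Fin 2) : A.adjugate i j ∈ F.ge d := by
  rw [Matrix.adjugate_fin_two]
  fin_cases i <;> fin_cases j
  · exact h 1 1
  · exact AddSubgroup.neg_mem _ (h 0 1)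
  · exact AddSubgroup.neg_mem _ (h 1 0)
  · exact h 0 0

theorem det_DD {L : Type} [Field L] [Algebra ℂ L] (φ : MvPolynomial (Fin 2) ℂ →ₐ[ℂ] L)
    (θ : Fin 2 → Derivation ℂ L L) (h0 : (Jac φ θ).det ≠ 0) (i : Fin 2) (u : L) :
    (Jac φ θ).det * DD φ θ i u = ∑ t, (Jac φ θ).adjugate i t * θ t u := by
  rw [DD, derivation_sum_apply, Finset.mul_sum]
  refine Finset.sum_congr rfl fun t _ => ?_
  rw [Derivation.smul_apply, smul_eq_mul, ← mul_assoc]
  congr 1
  rw [Matrix.inv_def, Matrix.smul_apply, smul_eq_mul, Ring.inverse_eq_inv', ← mul_assoc,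
    mul_inv_cancel₀ h0, one_mul]

open MvPolynomial (X aeval pderiv aeval_X) in
/-- **Periods from exceptional curves** whose twisted residue form is not exact. -/
theorem t (h4 : StA4) : StA5 := by
  intro M _ _ δ x0 hδ f ξ a n ha hn g hf Jp hJ hJ0 hg0 hR hξ
  classical
  have hac : (a : ℂ) ≠ 0 := Nat.cast_ne_zero.2 ha.ne'
  have : CharZero (HahnSeries ℤ M) :=
    charZero_of_injective_algebraMap (algebraMap ℂ (HahnSeries ℤ M)).injective
  set e0 : ℂ := -(n : ℂ) / a with he0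
  set Q : M := resM x0 g with hQ
  have hQ0 : Q ≠ 0 := hg0
  set φ : MvPolynomial (Fin 2) ℂ →ₐ[ℂ] (HahnSeries ℤ M) := (emb2 x0).comp (aeval ξ) with hφ
  set θ : Fin 2 → Derivation ℂ (HahnSeries ℤ M) (HahnSeries ℤ M) :=
    ![hd (0 : Derivation ℂ M M) 1, hd δ 0] with hθ
  have hu : (single 1 1 : HahnSeries ℤ M) = emb2 x0 (X 0) := (emb2_X0 x0).symm
  -- the Jacobian
  have hdet : (Jac φ θ).det = single (n : ℤ) 1 * emb2 x0 Jp := by
    rw [hφ, hθ, det_jac δ x0 hδ, hJ, map_mul, map_pow, ← hu, ← mul_assoc, ← pow_succ',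
      Nat.sub_add_cancel hn, single_pow, one_pow]
    simp
  have hcJ : (emb2 x0 Jp).coeff 0 ≠ 0 := by
    rw [(emb2_coeff x0 Jp).2]; exact hJ0
  have hdet0 : (Jac φ θ).det.coeff n = resM x0 Jp := by
    have h := coeff_mul_ge (single_ge (M := M) (n : ℤ) 1) (emb2_ge x0 Jp)
    rw [add_zero] at h
    rw [hdet, h, coeff_single_same, one_mul, (emb2_coeff x0 Jp).2]
  have hJac0 : (Jac φ θ).det ≠ 0 := by
    apply ne_of_coeff (d := (n : ℤ))
    rw [hdet0]; exact hJ0
  have hJν : (Jac φ θ).det ∈ (filtZ M).ge n := by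
    rw [hdet]
    have := (filtZ M).mul (single_ge (n : ℤ) 1) (emb2_ge x0 Jp)
    rwa [add_zero] at this
  have hcomm : ∀ s t u, θ s (θ t u) = θ t (θ s u) := by
    intro s t u
    fin_cases s <;> fin_cases t
    · rfl
    · exact (hd_comm δ u).symm
    · exact hd_comm δ u
    · rfl
  -- the functions
  set w : HahnSeries ℤ M := emb2 x0 g with hw
  have hwge : w ∈ (filtZ M).ge 0 := emb2_ge x0 _
  have hwc : w.coeff 0 = Q := (emb2_coeff x0 _).2
  set w1 : HahnSeries ℤ M := w * C Q⁻¹ with hw1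
  have hw1ge : w1 ∈ (filtZ M).ge 0 := by
    have := (filtZ M).mul hwge (C_ge Q⁻¹)
    rwa [add_zero] at this
  have hw1c : w1.coeff 0 = 1 := by
    have h := coeff_mul_ge hwge (C_ge Q⁻¹)
    rw [add_zero] at h
    rw [hw1, h, hwc, C_apply, coeff_single_same, mul_inv_cancel₀ hQ0]
  obtain ⟨V, hVge, hVc, hVa⟩ := exists_root_LL w1 hw1ge hw1c a ha.ne'
  have hV0 : V ≠ 0 := ne_of_coeff (d := 0) (by rw [hVc]; exact one_ne_zero)
  have hVnge : ∀ k : ℕ, V ^ k ∈ (filtZ M).ge 0 ∧ (V ^ k).coeff 0 = 1 := by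
    intro k
    induction k with
    | zero =>
      rw [pow_zero]
      refine ⟨?_, by rw [coeff_one, if_pos rfl]⟩
      have := C_ge (1 : M)
      rwa [map_one] at this
    | succ k ih =>
      rw [pow_succ]
      refine ⟨?_, ?_⟩
      · have := (filtZ M).mul ih.1 hVge
        rwa [add_zero] at this
      · have := coeff_mul_ge ih.1 hVge
        rw [add_zero] at this
        rw [this, ih.2, hVc, one_mul]
  set Vn : HahnSeries ℤ M := (V ^ n)⁻¹ with hVn
  have hVn0 : V ^ n ≠ 0 := pow_ne_zero n hV0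
  have hVnge' : Vn ∈ (filtZ M).ge 0 := by
    have := inv_ge (hVnge n).1 (by rw [(hVnge n).2]; exact one_ne_zero)
    rwa [neg_zero] at this
  have hVnc : Vn.coeff 0 = 1 := by
    have h := coeff_mul_ge (hVnge n).1 hVnge'
    rw [add_zero, hVn, mul_inv_cancel₀ hVn0, (hVnge n).2, one_mul, coeff_one, if_pos rfl] at h
    exact h.symm
  -- the functional
  set D : M →ₗ[ℂ] M := (δ : M →ₗ[ℂ] M) +
    LinearMap.mulLeft ℂ (algebraMap ℂ M e0 * (δ Q * Q⁻¹)) with hD
  have hDa : ∀ R, D R = δ R + algebraMap ℂ M e0 * (δ Q * Q⁻¹) * R := fun R => rfl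
  have hnot : resM x0 Jp ∉ LinearMap.range D := by
    rintro ⟨R, hR1⟩
    exact hR R ((hDa R).symm.trans hR1)
  obtain ⟨T', hT'1, hT'2⟩ := Submodule.exists_le_ker_of_notMem hnot
  have hT'3 : ∀ R, T' (δ R + algebraMap ℂ M e0 * (δ Q * Q⁻¹) * R) = 0 := by
    intro R
    exact hT'2 ⟨R, hDa R⟩
  set T : HahnSeries ℤ M →ₗ[ℂ] ℂ :=
    { toFun := fun x => T' ((x * Vn).coeff n)
      map_add' := fun x y => by rw [add_mul, coeff_add, map_add]
      map_smul' := fun c x => by
        rw [smul_mul_assoc, coeff_smul, map_smul, RingHom.id_apply] } with hT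
  have hTa : ∀ x, T x = T' ((x * Vn).coeff n) := fun x => rfl
  -- the logarithmic derivatives
  have hG1 : φ f = single (a : ℤ) 1 * w := by
    rw [hφ, AlgHom.comp_apply, hf, map_mul, map_pow, ← hu, single_pow, one_pow]
    simp [hw]
  have hw0 : w ≠ 0 := ne_of_coeff (d := 0) (by rw [hwc]; exact hQ0)
  have hs0 : (single (a : ℤ) 1 : HahnSeries ℤ M) ≠ 0 := by
    apply ne_of_coeff (d := (a : ℤ))
    rw [coeff_single_same]; exact one_ne_zero
  have hGne : φ f ≠ 0 := by
    rw [hG1]; exact mul_ne_zero hs0 hw0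
  have hCQ : (C Q : HahnSeries ℤ M) ≠ 0 := by
    apply ne_of_coeff (d := 0)
    rw [C_apply, coeff_single_same]; exact hQ0
  have hwV : w = C Q * V ^ a := by
    rw [hVa, hw1, mul_comm w, ← mul_assoc, ← map_mul, mul_inv_cancel₀ hQ0, map_one, one_mul]
  have hlog : ∀ d : Derivation ℂ (HahnSeries ℤ M) (HahnSeries ℤ M), d (φ f) * (φ f)⁻¹
      = d (single (a : ℤ) 1) * (single (a : ℤ) 1 : HahnSeries ℤ M)⁻¹ + (d (C Q) * (C Q)⁻¹ +
        (a : HahnSeries ℤ M) * (d V * V⁻¹)) := by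
    intro d
    rw [hG1, dlog_mul d hs0 hw0, hwV, dlog_mul d hCQ (pow_ne_zero _ hV0), dlog_pow d hV0]
  have hVnd : ∀ d : Derivation ℂ (HahnSeries ℤ M) (HahnSeries ℤ M),
      d Vn = - ((n : HahnSeries ℤ M) * (d V * V⁻¹)) * Vn := by
    intro d
    have h1 := dlog_inv d hVn0
    rw [dlog_pow d hV0] at h1
    have := eq_of_dlog d (inv_ne_zero hVn0) h1
    rw [hVn, this]
    ring
  have haL : (a : HahnSeries ℤ M) ≠ 0 := Nat.cast_ne_zero.2 ha.ne'
  have heL : algebraMap ℂ (HahnSeries ℤ M) e0 * (a : HahnSeries ℤ M) = - (n : HahnSeries ℤ M) := by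
    rw [he0, map_div₀, map_neg, map_natCast, map_natCast, div_mul_cancel₀ _ haL]
  have hTθ : ∀ t u, T (θ t u + algebraMap ℂ (HahnSeries ℤ M) e0 *
      (θ t (φ f) * (φ f)⁻¹) * u) = 0 := by
    intro t u
    have h1 : (θ t u + algebraMap ℂ (HahnSeries ℤ M) e0 *
        (θ t (φ f) * (φ f)⁻¹) * u) * Vn
        = θ t (u * Vn) + algebraMap ℂ (HahnSeries ℤ M) e0 *
          (θ t (single (a : ℤ) 1) * (single (a : ℤ) 1 : HahnSeries ℤ M)⁻¹
          + θ t (C Q) * (C Q)⁻¹) * (u * Vn) := by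
      rw [hlog, Derivation.leibniz, smul_eq_mul, smul_eq_mul, hVnd]
      have h2 : algebraMap ℂ (HahnSeries ℤ M) e0 * (a * (θ t V * V⁻¹))
          = - ((n : HahnSeries ℤ M) * (θ t V * V⁻¹)) := by
        rw [← mul_assoc, heL, neg_mul]
      linear_combination u * Vn * h2
    rw [hTa, h1]
    have ht : t = 0 ∨ t = 1 := by omega
    rcases ht with rfl | rfl
    · have hθ0 : θ 0 = hd (0 : Derivation ℂ M M) 1 := rfl
      rw [hθ0]
      have h2 : hd (0 : Derivation ℂ M M) 1 (C Q : HahnSeries ℤ M) = 0 := by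
        ext g
        rw [coeff_hd, C_apply, coeff_single]
        split_ifs with h
        · rw [h]; simp
        · simp
      have h3 : hd (0 : Derivation ℂ M M) 1 (single (a : ℤ) 1 : HahnSeries ℤ M)
          = (a : HahnSeries ℤ M) * single (a : ℤ) 1 := by
        ext g
        have h4 : (a : HahnSeries ℤ M) = C (a : M) := by rw [map_natCast]
        rw [coeff_hd, h4, C_mul_eq_smul, coeff_smul, coeff_single]
        split_ifs with h
        · rw [h]; simp
        · simp
      rw [h2, h3, zero_mul, add_zero, mul_assoc (a : HahnSeries ℤ M), mul_inv_cancel₀ hs0,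
        mul_one, heL, coeff_add, coeff_hd]
      have h5 : (-(n : HahnSeries ℤ M) * (u * Vn)).coeff n = - (n : M) * (u * Vn).coeff n := by
        have h4 : (-(n : HahnSeries ℤ M)) = C (-(n : M)) := by rw [map_neg, map_natCast]
        rw [h4, C_mul_eq_smul, coeff_smul, smul_eq_mul]
      rw [h5]
      simp
    · have hθ1 : θ 1 = hd δ 0 := rfl
      rw [hθ1]
      have h2 : hd δ 0 (C Q : HahnSeries ℤ M) = C (δ Q) := by
        ext g
        rw [coeff_hd, C_apply, C_apply, coeff_single, coeff_single]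
        split_ifs with h
        · simp
        · simp
      have h3 : hd δ 0 (single (a : ℤ) 1 : HahnSeries ℤ M) = 0 := by
        ext g
        rw [coeff_hd, coeff_single]
        split_ifs with h
        · rw [Derivation.map_one_eq_zero]; simp
        · simp
      have h4 : (C Q : HahnSeries ℤ M)⁻¹ = C Q⁻¹ := (map_inv₀ C Q).symm
      have h5 : algebraMap ℂ (HahnSeries ℤ M) e0 * (0 * (single (a : ℤ) 1 : HahnSeries ℤ M)⁻¹
          + C (δ Q) * C Q⁻¹) = C (algebraMap ℂ M e0 * (δ Q * Q⁻¹)) := by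
        rw [zero_mul, zero_add, map_mul, map_mul]
        rfl
      rw [h2, h3, h4, h5, coeff_add, coeff_hd, C_mul_eq_smul, coeff_smul, smul_eq_mul]
      simp only [zero_mul, Int.cast_zero, add_zero]
      exact hT'3 _
  have hT1 : ∀ u ∈ (filtZ M).ge (n + 1), T u = 0 := by
    intro u hu
    have h1 := (filtZ M).mul hu hVnge'
    rw [hTa, coeff_of_lt h1 (by omega), map_zero]
  have hfge : φ f ∈ (filtZ M).ge a := by
    have h1 : φ f = single (a : ℤ) 1 * emb2 x0 g := by
      rw [hφ, AlgHom.comp_apply, hf, map_mul, map_pow, ← hu, single_pow, one_pow]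
      simp
    rw [h1]
    have := (filtZ M).mul (single_ge (a : ℤ) 1) (emb2_ge x0 g)
    rwa [add_zero] at this
  have hGc : (φ f).coeff a = Q := by
    have h := coeff_mul_ge (single_ge (a : ℤ) (1 : M)) hwge
    rw [add_zero] at h
    rw [hG1, h, coeff_single_same, one_mul, hwc]
  have h10 : φ 1 ≠ 0 := by rw [map_one]; exact one_ne_zero
  have hS3 : ∀ u ∈ frac φ 1 h10, u ∈ (filtZ M).ge 0 := by
    rintro u ⟨p, k, rfl⟩
    rw [map_one, one_pow, inv_one, mul_one]
    exact emb2_ge x0 _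
  have hT2 : T (Jac φ θ).det ≠ 0 := by
    have h := coeff_mul_ge hJν hVnge'
    rw [add_zero] at h
    rw [hTa, h, hVnc, mul_one, hdet0]
    exact hT'1
  have hθge : ∀ (t : Fin 2) {d : ℤ} {u : HahnSeries ℤ M}, u ∈ (filtZ M).ge d →
      θ t u ∈ (filtZ M).ge d := by
    intro t d u hu
    have ht : t = 0 ∨ t = 1 := by omega
    rcases ht with rfl | rfl
    · exact hd_ge _ _ hu
    · exact hd_ge _ _ hu
  refine h4 φ θ f e0 (filtZ M) a n (by exact_mod_cast ha) hJac0 hJν hcomm T hTθ hT1 hfge hGne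
    (frac φ 1 h10) (frac_phi φ 1 h10) (fun i u hu => frac_DD φ θ hJac0 1 h10 i u hu) hS3 ?_
    ⟨1, Subalgebra.one_mem _, by rw [mul_one]; exact hT2⟩
  intro he i
  have han : (a : ℤ) = n := by
    rw [he0, div_eq_iff hac] at he
    have h1 : (n : ℂ) = a := by linear_combination -he
    exact_mod_cast h1.symm
  have hent : ∀ s j, (Jac φ θ) s j ∈ (filtZ M).ge 1 := by
    intro s j
    obtain ⟨c, q, hq⟩ := hξ j
    have h1 : (Jac φ θ) s j = θ s (emb2 x0 (ξ j)) := by
      rw [Jac, Matrix.of_apply, hφ, AlgHom.comp_apply, aeval_X]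
    have h2 : emb2 x0 (MvPolynomial.C c) = algebraMap ℂ (HahnSeries ℤ M) c :=
      (emb2 x0).commutes c
    rw [h1, hq, map_add, h2, map_add, Derivation.map_algebraMap, zero_add, map_mul, emb2_X0]
    apply hθge
    have := (filtZ M).mul (single_ge (M := M) 1 1) (emb2_ge x0 q)
    rwa [add_zero] at this
  rw [det_DD φ θ hJac0]
  refine AddSubgroup.sum_mem _ fun t _ => ?_
  have h1 := (filtZ M).mul (adj_ge (filtZ M) _ hent i t) (hθge t hfge)
  rw [han, add_comm] at h1
  exact h1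

end Pool.Agent.N138.SV.A5
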