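import Pool.Agent.N138.SV.Stm
import Pool.Agent.W574.SM.NodeCurve

/-!
# Job A6: periods from the multiple components (subtask 7194)

The chain `node_curveV <- plane_curve <- rees_coords <- rees_root` of `Pool/Agent/W574/SM` for one
polynomial, with periods instead of roots.
-/

set_option autoImplicit false
set_option linter.unusedSectionVars false
set_option linter.unusedVariables false

namespace Pool.Agent.N138.SV.A6

open Pool.Agent.W574.SM Pool.Agent.N138.SV

section Core

open MvPowerSeries HahnSeries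

variable {σ : Type} [Fintype σ] [LinearOrder σ]

theorem per_core (h4 : StA4) (f : MvPolynomial σ ℂ)
    (z : σ) (ξ : σ → MvPowerSeries σ ℂ) (k a : ℕ) (ha0 : a ≠ 0) (hka : k + 1 ≠ a)
    (U0 U1 : MvPowerSeries σ ℂ)
    (hU0 : constantCoeff U0 ≠ 0) (hU1 : constantCoeff U1 ≠ 0)
    (hJ : (Matrix.of fun t i => pderiv ℂ t (ξ i)).det = X z ^ k * U0)
    (hf : MvPolynomial.aeval ξ f = X z ^ a * U1)
    (q : {t : σ // t ≠ z} → MvPolynomial σ ℂ)
    (hq : ∀ t : {t : σ // t ≠ z}, IsCoord z (t : σ) (MvPolynomial.aeval ξ (q t))) :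
    Per f (-((k : ℂ) + 1) / a) := by
  classical
  set L := HahnSeries (Gam σ) ℂ with hL
  set φ : MvPolynomial σ ℂ →ₐ[ℂ] L := (em z).comp (MvPolynomial.aeval ξ) with hφ
  have hφa : ∀ q, φ q = em z (MvPolynomial.aeval ξ q) := fun q => rfl
  set θ : σ → Derivation ℂ L L := fun t => eul (chi t) with hθ
  have hsum : ∑ t, gam z (Finsupp.single t 1)
      = gam z (Finsupp.single z 1) + ∑ t : {t : σ // t ≠ z}, gam z (Finsupp.single (t : σ) 1) :=
    Fintype.sum_eq_add_sum_subtype_ne (fun t => gam z (Finsupp.single t 1)) z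
  -- the Jacobian
  have hJac : (Jac φ θ).det = em z ((∏ t, X t) * (X z ^ k * U0)) := by
    rw [← hJ, ← Matrix.det_mul_column]
    have h1 : Jac φ θ = (em z : MvPowerSeries σ ℂ →+* L).mapMatrix
        (Matrix.of fun t i => X t * pderiv ℂ t (ξ i)) := by
      ext1 t i
      rw [Jac, Matrix.of_apply, hφa, MvPolynomial.aeval_X]
      exact eul_emb (gam z) (gam_injective z) (gam_monotone z) (chi t) t (chi_gam z t) (ξ i)
    rw [h1, ← RingHom.map_det]
    rfl
  have hJ0 : (Jac φ θ).det ≠ 0 := by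
    rw [hJac]
    exact em_ne_zero z _ (mul_ne_zero (Finset.prod_ne_zero_iff.2 fun t _ => X_ne_zero' t)
      (mul_ne_zero (pow_ne_zero _ (X_ne_zero' z)) (unit_ne_zero _ hU0)))
  have hemX : ∀ t, em z (X t) ≠ 0 := fun t => em_ne_zero z _ (X_ne_zero' t)
  have hJo : (Jac φ θ).det.order
      = ∑ t, gam z (Finsupp.single t 1) + k • gam z (Finsupp.single z 1) := by
    rw [hJac, map_mul, map_mul, map_prod, map_pow,
      order_mul (Finset.prod_ne_zero_iff.2 fun t _ => hemX t)
        (mul_ne_zero (pow_ne_zero _ (hemX z)) (em_ne_zero z _ (unit_ne_zero _ hU0))),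
      order_mul (pow_ne_zero _ (hemX z)) (em_ne_zero z _ (unit_ne_zero _ hU0)),
      order_prod _ _ fun t _ => hemX t, order_pow, order_em_unit z U0 hU0, add_zero]
    simp only [order_em_X]
  have hU1' : em z U1 ≠ 0 := em_ne_zero z _ (unit_ne_zero _ hU1)
  have hG : φ f = em z (X z) ^ a * em z U1 := by rw [hφa, hf, map_mul, map_pow]
  have hG0 : φ f ≠ 0 := by
    rw [hG]
    exact mul_ne_zero (pow_ne_zero _ (hemX z)) hU1'
  have hz1 : pr1 (gam z (Finsupp.single z 1)) = 1 := by
    rw [pr1_gam, Finsupp.single_eq_same]; rfl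
  -- the root
  obtain ⟨r, hr0, hro, hra⟩ := exists_root (em z U1) hU1' (order_em_unit z U1 hU1) a ha0
  set R : L := em z (X z) * r with hR
  have hR0 : R ≠ 0 := mul_ne_zero (hemX z) hr0
  have hRa : R ^ a = φ f := by rw [hR, mul_pow, hra, hG]
  have hRo : R.order = gam z (Finsupp.single z 1) := by
    rw [hR, order_mul (hemX z) hr0, hro, order_em_X, add_zero]
  set N : ℤ := -(k + 1) with hN
  set H0 : L := R ^ N with hH0
  have hac : (a : ℂ) ≠ 0 := Nat.cast_ne_zero.2 ha0
  have hH : ∀ t, θ t H0 = H0 * (algebraMap ℂ L (-((k : ℂ) + 1) / a) * (θ t (φ f) * (φ f)⁻¹)) := by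
    intro t
    have hRN : R ^ N ≠ 0 := zpow_ne_zero N hR0
    apply eq_of_dlog (θ t) hRN
    rw [dlog_zpow (θ t) hR0]
    have h1 : (a : L) * (θ t R * R⁻¹) = θ t (φ f) * (φ f)⁻¹ := by
      rw [← hRa, dlog_pow (θ t) hR0]
    have haL : (a : L) ≠ 0 := Nat.cast_ne_zero.2 ha0
    have h2 : (-((k : ℂ) + 1) / a : ℂ) = (N : ℂ) / a := by rw [hN]; push_cast; ring
    rw [h2, ← h1, map_div₀, map_intCast, map_natCast, ← mul_assoc ((N : L) / a),
      div_mul_cancel₀ _ haL]
  have hH00 : H0 ≠ 0 := zpow_ne_zero N hR0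
  have hRNo : ∀ n : ℤ, (R ^ n).order = n • gam z (Finsupp.single z 1) := by
    intro n
    rcases n with n | n
    · rw [Int.ofNat_eq_natCast, zpow_natCast, order_pow, hRo, natCast_zsmul]
    · rw [zpow_negSucc, order_inv' _ (pow_ne_zero _ hR0), order_pow, hRo, negSucc_zsmul]
  have hH0o : H0.order = N • gam z (Finsupp.single z 1) := hRNo N
  -- the denominators
  set q0 : MvPolynomial σ ℂ := ∏ t : {t : σ // t ≠ z}, q t with hq0
  have hφq : ∀ t : {t : σ // t ≠ z}, φ (q t) ≠ 0 := fun t =>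
    em_ne_zero z _ (coord_ne_zero z _ _ (hq t))
  have hφqo : ∀ t : {t : σ // t ≠ z}, (φ (q t)).order = gam z (Finsupp.single (t : σ) 1) := fun t =>
    order_em_coord z _ t.2 _ (hq t)
  have hq00 : φ q0 ≠ 0 := by
    rw [hq0, map_prod]
    exact Finset.prod_ne_zero_iff.2 fun t _ => hφq t
  have hq0o : (φ q0).order = ∑ t : {t : σ // t ≠ z}, gam z (Finsupp.single (t : σ) 1) := by
    rw [hq0, map_prod, order_prod _ _ fun t _ => hφq t]
    exact Finset.sum_congr rfl fun t _ => hφqo t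
  have hA0 : ∑ t : {t : σ // t ≠ z}, pr1 (gam z (Finsupp.single (t : σ) 1)) = 0 := by
    refine Finset.sum_eq_zero fun t _ => ?_
    rw [pr1_gam, Finsupp.single_eq_of_ne t.2.symm]
    rfl
  have hS3 : ∀ u ∈ frac φ q0 hq00, u ∈ (filt (pr1 : Gam σ →+ ℤ)).ge 0 := by
    rintro u ⟨p, n, rfl⟩
    have h1 : φ p ∈ (filt (pr1 : Gam σ →+ ℤ)).ge 0 := em_mem_ge z _
    have h2 : ((φ q0) ^ n)⁻¹ ∈ (filt (pr1 : Gam σ →+ ℤ)).ge 0 := by
      have h3 := mem_filt_of_order pr1 pr1_monotone ((φ q0) ^ n)⁻¹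
      rw [order_inv' _ (pow_ne_zero _ hq00), order_pow, hq0o, map_neg, map_nsmul, map_sum] at h3
      rw [hA0] at h3
      simpa using h3
    have := (filt (pr1 : Gam σ →+ ℤ)).mul h1 h2
    simpa using this
  set ρ : L := φ 1 * ((φ q0) ^ 1)⁻¹ with hρ
  have hρS : ρ ∈ frac φ q0 hq00 := ⟨1, 1, rfl⟩
  have hρ0 : ρ ≠ 0 := by
    rw [hρ, map_one, one_mul]
    exact inv_ne_zero (pow_ne_zero _ hq00)
  have hρo : ρ.order = - ∑ t : {t : σ // t ≠ z}, gam z (Finsupp.single (t : σ) 1) := by
    rw [hρ, map_one, one_mul, pow_one, order_inv' _ hq00, hq0o]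
  -- the filtration
  have hJν : (Jac φ θ).det ∈ (filt (pr1 : Gam σ →+ ℤ)).ge (pr1 (Jac φ θ).det.order) :=
    mem_filt_of_order pr1 pr1_monotone _
  have hH0h : H0 ∈ (filt (pr1 : Gam σ →+ ℤ)).ge (pr1 H0.order) :=
    mem_filt_of_order pr1 pr1_monotone _
  have hfa : φ f ∈ (filt (pr1 : Gam σ →+ ℤ)).ge a :=
    em_dvd_mem_ge z a _ ⟨U1, hf⟩
  have hzero : pr1 (Jac φ θ).det.order + pr1 H0.order = 0 := by
    rw [hJo, hsum, hH0o]
    simp only [map_add, map_sum, map_nsmul, map_zsmul, hz1, hA0, add_zero]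
    simp only [nsmul_eq_mul, smul_eq_mul, mul_one]
    rw [hN]
    ring
  have hT : T00 (Gam σ) ((Jac φ θ).det * (ρ * H0)) ≠ 0 := by
    apply T00_ne_zero _ (mul_ne_zero hJ0 (mul_ne_zero hρ0 hH00))
    rw [order_mul hJ0 (mul_ne_zero hρ0 hH00), order_mul hρ0 hH00, hJo, hsum, hH0o, hρo, hN,
      neg_zsmul, add_zsmul, one_zsmul, natCast_zsmul]
    abel
  refine h4 φ θ f (-((k : ℂ) + 1) / a) (filt (pr1 : Gam σ →+ ℤ)) a (pr1 (Jac φ θ).det.order)
    (by omega) hJ0 hJν (fun s t u => eul_comm _ _ u)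
    ((T00 (Gam σ)).comp (LinearMap.mulRight ℂ H0)) ?_ ?_ hfa hG0 (frac φ q0 hq00)
    (frac_phi φ q0 hq00) (fun i u hu => frac_DD φ θ hJ0 q0 hq00 i u hu) hS3 ?_ ⟨ρ, hρS, ?_⟩
  · intro t u
    rw [LinearMap.comp_apply, LinearMap.mulRight_apply]
    have h1 : (θ t u + algebraMap ℂ L (-((k : ℂ) + 1) / a) * (θ t (φ f) * (φ f)⁻¹) * u) * H0 =
        θ t (u * H0) := by
      rw [Derivation.leibniz, hH, smul_eq_mul, smul_eq_mul]
      ring
    rw [h1]
    exact T00_eul _ _
  · intro u hu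
    rw [LinearMap.comp_apply, LinearMap.mulRight_apply]
    apply T00_filt pr1
    have h1 := (filt (pr1 : Gam σ →+ ℤ)).mul hu hH0h
    exact (filt (pr1 : Gam σ →+ ℤ)).mono (by omega) h1
  · intro he
    exfalso
    rw [div_eq_iff hac] at he
    have h1 : (k : ℂ) + 1 = a := by linear_combination -he
    exact hka (by exact_mod_cast h1)
  · rw [LinearMap.comp_apply, LinearMap.mulRight_apply, mul_assoc]
    exact hT

end Core

section Coordinates

open MvPowerSeries

variable {σ : Type} [Fintype σ] [LinearOrder σ]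

/-- arbitrary formal coordinates -/
theorem per_coords (h4 : StA4) (f : MvPolynomial σ ℂ)
    (z : σ) (ξ : σ → MvPowerSeries σ ℂ) (k a : ℕ) (ha0 : a ≠ 0) (hka : k + 1 ≠ a)
    (U0 U1 : MvPowerSeries σ ℂ)
    (hU0 : constantCoeff U0 ≠ 0) (hU1 : constantCoeff U1 ≠ 0)
    (hJ : (Matrix.of fun t i => pderiv ℂ t (ξ i)).det = X z ^ k * U0)
    (hf : MvPolynomial.aeval ξ f = X z ^ a * U1)
    (w : σ → MvPowerSeries σ ℂ) (hwz : w z = X z) (hw0 : ∀ t, constantCoeff (w t) = 0)
    (hwdet : (Matrix.of fun s t => constantCoeff (pderiv ℂ s (w t))).det ≠ 0)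
    (htype : ∀ t, t ≠ z → ∃ q : MvPolynomial σ ℂ, MvPolynomial.aeval ξ q = w t) :
    Per f (-((k : ℂ) + 1) / a) := by
  set W : Matrix σ σ ℂ := Matrix.of fun s t => constantCoeff (pderiv ℂ s (w t)) with hW
  have hWW : W⁻¹ * W = 1 := Matrix.nonsing_inv_mul _ (isUnit_iff_ne_zero.2 hwdet)
  set A : σ → MvPowerSeries σ ℂ := fun s => ∑ r, (W⁻¹ r s) • X r with hA
  have hA0 : ∀ s, constantCoeff (A s) = 0 := by
    intro s
    rw [hA]
    simp
  have hAs : HasSubst A := hasSubst_of_constantCoeff_zero hA0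
  have hAd : ∀ t s, pderiv ℂ t (A s) = C (W⁻¹ t s) := by
    intro t s
    rw [hA, map_sum, Finset.sum_eq_single t]
    · rw [Derivation.map_smul, pderiv_X_self, smul_eq_C_mul, mul_one]
    · intro r _ hr
      rw [Derivation.map_smul, pderiv_X_of_ne hr, smul_zero]
    · intro h; exact absurd (Finset.mem_univ t) h
  have hWz : ∀ s, W s z = if s = z then 1 else 0 := by
    intro s
    rw [hW, Matrix.of_apply, hwz]
    by_cases h : s = z
    · rw [if_pos h, h, pderiv_X_self, map_one]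
    · rw [if_neg h, pderiv_X_of_ne (Ne.symm h), map_zero]
  have hWiz : ∀ r, W⁻¹ r z = if r = z then 1 else 0 := by
    intro r
    have h1 := congrFun (congrFun hWW r) z
    rw [Matrix.mul_apply, Matrix.one_apply] at h1
    rw [← h1]
    simp only [hWz]
    simp
  have hAz : A z = X z := by
    rw [hA]
    simp only [hWiz]
    simp
  have hsub : ∀ q : MvPolynomial σ ℂ, MvPolynomial.aeval (fun i => subst A (ξ i)) q
      = subst A (MvPolynomial.aeval ξ q) := by
    intro q
    have h1 : MvPolynomial.aeval (fun i => subst A (ξ i))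
        = (substAlgHom hAs).comp (MvPolynomial.aeval ξ) := by
      ext1 i
      rw [AlgHom.comp_apply, MvPolynomial.aeval_X, MvPolynomial.aeval_X, coe_substAlgHom]
    rw [h1, AlgHom.comp_apply, coe_substAlgHom]
  have hsz : ∀ (n : ℕ) (U : MvPowerSeries σ ℂ), subst A (X z ^ n * U) = X z ^ n * subst A U := by
    intro n U
    rw [subst_mul hAs, subst_pow hAs, subst_X hAs, hAz]
  have hlin : ∀ r t, constantCoeff (pderiv ℂ r (subst A (w t))) = if r = t then 1 else 0 := by
    intro r t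
    rw [pderiv_subst hAs, map_sum]
    have h1 := congrFun (congrFun hWW r) t
    rw [Matrix.mul_apply, Matrix.one_apply] at h1
    rw [← h1]
    refine Finset.sum_congr rfl fun s _ => ?_
    rw [map_mul, hAd, constantCoeff_subst' hAs hA0, constantCoeff_C, mul_comm]
    rfl
  have hcoef : ∀ r t, coeff (Finsupp.single r 1) (subst A (w t)) = if r = t then 1 else 0 := by
    intro r t
    rw [← hlin r t, ← coeff_zero_eq_constantCoeff_apply, coeff_pderiv]
    simp
  have hcoord : ∀ t, IsCoord z t (subst A (w t)) := by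
    intro t
    refine ⟨by rw [constantCoeff_subst' hAs hA0, hw0], ?_, ?_⟩
    · rw [hcoef, if_pos rfl]; exact one_ne_zero
    · intro l _ hlt
      rw [hcoef, if_neg hlt]
  choose q hq using fun t : {t : σ // t ≠ z} => htype t.1 t.2
  refine per_core h4 f z (fun i => subst A (ξ i)) k a ha0 hka
    (C (W⁻¹).det * subst A U0) (subst A U1) ?_ ?_ ?_ ?_ q ?_
  · rw [map_mul, constantCoeff_C, constantCoeff_subst' hAs hA0]
    refine mul_ne_zero ?_ hU0
    intro h
    have := congrArg Matrix.det hWW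
    rw [Matrix.det_mul, h, zero_mul, Matrix.det_one] at this
    exact zero_ne_one this
  · rwa [constantCoeff_subst' hAs hA0]
  · have h1 : (Matrix.of fun t i => pderiv ℂ t (subst A (ξ i)))
        = (W⁻¹).map C * (Matrix.of fun s i => pderiv ℂ s (ξ i)).map (substAlgHom hAs) := by
      ext1 t i
      rw [Matrix.of_apply, pderiv_subst hAs, Matrix.mul_apply]
      refine Finset.sum_congr rfl fun s _ => ?_
      rw [hAd, Matrix.map_apply, Matrix.map_apply, Matrix.of_apply, coe_substAlgHom, mul_comm]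
    rw [h1, Matrix.det_mul]
    have h2 : ((W⁻¹).map (C : ℂ →+* MvPowerSeries σ ℂ)).det = C (W⁻¹).det :=
      (RingHom.map_det (C : ℂ →+* MvPowerSeries σ ℂ) W⁻¹).symm
    have h3 : ((Matrix.of fun s i => pderiv ℂ s (ξ i)).map (substAlgHom hAs)).det
        = substAlgHom hAs (Matrix.of fun s i => pderiv ℂ s (ξ i)).det :=
      (RingHom.map_det (substAlgHom (R := ℂ) hAs : MvPowerSeries σ ℂ →+* MvPowerSeries σ ℂ)
        (Matrix.of fun s i => pderiv ℂ s (ξ i))).symm
    rw [h2, h3, hJ, coe_substAlgHom, hsz]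
    ring
  · rw [hsub, hf, hsz]
  · intro t
    rw [hsub, hq]
    exact hcoord t

end Coordinates

section Curve

open MvPowerSeries

/-- the exponent `-1/m` from a curve of multiplicity `m` -/
theorem per_curve (h4 : StA4) (f : MP) (ξ : Fin 2 → MP)
    (m : ℕ) (hm : 2 ≤ m) (h k : MP)
    (hf : MvPolynomial.aeval ξ f = h ^ m * k) (p0 p1 : ℂ)
    (hh : MvPolynomial.eval ![p0, p1] h = 0)
    (hh1 : MvPolynomial.eval ![p0, p1] (MvPolynomial.pderiv 1 h) ≠ 0)
    (hJ : MvPolynomial.eval ![p0, p1] (jac ξ) ≠ 0)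
    (hj0 : MvPolynomial.eval ![p0, p1] k ≠ 0) :
    Per f (-1 / (m : ℂ)) := by
  obtain ⟨V, hV0, hV⟩ := exists_implicit h p0 p1 hh hh1
  set A : Fin 2 → PS := ![C p0 + X 0, C p1 + V] with hA
  set g : MP → PS := fun q => MvPolynomial.aeval A q with hg
  have hcc : (fun i => constantCoeff (A i)) = ![p0, p1] := by
    funext i
    fin_cases i
    · simp [hA]
    · simp [hA, hV0]
  have hgc : ∀ q, constantCoeff (g q) = MvPolynomial.eval ![p0, p1] q := by
    intro q
    rw [hg]
    simp only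
    rw [constantCoeff_aeval, hcc]
  have hgm : ∀ p q, g (p * q) = g p * g q := fun p q => map_mul _ p q
  have hgp : ∀ p k, g (p ^ k) = g p ^ k := fun p k => map_pow _ p k
  have hgh : g h = X 1 := hV
  set ζ : Fin 2 → PS := fun i => g (ξ i) with hζ
  have hζa : ∀ q, MvPolynomial.aeval ζ q = g (MvPolynomial.aeval ξ q) := fun q =>
    aeval_aeval A ξ q
  have hC0 : ∀ (t : Fin 2) (c : ℂ), pderiv ℂ t (C c : PS) = 0 := fun t c =>
    (pderiv ℂ t).map_algebraMap c
  have hA0 : ∀ t, pderiv ℂ t (A 0) = pderiv ℂ t (X 0) := by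
    intro t
    have h1 : A 0 = C p0 + X 0 := rfl
    rw [h1, map_add, hC0, zero_add]
  have hA1 : ∀ t, pderiv ℂ t (A 1) = pderiv ℂ t V := by
    intro t
    have h1 : A 1 = C p1 + V := rfl
    rw [h1, map_add, hC0, zero_add]
  -- the derivative of the implicit function
  have hVd : g (MvPolynomial.pderiv 1 h) * pderiv ℂ 1 V = 1 := by
    have h1 : pderiv ℂ 1 (g h) = 1 := by rw [hgh, pderiv_X_self]
    rw [hg] at h1
    simp only at h1
    rw [pderiv_aeval, Fin.sum_univ_two, hA0, hA1, pderiv_X_of_ne (by decide), mul_zero,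
      zero_add] at h1
    exact h1
  have hVc : constantCoeff (pderiv ℂ 1 V) ≠ 0 := by
    intro h0
    have := congrArg constantCoeff hVd
    rw [map_mul, h0, mul_zero, map_one] at this
    exact zero_ne_one this
  have hdA : (Matrix.of fun t s => pderiv ℂ t (A s)).det = pderiv ℂ 1 V := by
    rw [Matrix.det_fin_two]
    simp only [Matrix.of_apply]
    rw [hA0, hA0, hA1, hA1, pderiv_X_self, pderiv_X_of_ne (by decide)]
    ring
  have hdet := det_aeval A ξ
  rw [hdA] at hdet
  -- a coordinate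
  have hex : ∃ t : Fin 2, constantCoeff (pderiv ℂ 0 (ζ t)) ≠ 0 := by
    by_contra hne
    push Not at hne
    have h1 := congrArg constantCoeff hdet
    rw [Matrix.det_fin_two] at h1
    simp only [Matrix.of_apply] at h1
    rw [map_sub, map_mul, map_mul] at h1
    have h2 : constantCoeff (pderiv ℂ 0 (MvPolynomial.aeval A (ξ 0))) = 0 := hne 0
    have h3 : constantCoeff (pderiv ℂ 0 (MvPolynomial.aeval A (ξ 1))) = 0 := hne 1
    rw [h2, h3, map_mul] at h1
    have h4 : constantCoeff (MvPolynomial.aeval A (jac ξ)) ≠ 0 := by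
      have := hgc (jac ξ)
      rw [hg] at this
      simp only at this
      rw [this]
      exact hJ
    exact mul_ne_zero hVc h4 (by rw [← h1]; ring)
  obtain ⟨t0, ht0⟩ := hex
  set w0 : PS := ζ t0 - C (constantCoeff (ζ t0)) with hw0
  set w : Fin 2 → PS := ![w0, X 1] with hww
  have hres := per_coords h4 f 1 ζ 0 m (by omega) (by omega) (pderiv ℂ 1 V * g (jac ξ)) (g k)
    (by rw [map_mul, hgc]; exact mul_ne_zero hVc hJ) (by rw [hgc]; exact hj0)
    (by
      rw [pow_zero, one_mul]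
      exact hdet)
    (by rw [hζa, hf, hgm, hgp, hgh]) w rfl (by
      intro t
      fin_cases t
      · simp [hww, hw0]
      · simp [hww]) (by
      rw [Matrix.det_fin_two]
      simp only [Matrix.of_apply, hww, Matrix.cons_val_zero, Matrix.cons_val_one]
      rw [pderiv_X_self, pderiv_X_of_ne (by decide), map_one, map_zero, zero_mul, sub_zero,
        mul_one, hw0, map_sub, hC0, sub_zero]
      exact ht0) (by
      intro t ht
      have ht1 : t = 0 := by omega
      subst ht1
      refine ⟨MvPolynomial.X t0 - MvPolynomial.C (constantCoeff (ζ t0)), ?_⟩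
      rw [map_sub, MvPolynomial.aeval_X, MvPolynomial.aeval_C]
      rfl)
  have hn' : -(((0 : ℕ) : ℂ) + 1) = -1 := by push_cast; ring
  rwa [hn'] at hres

end Curve

open MvPolynomial in
theorem t (h4 : StA4) : StA6 := by
  intro f ξ W W' hW hW' a0 n0 m hm h k hf hJ h0 h1 hj0
  have hne : h ≠ 0 := by
    rintro rfl
    rw [map_zero, map_zero] at h1
    exact h1 rfl
  obtain ⟨p, hp, ⟨q, hq⟩, hp0⟩ := exists_prime_through h h0 hne
  have hD : ¬ p ∣ X 0 * (pderiv 1 h * (W * (W' * k))) := by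
    intro hd
    rcases hp.dvd_or_dvd hd with hd | hd
    · obtain ⟨r, hr⟩ := hd
      have e0 : constantCoeff (pderiv 0 (X 0 : MP)) = constantCoeff (pderiv 0 (p * r)) := by
        rw [← hr]
      have e1 : constantCoeff (pderiv 1 (X 0 : MP)) = constantCoeff (pderiv 1 (p * r)) := by
        rw [← hr]
      rw [Derivation.leibniz, smul_eq_mul, smul_eq_mul, map_add, map_mul constantCoeff,
        map_mul constantCoeff, hp0, zero_mul, zero_add, pderiv_X_self, map_one] at e0
      rw [Derivation.leibniz, smul_eq_mul, smul_eq_mul, map_add, map_mul constantCoeff,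
        map_mul constantCoeff, hp0, zero_mul, zero_add, pderiv_X_of_ne (by decide), map_zero] at e1
      have hr0 : constantCoeff r ≠ 0 := by
        intro h
        rw [h, zero_mul] at e0
        exact one_ne_zero e0
      have hp1 : constantCoeff (pderiv 1 p) = 0 :=
        (mul_eq_zero.1 e1.symm).resolve_left hr0
      apply h1
      rw [hq, Derivation.leibniz, smul_eq_mul, smul_eq_mul, map_add, map_mul constantCoeff,
        map_mul constantCoeff, hp0, hp1, zero_mul, mul_zero, add_zero]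
    · rcases hp.dvd_or_dvd hd with hd | hd
      · exact h1 (cc_dvd hd hp0)
      · rcases hp.dvd_or_dvd hd with hd | hd
        · exact hW (cc_dvd hd hp0)
        · rcases hp.dvd_or_dvd hd with hd | hd
          · exact hW' (cc_dvd hd hp0)
          · exact hj0 (cc_dvd hd hp0)
  obtain ⟨P, hP1, hP2⟩ := exists_point p _ hp hD
  simp only [map_mul, eval_X] at hP2
  have g0 := left_ne_zero_of_mul hP2
  have hP3 := right_ne_zero_of_mul hP2
  have g1 := left_ne_zero_of_mul hP3
  have hP4 := right_ne_zero_of_mul hP3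
  have g2 := left_ne_zero_of_mul hP4
  have hP5 := right_ne_zero_of_mul hP4
  have g3 := left_ne_zero_of_mul hP5
  have g4 := right_ne_zero_of_mul hP5
  refine per_curve h4 f ξ m hm h (X 0 ^ a0 * W * k) (by rw [hf]; ring)
    (P 0) (P 1) ?_ ?_ ?_ ?_
  · rw [← vec2, hq, map_mul, hP1, zero_mul]
  · rw [← vec2]; exact g1
  · rw [← vec2, hJ, map_mul, map_pow, eval_X]
    exact mul_ne_zero (pow_ne_zero _ g0) g3
  · rw [← vec2, map_mul, map_mul, map_pow, eval_X]
    exact mul_ne_zero (mul_ne_zero (pow_ne_zero _ g0) g2) g4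

end Pool.Agent.N138.SV.A6
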