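import Pool.Agent.N138.SV.Stm

set_option autoImplicit false

/-! # Job C0 of project SV: averaging in one p-adic variable -/

namespace Pool.Agent.N138.SV.C0

open MeasureTheory
open Pool.Agent.W427.SMC (msZ bsZ mu)

attribute [local instance] msZ bsZ

variable {p : ℕ} [Fact p.Prime]

/-- isometries of a compact metric space are onto -/
theorem isom_onto {X : Type*} [MetricSpace X] [CompactSpace X] (f : X → X) (hf : Isometry f) :
    Function.Surjective f := by
  by_contra hns
  rw [Function.Surjective] at hns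
  push Not at hns
  obtain ⟨x, hx⟩ := hns
  have hcl : IsClosed (Set.range f) := (isCompact_range hf.continuous).isClosed
  have hxn : x ∉ Set.range f := by
    rintro ⟨a, ha⟩
    exact hx a ha
  obtain ⟨ε, hε, hb⟩ := Metric.isOpen_iff.1 hcl.isOpen_compl x hxn
  have hit : ∀ n : ℕ, Isometry (f^[n]) := fun n => by
    induction n with
    | zero => exact isometry_id
    | succ n ih => rw [Function.iterate_succ]; exact ih.comp hf
  have hfar : ∀ m n : ℕ, m < n → ε ≤ dist (f^[n] x) (f^[m] x) := by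
    intro m n hmn
    obtain ⟨k, rfl⟩ := Nat.exists_eq_add_of_lt hmn
    have e1 : f^[m + k + 1] x = f^[m] (f (f^[k] x)) := by
      rw [← Function.iterate_succ_apply' f k x, ← Function.iterate_add_apply]
      rfl
    rw [e1, (hit m).dist_eq]
    by_contra hlt
    push Not at hlt
    exact hb (Metric.mem_ball.2 hlt) ⟨_, rfl⟩
  obtain ⟨a, φ, hφ, hlim⟩ := CompactSpace.tendsto_subseq (fun n => f^[n] x)
  have hc := hlim.cauchySeq
  obtain ⟨N, hN⟩ := Metric.cauchySeq_iff'.1 hc ε hε
  have := hN (N + 1) (Nat.le_succ N)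
  have h2 := hfar (φ N) (φ (N + 1)) (hφ (Nat.lt_succ_self N))
  simp only [Function.comp] at this
  linarith

theorem cb_eq {a b : ℤ_[p]} {r : ℝ} (h : b ∈ Metric.closedBall a r) :
    Metric.closedBall a r = Metric.closedBall b r := by
  have : IsUltrametricDist ℤ_[p] := inferInstance
  exact (IsUltrametricDist.closedBall_eq_of_mem h)

theorem mu_cb (a b : ℤ_[p]) (r : ℝ) : mu p (Metric.closedBall a r) = mu p (Metric.closedBall b r) := by
  have h := measure_preimage_add (mu p) (b - a) (Metric.closedBall b r)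
  rw [← h]
  congr 1
  ext z
  simp only [Set.mem_preimage, Metric.mem_closedBall, dist_eq_norm]
  rw [show b - a + z - b = z - a by ring]

theorem gen : (msZ p) = MeasurableSpace.generateFrom
    {S : Set ℤ_[p] | ∃ (c : ℤ_[p]) (r : ℝ), 0 < r ∧ S = Metric.closedBall c r} := by
  have hB : TopologicalSpace.IsTopologicalBasis
      {S : Set ℤ_[p] | ∃ (c : ℤ_[p]) (r : ℝ), 0 < r ∧ S = Metric.closedBall c r} := by
    refine TopologicalSpace.isTopologicalBasis_of_isOpen_of_nhds ?_ ?_
    · rintro S ⟨c, r, hr, rfl⟩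
      exact IsUltrametricDist.isOpen_closedBall c hr.ne'
    · intro a U ha hU
      obtain ⟨ε, hε, hε2⟩ := Metric.isOpen_iff.1 hU a ha
      refine ⟨_, ⟨a, ε / 2, half_pos hε, rfl⟩, ?_, ?_⟩
      · exact Metric.mem_closedBall_self (half_pos hε).le
      · exact (Metric.closedBall_subset_ball (half_lt_self hε)).trans hε2
  exact hB.borel_eq_generateFrom

theorem map_isom (ψ : ℤ_[p] → ℤ_[p]) (hψ : Isometry ψ) : (mu p).map ψ = mu p := by
  have hm : Measurable ψ := hψ.continuous.measurable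
  have hf : IsFiniteMeasure ((mu p).map ψ) := inferInstance
  refine ext_of_generate_finite _ gen ?_ ?_ ?_
  · rintro S ⟨c, r, hr, rfl⟩ T ⟨c', r', hr', rfl⟩ ⟨x, hx, hx'⟩
    refine ⟨x, min r r', lt_min hr hr', ?_⟩
    rw [cb_eq hx, cb_eq hx']
    rcases le_total r r' with h | h
    · rw [min_eq_left h]
      exact Set.inter_eq_self_of_subset_left (Metric.closedBall_subset_closedBall h)
    · rw [min_eq_right h]
      exact Set.inter_eq_self_of_subset_right (Metric.closedBall_subset_closedBall h)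
  · rintro S ⟨c, r, hr, rfl⟩
    obtain ⟨b, rfl⟩ := isom_onto ψ hψ c
    rw [Measure.map_apply hm Metric.isClosed_closedBall.measurableSet, hψ.preimage_closedBall]
    exact mu_cb _ _ _
  · rw [Measure.map_apply hm MeasurableSet.univ, Set.preimage_univ]

theorem int_isom (ψ : ℤ_[p] → ℤ_[p]) (hψ : Isometry ψ) (H : ℤ_[p] → ℂ) (hH : Measurable H) :
    ∫ t, H (ψ t) ∂(mu p) = ∫ t, H t ∂(mu p) := by
  conv_rhs => rw [← map_isom ψ hψ]
  rw [integral_map hψ.continuous.measurable.aemeasurable hH.aestronglyMeasurable]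

theorem c0 (msq : MeasurableSpace ℚ_[p]) (_hb : @BorelSpace ℚ_[p] _ msq) (G : ℤ_[p] → ℚ_[p]) (c : ℚ_[p])
    (hc : c ≠ 0) (hG : ∀ t t', ‖G t - G t'‖ = ‖c‖ * ‖t - t'‖) (v : ℚ_[p]) (hv : ‖v‖ = 1)
    (hv2 : ‖v - 1‖ * ‖G 0‖ ≤ ‖c‖) (h : ℚ_[p] → ℂ) (hh : Measurable h) :
    ∫ t, h (v * G t) ∂(mu p) = ∫ t, h (G t) ∂(mu p) := by
  have hc0 : 0 < ‖c‖ := norm_pos_iff.2 hc
  have n1 : ∀ t, ‖(G t - G 0) / c‖ ≤ 1 := by
    intro t
    rw [norm_div, hG, sub_zero, mul_div_assoc, mul_comm, div_mul_cancel₀ _ hc0.ne']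
    exact PadicInt.norm_le_one t
  have n2 : ∀ t, ‖(v * G t - G 0) / c‖ ≤ 1 := by
    intro t
    have e1 : (v * G t - G 0) / c = (v - 1) * G 0 / c + v * ((G t - G 0) / c) := by
      field_simp
      ring
    rw [e1]
    refine le_trans (Padic.nonarchimedean _ _) (max_le ?_ ?_)
    · rw [norm_div, norm_mul]
      exact (div_le_one hc0).2 hv2
    · rw [norm_mul, hv, one_mul]
      exact n1 t
  set φ : ℤ_[p] → ℤ_[p] := fun t => ⟨(G t - G 0) / c, n1 t⟩ with hφ
  set ψ : ℤ_[p] → ℤ_[p] := fun t => ⟨(v * G t - G 0) / c, n2 t⟩ with hψ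
  have i1 : Isometry φ := Isometry.of_dist_eq fun t t' => by
    rw [dist_eq_norm, dist_eq_norm]
    have : ‖φ t - φ t'‖ = ‖(G t - G 0) / c - (G t' - G 0) / c‖ := rfl
    rw [this, ← sub_div, sub_sub_sub_cancel_right, norm_div, hG, mul_comm, mul_div_assoc,
      div_self hc0.ne', mul_one]
  have i2 : Isometry ψ := Isometry.of_dist_eq fun t t' => by
    rw [dist_eq_norm, dist_eq_norm]
    have : ‖ψ t - ψ t'‖ = ‖(v * G t - G 0) / c - (v * G t' - G 0) / c‖ := rfl
    rw [this, ← sub_div, sub_sub_sub_cancel_right, norm_div, ← mul_sub, norm_mul, hv, one_mul, hG,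
      mul_comm, mul_div_assoc, div_self hc0.ne', mul_one]
  have hH : Measurable fun z : ℤ_[p] => h (G 0 + c * (z : ℚ_[p])) := by
    refine hh.comp ?_
    have : Continuous fun z : ℤ_[p] => G 0 + c * (z : ℚ_[p]) :=
      continuous_const.add (continuous_const.mul continuous_subtype_val)
    exact this.measurable
  have e1 := int_isom φ i1 _ hH
  have e2 := int_isom ψ i2 _ hH
  have f1 : ∀ t, G 0 + c * ((φ t : ℤ_[p]) : ℚ_[p]) = G t := by
    intro t
    show G 0 + c * ((G t - G 0) / c) = G t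
    rw [mul_div_cancel₀ _ hc]; ring
  have f2 : ∀ t, G 0 + c * ((ψ t : ℤ_[p]) : ℚ_[p]) = v * G t := by
    intro t
    show G 0 + c * ((v * G t - G 0) / c) = v * G t
    rw [mul_div_cancel₀ _ hc]; ring
  simp only [f1] at e1
  simp only [f2] at e2
  rw [e1, e2]

attribute [local instance] Pool.Agent.Y230.PT.msK Pool.Agent.Y230.PT.bsK

theorem t : StC0 := fun p _ G c hc hG v hv hv2 h hh _ =>
  c0 (p := p) _ inferInstance G c hc hG v hv hv2 h hh

end Pool.Agent.N138.SV.C0
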