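import Pool.Agent.N138.SV.CAvg

set_option autoImplicit false
set_option linter.unusedSectionVars false

/-! # Invariance of the distribution of a monomial times a unit (job C1) -/

namespace Pool.Agent.N138.SV.C1

open MeasureTheory Set Pool.Agent.W427.SMC Pool.Agent.Y230.PT Pool.Agent.Y230.RE
open Pool.Agent.N138.SU
open Pool.Agent.N138.SV.C3 Pool.Agent.N138.SV.CAvg

variable {p : ℕ} [Fact p.Prime]

attribute [local instance] msK bsK msZ bsZ

theorem norm_eq_of_sub_lt {x y : ℚ_[p]} (h : ‖x - y‖ < ‖y‖) : ‖x‖ = ‖y‖ := by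
  have e : x = (x - y) + y := by ring
  rw [e, Padic.add_eq_max_of_ne h.ne, max_eq_right h.le]

theorem near_mul {x y : ℚ_[p]} {δ : ℝ} (hδ : δ ≤ 1) (hx : ‖x - 1‖ ≤ δ) (hy : ‖y - 1‖ ≤ δ) :
    ‖x * y - 1‖ ≤ δ := by
  have hx1 : ‖x‖ ≤ 1 := by
    have e : x = (x - 1) + 1 := by ring
    rw [e]
    exact (Padic.nonarchimedean _ _).trans (max_le (hx.trans hδ) (by rw [norm_one]))
  have e : x * y - 1 = x * (y - 1) + (x - 1) := by ring
  rw [e]
  refine (Padic.nonarchimedean _ _).trans (max_le ?_ hx)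
  rw [norm_mul]
  exact (mul_le_of_le_one_left (norm_nonneg _) hx1).trans hy

theorem near_pow {x : ℚ_[p]} {δ : ℝ} (hδ0 : 0 ≤ δ) (hδ : δ ≤ 1) (hx : ‖x - 1‖ ≤ δ) (n : ℕ) :
    ‖x ^ n - 1‖ ≤ δ := by
  induction n with
  | zero => simpa using hδ0
  | succ n ih =>
    rw [pow_succ]
    exact near_mul hδ ih hx

theorem nat_le_one (a : ℕ) : ‖(a : ℚ_[p])‖ ≤ 1 :=
  IsUltrametricDist.norm_natCast_le_one ℚ_[p] a

theorem geom_norm (a : ℕ) {x y : ℚ_[p]} {δ : ℝ} (hδ0 : 0 ≤ δ) (hδ : δ < ‖(a : ℚ_[p])‖)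
    (hx : ‖x - 1‖ ≤ δ) (hy : ‖y - 1‖ ≤ δ) :
    ‖∑ i ∈ Finset.range a, x ^ i * y ^ (a - 1 - i)‖ = ‖(a : ℚ_[p])‖ := by
  have hδ1 : δ ≤ 1 := (hδ.trans_le (nat_le_one a)).le
  refine norm_eq_of_sub_lt (lt_of_le_of_lt ?_ hδ)
  have e : ∑ i ∈ Finset.range a, x ^ i * y ^ (a - 1 - i) - (a : ℚ_[p]) =
      ∑ i ∈ Finset.range a, (x ^ i * y ^ (a - 1 - i) - 1) := by
    rw [Finset.sum_sub_distrib]
    simp
  rw [e]
  exact IsUltrametricDist.norm_sum_le_of_forall_le_of_nonneg hδ0 fun i _ =>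
    near_mul hδ1 (near_pow hδ0 hδ1 hx i) (near_pow hδ0 hδ1 hy _)

theorem pow_sub_norm (a : ℕ) {x y : ℚ_[p]} {δ : ℝ} (hδ0 : 0 ≤ δ) (hδ : δ < ‖(a : ℚ_[p])‖)
    (hx : ‖x - 1‖ ≤ δ) (hy : ‖y - 1‖ ≤ δ) : ‖x ^ a - y ^ a‖ = ‖(a : ℚ_[p])‖ * ‖x - y‖ := by
  rw [← geom_sum₂_mul x y a, norm_mul, geom_norm a hδ0 hδ hx hy]

/-- the choice of the neighbourhood -/
theorem exists_eps (W : A ℚ_[p]) (hW : MvPolynomial.constantCoeff W ≠ 0)
    (Q : ℚ_[p] × ℚ_[p] × ℚ_[p] → ℚ_[p]) (hQ : Continuous Q) (η : ℝ) (hη : 0 < η) :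
    ∃ ε : ℝ, 0 < ε ∧ ε ≤ 1 ∧ (∀ u v : ℚ_[p], ‖u‖ < ε → ‖v‖ < ε →
      ‖ev (u, v) W‖ = ‖MvPolynomial.constantCoeff W‖) ∧
    ∀ u u' v : ℚ_[p], ‖u‖ < ε → ‖u'‖ < ε → ‖v‖ < ε → ε * ‖Q (u, u', v)‖ ≤ η := by
  have hω := norm_pos_iff.2 hW
  have hO1 : IsOpen {x : ℚ_[p] × ℚ_[p] | ‖ev x W - MvPolynomial.constantCoeff W‖ <
      ‖MvPolynomial.constantCoeff W‖} :=
    isOpen_lt (((ev_cont W).sub continuous_const).norm) continuous_const
  obtain ⟨ε1, hε1, h1⟩ := Metric.isOpen_iff.1 hO1 (0, 0) (by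
    change ‖ev (0, 0) W - MvPolynomial.constantCoeff W‖ < _
    rw [ev_zero, sub_self, norm_zero]
    exact hω)
  set M : ℝ := ‖Q (0, 0, 0)‖ + 1 with hM
  have hM0 : 0 < M := by positivity
  have hO2 : IsOpen {z : ℚ_[p] × ℚ_[p] × ℚ_[p] | ‖Q z‖ < M} := isOpen_lt hQ.norm continuous_const
  obtain ⟨ε2, hε2, h2⟩ := Metric.isOpen_iff.1 hO2 (0, 0, 0) (by
    change ‖Q (0, 0, 0)‖ < M
    rw [hM]
    linarith)
  refine ⟨min (min 1 (η / M)) (min ε1 ε2), by positivity, (min_le_left _ _).trans (min_le_left _ _),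
    fun u v hu hv => ?_, fun u u' v hu hu' hv => ?_⟩
  · refine norm_eq_of_sub_lt ?_
    have h3 : (u, v) ∈ Metric.ball ((0, 0) : ℚ_[p] × ℚ_[p]) ε1 := by
      rw [Metric.mem_ball, Prod.dist_eq]
      simp only [dist_zero_right]
      exact max_lt (hu.trans_le ((min_le_right _ _).trans (min_le_left _ _)))
        (hv.trans_le ((min_le_right _ _).trans (min_le_left _ _)))
    exact h1 h3
  · have h3 : (u, u', v) ∈ Metric.ball ((0, 0, 0) : ℚ_[p] × ℚ_[p] × ℚ_[p]) ε2 := by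
      rw [Metric.mem_ball, Prod.dist_eq, Prod.dist_eq]
      simp only [dist_zero_right]
      exact max_lt (hu.trans_le ((min_le_right _ _).trans (min_le_right _ _)))
        (max_lt (hu'.trans_le ((min_le_right _ _).trans (min_le_right _ _)))
          (hv.trans_le ((min_le_right _ _).trans (min_le_right _ _))))
    have h4 : ‖Q (u, u', v)‖ < M := h2 h3
    have h5 : min (min 1 (η / M)) (min ε1 ε2) ≤ η / M := (min_le_left _ _).trans (min_le_right _ _)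
    calc min (min 1 (η / M)) (min ε1 ε2) * ‖Q (u, u', v)‖ ≤ η / M * M :=
          mul_le_mul h5 h4.le (norm_nonneg _) (by positivity)
      _ = η := by field_simp

/-- compact open sets are invariant under the translations by small vectors -/
theorem exists_inv {C : Set (ℚ_[p] × ℚ_[p])} (hC : CO C) : ∃ L : ℕ, ∀ x ∈ C,
    ∀ z : ℚ_[p] × ℚ_[p], ‖z.1 - x.1‖ ≤ qr p ^ L → ‖z.2 - x.2‖ ≤ qr p ^ L → z ∈ C := by
  obtain ⟨δ, hδ, hδ2⟩ := lebesgue_number_lemma_of_metric (ι := Unit) (c := fun _ => C) hC.cpt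
    (fun _ => hC.opn) (fun x hx => Set.mem_iUnion.2 ⟨(), hx⟩)
  obtain ⟨L, hL⟩ := exists_pow_lt_of_lt_one hδ (qr_lt_one (p := p))
  refine ⟨L, fun x hx z h1 h2 => ?_⟩
  obtain ⟨_, h3⟩ := hδ2 x hx
  refine h3 ?_
  rw [Metric.mem_ball, Prod.dist_eq, dist_eq_norm, dist_eq_norm]
  exact max_lt (h1.trans_lt hL) (h2.trans_lt hL)

theorem norm_inc_sub (t t' : ℤ_[p]) : ‖inc p t - inc p t'‖ = ‖t - t'‖ := by
  unfold inc
  rw [← PadicInt.coe_sub]
  rfl

theorem okx_w (n0 n1 : ℕ) : Okx (fun (_ : ℝ) (x : ℚ_[p] × ℚ_[p]) =>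
    nx x.1 ^ (n0 - 1) * nx x.2 ^ (n1 - 1)) :=
  ((okx_nx (fun x => x.1) continuous_fst).pow (n0 - 1)).mul
    ((okx_nx (fun x => x.2) continuous_snd).pow (n1 - 1))

theorem main (h0 : StC0) (W : A ℚ_[p]) (hW : MvPolynomial.constantCoeff W ≠ 0)
    (a0 n0 a1 n1 : ℕ) (ha : 1 ≤ a0) : LInv W a0 n0 a1 n1 (0, 0) := by
  obtain ⟨Q, hQc, hQ⟩ := exists_dq0 W
  have hω := norm_pos_iff.2 hW
  have ha0 : (a0 : ℚ_[p]) ≠ 0 := by
    have : a0 ≠ 0 := by omega
    exact_mod_cast this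
  have haω := norm_pos_iff.2 ha0
  obtain ⟨ε, hε, hε1, hεW, hεQ⟩ := exists_eps W hW Q hQc
    (‖(a0 : ℚ_[p])‖ * ‖MvPolynomial.constantCoeff W‖ / 2) (by positivity)
  refine ⟨Metric.ball 0 ε ×ˢ Metric.ball 0 ε, Metric.isOpen_ball.prod Metric.isOpen_ball,
    ⟨Metric.mem_ball_self hε, Metric.mem_ball_self hε⟩, fun C hC hCU => ?_⟩
  have hU : ∀ x ∈ C, ‖x.1‖ < ε ∧ ‖x.2‖ < ε := by
    intro x hx
    have h1 := hCU hx
    rw [Set.mem_prod, Metric.mem_ball, Metric.mem_ball, dist_zero_right, dist_zero_right] at h1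
    exact h1
  obtain ⟨L1, hL1⟩ := exists_inv hC
  obtain ⟨L2, hL2⟩ := exists_pow_lt_of_lt_one haω (qr_lt_one (p := p))
  obtain ⟨L, hLL1, hLL2, hL⟩ : ∃ L : ℕ, L1 ≤ L ∧ L2 ≤ L ∧ 1 ≤ L := ⟨L1 + L2 + 1, by omega,
    by omega, by omega⟩
  have hqL1 : qr p ^ L ≤ qr p ^ L1 := pow_le_pow_of_le_one qr_pos.le qr_lt_one.le hLL1
  have hqL2 : qr p ^ L < ‖(a0 : ℚ_[p])‖ :=
    (pow_le_pow_of_le_one qr_pos.le qr_lt_one.le hLL2).trans_lt hL2
  have hq0 : 0 ≤ qr p ^ L := pow_nonneg qr_pos.le _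
  have hpL : ‖(p : ℚ_[p]) ^ L‖ = qr p ^ L := by
    rw [norm_pow, Padic.norm_p]
    rfl
  have hp0 : (p : ℚ_[p]) ≠ 0 := by exact_mod_cast (Fact.out : p.Prime).ne_zero
  obtain ⟨α, hα⟩ : ∃ α : ℤ_[p] → ℚ_[p], α = fun t => 1 + (p : ℚ_[p]) ^ L * inc p t := ⟨_, rfl⟩
  have hαc : Continuous α := by
    rw [hα]
    exact continuous_const.add (continuous_const.mul (inc_emb p).continuous)
  have hαn : ∀ t, ‖α t - 1‖ ≤ ((p : ℝ)⁻¹) ^ L := by
    intro t
    rw [hα]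
    simp only [add_sub_cancel_left]
    rw [norm_mul, hpL]
    exact mul_le_of_le_one_right hq0 t.2
  have hα1 : ∀ t, ‖α t‖ = 1 := fun t => norm_one_of_near hL (hαn t)
  have hαd : ∀ t t', ‖α t - α t'‖ = ‖(p : ℚ_[p]) ^ L‖ * ‖t - t'‖ := by
    intro t t'
    have e : α t - α t' = (p : ℚ_[p]) ^ L * (inc p t - inc p t') := by
      rw [hα]
      ring
    rw [e, norm_mul, norm_inc_sub]
  have hα0 : α 0 = 1 := by
    rw [hα]
    simp [inc]
  have key := avg h0 hC (fun x => x.1 ^ a0 * x.2 ^ a1 * ev x W)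
    (((continuous_fst.pow a0).mul (continuous_snd.pow a1)).mul (ev_cont W))
    (fun x => nx x.1 ^ (n0 - 1) * nx x.2 ^ (n1 - 1)) (okx_w n0 n1)
    (fun t x => (α t * x.1, x.2))
    (((hαc.comp continuous_fst).mul (continuous_fst.comp continuous_snd)).prodMk
      (continuous_snd.comp continuous_snd))
    (fun x _ => by rw [hα0, one_mul]) ?_ ?_ ((a0 : ℚ_[p]) * (p : ℚ_[p]) ^ L)
    (mul_ne_zero ha0 (pow_ne_zero _ hp0)) ?_
  · obtain ⟨N, hN⟩ := key
    exact ⟨N, fun v hv h hm hb => hN v hv h hm hb⟩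
  · -- the maps preserve the integrals
    intro t F _
    have hne : α t ≠ 0 := by
      intro h1
      have h2 := hα1 t
      rw [h1, norm_zero] at h2
      exact zero_ne_one h2
    have h1 := Zx_shearU F (α t) hne (fun _ => 0) continuous_const hC 0
    have hN1 : (N p 1 (α t)).toReal = 1 := by
      rw [N_toReal, hα1, Real.one_rpow]
    have hpre : shU (α t) hne (fun _ : ℚ_[p] => (0 : ℚ_[p])) continuous_const ⁻¹' C = C := by
      ext x
      have e : shU (α t) hne (fun _ : ℚ_[p] => (0 : ℚ_[p])) continuous_const x =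
          (α t * x.1, x.2) := by
        change (0 + α t * x.1, x.2) = _
        rw [zero_add]
      rw [Set.mem_preimage, e]
      have hn : ‖α t * x.1 - x.1‖ = ‖α t - 1‖ * ‖x.1‖ := by
        rw [← norm_mul]
        congr 1
        ring
      constructor
      · intro hx
        have h2 := (hU _ hx).1
        change ‖α t * x.1‖ < ε at h2
        rw [norm_mul, hα1, one_mul] at h2
        refine hL1 _ hx x ?_ ?_
        · change ‖x.1 - α t * x.1‖ ≤ _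
          rw [norm_sub_rev, hn]
          exact (mul_le_of_le_one_right (norm_nonneg _) (h2.le.trans hε1)).trans
            ((hαn t).trans hqL1)
        · change ‖x.2 - x.2‖ ≤ _
          rw [sub_self, norm_zero]
          exact pow_nonneg qr_pos.le _
      · intro hx
        have h2 := (hU _ hx).1
        refine hL1 _ hx _ ?_ ?_
        · change ‖α t * x.1 - x.1‖ ≤ _
          rw [hn]
          exact (mul_le_of_le_one_right (norm_nonneg _) (h2.le.trans hε1)).trans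
            ((hαn t).trans hqL1)
        · change ‖x.2 - x.2‖ ≤ _
          rw [sub_self, norm_zero]
          exact pow_nonneg qr_pos.le _
    rw [hN1, hpre, Complex.ofReal_one, one_mul] at h1
    rw [h1]
    simp only [zero_add]
  · -- the weight
    intro t x _
    have h1 : nx (α t * x.1) = nx x.1 := by
      unfold nx
      rw [norm_mul, hα1, one_mul]
    simp only [h1]
  · -- the values
    intro x hx t t'
    obtain ⟨hx1, hx2⟩ := hU x hx
    have hb : ∀ t, ‖α t * x.1‖ < ε := fun t => by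
      rw [norm_mul, hα1, one_mul]
      exact hx1
    have hWx : ‖ev x W‖ = ‖MvPolynomial.constantCoeff W‖ := hεW x.1 x.2 hx1 hx2
    have hWt : ∀ t, ‖ev (α t * x.1, x.2) W‖ = ‖MvPolynomial.constantCoeff W‖ :=
      fun t => hεW _ _ (hb t) hx2
    change ‖(α t * x.1) ^ a0 * x.2 ^ a1 * ev (α t * x.1, x.2) W -
      (α t' * x.1) ^ a0 * x.2 ^ a1 * ev (α t' * x.1, x.2) W‖ = _
    have e : (α t * x.1) ^ a0 * x.2 ^ a1 * ev (α t * x.1, x.2) W -
        (α t' * x.1) ^ a0 * x.2 ^ a1 * ev (α t' * x.1, x.2) W = x.1 ^ a0 * x.2 ^ a1 *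
        ((α t ^ a0 - α t' ^ a0) * ev (α t * x.1, x.2) W + α t' ^ a0 *
          ((α t - α t') * (x.1 * Q (α t * x.1, α t' * x.1, x.2)))) := by
      have h1 := hQ (α t * x.1) (α t' * x.1) x.2
      have h2 : (α t - α t') * (x.1 * Q (α t * x.1, α t' * x.1, x.2)) =
          ev (α t * x.1, x.2) W - ev (α t' * x.1, x.2) W := by
        rw [h1]
        ring
      rw [h2]
      ring
    rw [e, norm_mul]
    have hA : ‖(α t ^ a0 - α t' ^ a0) * ev (α t * x.1, x.2) W‖ = ‖(a0 : ℚ_[p])‖ *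
        ‖α t - α t'‖ * ‖MvPolynomial.constantCoeff W‖ := by
      rw [norm_mul, hWt, pow_sub_norm a0 hq0 hqL2 (hαn t) (hαn t')]
    have hm : ‖(α t ^ a0 - α t' ^ a0) * ev (α t * x.1, x.2) W + α t' ^ a0 *
        ((α t - α t') * (x.1 * Q (α t * x.1, α t' * x.1, x.2)))‖ = ‖(a0 : ℚ_[p])‖ *
        ‖α t - α t'‖ * ‖MvPolynomial.constantCoeff W‖ := by
      by_cases htt : α t = α t'
      · rw [htt]
        simp
      · have hpos : 0 < ‖α t - α t'‖ := norm_pos_iff.2 (sub_ne_zero.2 htt)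
        rw [← hA]
        have hlt : ‖α t' ^ a0 * ((α t - α t') * (x.1 * Q (α t * x.1, α t' * x.1, x.2)))‖ <
            ‖(α t ^ a0 - α t' ^ a0) * ev (α t * x.1, x.2) W‖ := by
          rw [hA, norm_mul, norm_pow, hα1, one_pow, one_mul, norm_mul, norm_mul]
          have h3 : ‖x.1‖ * ‖Q (α t * x.1, α t' * x.1, x.2)‖ <
              ‖(a0 : ℚ_[p])‖ * ‖MvPolynomial.constantCoeff W‖ := by
            have h4 := hεQ _ _ _ (hb t) (hb t') hx2
            have h5 : ‖x.1‖ * ‖Q (α t * x.1, α t' * x.1, x.2)‖ ≤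
                ε * ‖Q (α t * x.1, α t' * x.1, x.2)‖ :=
              mul_le_mul_of_nonneg_right hx1.le (norm_nonneg _)
            have h6 : 0 < ‖(a0 : ℚ_[p])‖ * ‖MvPolynomial.constantCoeff W‖ := by positivity
            linarith
          nlinarith
        rw [Padic.add_eq_max_of_ne hlt.ne', max_eq_left hlt.le]
    rw [hm, hαd]
    simp only [norm_mul, hWx]
    ring

/-- **C1.** -/
theorem t (h0 : StC0) : StC1 := by
  intro p _ W a0 n0 a1 n1 hW _ _ ha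
  rcases ha with ha | ha
  · exact main h0 W hW a0 n0 a1 n1 ha
  · exact LInv.swap (main h0 (CAvg.sw W) (by rw [CAvg.cc_sw]; exact hW) a1 n1 a0 n0 ha)

end Pool.Agent.N138.SV.C1
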