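import Pool.Agent.N138.SV.Stm
import Pool.Agent.N138.SU.Ix
import Pool.Agent.Y230.PT.Node

set_option autoImplicit false
set_option linter.unusedSectionVars false
set_option linter.unusedVariables false

/-! # Invariance for the smooth curves with a multiplicity -/

namespace Pool.Agent.N138.SV.C2

open MvPolynomial MeasureTheory Set
open Pool.Agent.W427.SMC (msZ bsZ mu)
open Pool.Agent.Y230.PT
open Pool.Agent.Y230.RE (A)
open Pool.Agent.N138.SU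

attribute [local instance] msK bsK msZ bsZ

variable {p : ℕ} [Fact p.Prime]

/-- induction over the compact open sets, for boxes of a fixed size -/
theorem box_ind (κ k : ℕ) (P : Set (ℚ_[p] × ℚ_[p]) → Prop) (he : P ∅)
    (hu : ∀ A B, CO A → CO B → Disjoint A B → P A → P B → P (A ∪ B))
    (C : Set (ℚ_[p] × ℚ_[p])) (hC : CO C) (hk : ∀ y ∈ C, bx κ y k ⊆ C)
    (hP : ∀ y ∈ C, P (bx κ y k)) : P C := by
  classical
  obtain ⟨t, ht⟩ := hC.cpt.elim_finite_subcover (fun y : C => bx κ y.1 k)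
    (fun y => (CO_bx κ y.1 k).opn) (fun y hy => Set.mem_iUnion.2 ⟨⟨y, hy⟩, self_mem_bx κ y k⟩)
  have hCt : C = ⋃ y ∈ t, bx κ (y : ℚ_[p] × ℚ_[p]) k :=
    Set.Subset.antisymm ht (Set.iUnion₂_subset fun y _ => hk y.1 y.2)
  have key : ∀ t : Finset C, P (⋃ y ∈ t, bx κ (y : ℚ_[p] × ℚ_[p]) k) ∧
      CO (⋃ y ∈ t, bx κ (y : ℚ_[p] × ℚ_[p]) k) := by
    intro t
    induction t using Finset.induction_on with
    | empty => simpa using ⟨he, CO.empty⟩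
    | insert y t hy ih =>
      rw [Finset.set_biUnion_insert]
      by_cases hd : Disjoint (bx κ (y : ℚ_[p] × ℚ_[p]) k) (⋃ y ∈ t, bx κ (y : ℚ_[p] × ℚ_[p]) k)
      · exact ⟨hu _ _ (CO_bx κ _ k) ih.2 hd (hP y.1 y.2) ih.1, (CO_bx κ _ k).union ih.2⟩
      · rw [Set.not_disjoint_iff] at hd
        obtain ⟨x, hx1, hx2⟩ := hd
        rw [Set.mem_iUnion₂] at hx2
        obtain ⟨z, hz, hxz⟩ := hx2
        have h1 : bx κ (y : ℚ_[p] × ℚ_[p]) k ⊆ ⋃ y ∈ t, bx κ (y : ℚ_[p] × ℚ_[p]) k := by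
          rw [bx_eq hx1 hxz]
          exact Set.subset_iUnion₂ (s := fun (y : C) (_ : y ∈ t) => bx κ (y : ℚ_[p] × ℚ_[p]) k) z hz
        rw [Set.union_eq_self_of_subset_left h1]
        exact ih
  rw [hCt]
  exact (key t).1

theorem exists_k (C : Set (ℚ_[p] × ℚ_[p])) (hC : CO C) : ∃ k : ℕ, ∀ y ∈ C, bx 0 y k ⊆ C := by
  obtain ⟨δ, hδ, hδ2⟩ := lebesgue_number_lemma_of_metric (ι := Unit) (c := fun _ => C) hC.cpt
    (fun _ => hC.opn) (fun x hx => Set.mem_iUnion.2 ⟨(), hx⟩)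
  obtain ⟨k, hk⟩ := exists_pow_lt_of_lt_one hδ (qr_lt_one (p := p))
  refine ⟨k, fun y hy => ?_⟩
  obtain ⟨_, hx⟩ := hδ2 y hy
  exact (bx_sub_ball 0 y k).trans ((Metric.closedBall_subset_ball hk).trans hx)

theorem norm_dom {a b : ℚ_[p]} (h : ‖b‖ < ‖a‖) : ‖a + b‖ = ‖a‖ := by
  rw [Padic.add_eq_max_of_ne h.ne', max_eq_left h.le]

/-- the shear along the curve -/
noncomputable def tw (h : A ℚ_[p]) (q : ℚ_[p]) (x : ℚ_[p] × ℚ_[p]) : ℚ_[p] × ℚ_[p] := (x.1, x.2 + q * ev x h)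

theorem tw_cont2 (h : A ℚ_[p]) :
    Continuous (fun z : ℚ_[p] × (ℚ_[p] × ℚ_[p]) => tw h z.1 z.2) := by
  have h1 : Continuous (fun z : ℚ_[p] × (ℚ_[p] × ℚ_[p]) => ev z.2 h) :=
    (ev_cont h).comp continuous_snd
  unfold tw
  fun_prop

theorem tw_cont (h : A ℚ_[p]) (q : ℚ_[p]) : Continuous (tw h q) :=
  (tw_cont2 h).comp (by fun_prop : Continuous fun x : ℚ_[p] × ℚ_[p] => (q, x))

theorem box_inv (h : A ℚ_[p]) (ε d : ℝ) 
    (hv : ∀ u v v' : ℚ_[p], ‖u‖ < ε → ‖v‖ < ε → ‖v'‖ < ε →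
      ‖ev (u, v) h - ev (u, v') h‖ = d * ‖v - v'‖)
    (B : ℝ) (hB : ∀ u v : ℚ_[p], ‖u‖ < ε → ‖v‖ < ε → ‖ev (u, v) h‖ ≤ B)
    (q : ℚ_[p]) (hq1 : ‖q‖ * d < 1) (y : ℚ_[p] × ℚ_[p]) (k : ℕ) (hq2 : ‖q‖ * B ≤ qr p ^ k)
    (hy : bx 0 y k ⊆ Metric.ball 0 ε ×ˢ Metric.ball 0 ε) (F : CI p) (hF : Okx F) :
    Zx (fun s x => F s (tw h q x)) (bx 0 y k) 0 = Zx F (bx 0 y k) 0 := by
  have hmem : ∀ u ∈ bl y.1 (k + 0), ∀ v ∈ bl y.2 k, ‖u‖ < ε ∧ ‖v‖ < ε := by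
    intro u hu v hv
    have := hy (show (u, v) ∈ bx 0 y k from ⟨hu, hv⟩)
    rw [Set.mem_prod, Metric.mem_ball, Metric.mem_ball, dist_zero_right, dist_zero_right] at this
    exact this
  have hy2 := self_mem_bl y.2 k
  have hok : Okx (fun s x => F s (tw h q x)) := hF.comp _ (tw_cont h q)
  have hint1 := hok.fin (CO_bx 0 y k) le_rfl
  have hint2 := hF.fin (CO_bx 0 y k) le_rfl
  have e1 : Zx (fun s x => F s (tw h q x)) (bx 0 y k) 0 =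
      ∫ u in bl y.1 (k + 0), ∫ v in bl y.2 k, F 0 (tw h q (u, v)) ∂(Y230.PT.nu p)
        ∂(Y230.PT.nu p) := by
    unfold Zx
    rw [bx, nu2] at hint1 ⊢
    exact setIntegral_prod _ hint1
  have e2 : Zx F (bx 0 y k) 0 =
      ∫ u in bl y.1 (k + 0), ∫ v in bl y.2 k, F 0 (u, v) ∂(Y230.PT.nu p)
        ∂(Y230.PT.nu p) := by
    unfold Zx
    rw [bx, nu2] at hint2 ⊢
    exact setIntegral_prod _ hint2
  rw [e1, e2]
  refine setIntegral_congr_fun (bl_meas _ _) fun u hu => ?_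
  have hc : Continuous (fun v : ℚ_[p] => ev (u, v) h) :=
    (ev_cont h).comp (by fun_prop : Continuous fun v : ℚ_[p] => (u, v))
  have h1 := isom_int y.2 k (fun v => v + q * ev (u, v) h)
    (by fun_prop : Continuous fun v => v + q * ev (u, v) h).measurable
    (fun v hv1 v' hv2 => by
      have h2 := hv u v v' (hmem u hu v hv1).1 (hmem u hu v hv1).2 (hmem u hu v' hv2).2
      by_cases hvv : v = v'
      · rw [hvv, sub_self, sub_self]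
      · have h3 : 0 < ‖v - v'‖ := norm_pos_iff.2 (sub_ne_zero.2 hvv)
        have h4 : v + q * ev (u, v) h - (v' + q * ev (u, v') h) =
            (v - v') + q * (ev (u, v) h - ev (u, v') h) := by ring
        rw [h4]
        refine norm_dom ?_
        rw [norm_mul, h2, ← mul_assoc]
        exact mul_lt_of_lt_one_left h3 hq1)
    (fun v => F 0 (u, v)) ((hF 0 le_rfl).1.comp measurable_prodMk_left)
  have h5 : bl (y.2 + q * ev (u, y.2) h) k = bl y.2 k := by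
    refine bl_eq (self_mem_bl _ k) ?_
    rw [mem_bl, add_sub_cancel_left, norm_mul]
    refine le_trans ?_ hq2
    exact mul_le_mul_of_nonneg_left (hB _ _ (hmem u hu _ hy2).1 (hmem u hu _ hy2).2)
      (norm_nonneg _)
  rw [h5] at h1
  exact h1

theorem set_inv (h : A ℚ_[p]) (ε d : ℝ)
    (hv : ∀ u v v' : ℚ_[p], ‖u‖ < ε → ‖v‖ < ε → ‖v'‖ < ε →
      ‖ev (u, v) h - ev (u, v') h‖ = d * ‖v - v'‖)
    (B : ℝ) (hB : ∀ u v : ℚ_[p], ‖u‖ < ε → ‖v‖ < ε → ‖ev (u, v) h‖ ≤ B)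
    (q : ℚ_[p]) (hq1 : ‖q‖ * d < 1) (C : Set (ℚ_[p] × ℚ_[p])) (hC : CO C) (k : ℕ)
    (hk : ∀ y ∈ C, bx 0 y k ⊆ C) (hq2 : ‖q‖ * B ≤ qr p ^ k)
    (hCU : C ⊆ Metric.ball 0 ε ×ˢ Metric.ball 0 ε) (F : CI p) (hF : Okx F) :
    Zx (fun s x => F s (tw h q x)) C 0 = Zx F C 0 := by
  refine box_ind 0 k (fun C => Zx (fun s x => F s (tw h q x)) C 0 = Zx F C 0) ?_ ?_ C hC hk ?_
  · rw [Zx_empty, Zx_empty]
  · intro A B hA hB hd h1 h2
    rw [Zx_union hF hA hB hd le_rfl, Zx_union (hF.comp _ (tw_cont h q)) hA hB hd le_rfl, h1, h2]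
  · intro y hy
    exact box_inv h ε d hv B hB q hq1 y k hq2 ((hk y hy).trans hCU) F hF

/-- the average over the shears -/
theorem avg (h : A ℚ_[p]) (q : ℚ_[p]) (C : Set (ℚ_[p] × ℚ_[p])) (hC : CO C) (F : CI p)
    (hF : Okx F)
    (hinv : ∀ t : ℤ_[p], Zx (fun s x => F s (tw h (q * inc p t) x)) C 0 = Zx F C 0) :
    Zx F C 0 = ∫ x in C, ∫ t, F 0 (tw h (q * inc p t) x) ∂(mu p) ∂(nu2 p) := by
  have hincc : Continuous (inc p) := (inc_emb p).continuous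
  have hcont : Continuous (fun z : ℤ_[p] × (ℚ_[p] × ℚ_[p]) => tw h (q * inc p z.1) z.2) :=
    (tw_cont2 h).comp (by fun_prop : Continuous fun z : ℤ_[p] × (ℚ_[p] × ℚ_[p]) =>
      ((q * inc p z.1, z.2) : ℚ_[p] × (ℚ_[p] × ℚ_[p])))
  have hmeas : Measurable (fun z : ℤ_[p] × (ℚ_[p] × ℚ_[p]) => F 0 (tw h (q * inc p z.1) z.2)) :=
    (hF 0 le_rfl).1.comp hcont.measurable
  have hcpt : IsCompact ((fun z : ℤ_[p] × (ℚ_[p] × ℚ_[p]) => tw h (q * inc p z.1) z.2) ''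
      (Set.univ ×ˢ C)) := (isCompact_univ.prod hC.cpt).image hcont
  obtain ⟨B, hB⟩ := (hF 0 le_rfl).2 _ hcpt
  have hint : Integrable (Function.uncurry fun (t : ℤ_[p]) (x : ℚ_[p] × ℚ_[p]) =>
      F 0 (tw h (q * inc p t) x)) ((mu p).prod ((nu2 p).restrict C)) := by
    have hfin : IsFiniteMeasure ((nu2 p).restrict C) :=
      ⟨by rw [Measure.restrict_apply_univ]; exact hC.cpt.measure_lt_top⟩
    have e : (mu p).prod ((nu2 p).restrict C) =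
        ((mu p).prod (nu2 p)).restrict (Set.univ ×ˢ C) := by
      rw [← Measure.prod_restrict, Measure.restrict_univ]
    refine Integrable.of_bound (C := B) hmeas.aestronglyMeasurable ?_
    rw [e]
    refine (ae_restrict_iff' (MeasurableSet.univ.prod hC.meas)).2 (Filter.Eventually.of_forall ?_)
    intro z hz
    exact hB _ ⟨z, hz, rfl⟩
  have h1 := integral_integral_swap hint
  rw [← h1]
  have h2 : ∀ t : ℤ_[p], ∫ x in C, F 0 (tw h (q * inc p t) x) ∂(nu2 p) = Zx F C 0 := hinv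
  simp only [h2]
  simp

theorem near_one {ρ : ℝ} (h1 : ρ < 1) {a b : ℚ_[p]} (ha : ‖a - 1‖ ≤ ρ) (hb : ‖b - 1‖ ≤ ρ) :
    ‖a * b - 1‖ ≤ ρ := by
  have h0 : 0 ≤ ρ := (norm_nonneg _).trans ha
  have e : a * b - 1 = (a - 1) * b + (b - 1) := by ring
  have hb1 : ‖b‖ ≤ 1 := by
    have : b = (b - 1) + 1 := by ring
    rw [this]
    refine (Padic.nonarchimedean _ _).trans (max_le (hb.trans h1.le) ?_)
    rw [norm_one]
  rw [e]
  refine (Padic.nonarchimedean _ _).trans (max_le ?_ hb)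
  rw [norm_mul]
  exact (mul_le_of_le_one_right (norm_nonneg _) hb1).trans ha

theorem near_one_pow {ρ : ℝ} (h1 : ρ < 1) {a : ℚ_[p]} (ha : ‖a - 1‖ ≤ ρ) (n : ℕ) :
    ‖a ^ n - 1‖ ≤ ρ := by
  induction n with
  | zero => simpa using (norm_nonneg _).trans ha
  | succ n ih => rw [pow_succ]; exact near_one h1 ih ha

theorem norm_near_one {ρ : ℝ} (h1 : ρ < 1) {a : ℚ_[p]} (ha : ‖a - 1‖ ≤ ρ) : ‖a‖ = 1 := by
  have : a = 1 + (a - 1) := by ring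
  rw [this, norm_dom, norm_one]
  rw [norm_one]
  exact ha.trans_lt h1

theorem pow_sub_norm (m : ℕ) {a b : ℚ_[p]} {ρ : ℝ} (ha : ‖a - 1‖ ≤ ρ) (hb : ‖b - 1‖ ≤ ρ)
    (h1 : ρ < 1) (hm : ρ < ‖(m : ℚ_[p])‖) : ‖a ^ m - b ^ m‖ = ‖(m : ℚ_[p])‖ * ‖a - b‖ := by
  have h0 : 0 ≤ ρ := (norm_nonneg _).trans ha
  rw [← geom_sum₂_mul, norm_mul]
  congr 1
  have e : (∑ i ∈ Finset.range m, a ^ i * b ^ (m - 1 - i)) =
      (m : ℚ_[p]) + ∑ i ∈ Finset.range m, (a ^ i * b ^ (m - 1 - i) - 1) := by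
    rw [Finset.sum_sub_distrib]
    simp
  rw [e]
  refine norm_dom (lt_of_le_of_lt ?_ hm)
  refine IsUltrametricDist.norm_sum_le_of_forall_le_of_nonneg h0 fun i _ => ?_
  exact near_one h1 (near_one_pow h1 ha _) (near_one_pow h1 hb _)

theorem G_norm (h κ : A ℚ_[p]) (m : ℕ) (hm : 1 ≤ m) (ε d M : ℝ) (hd : 0 < d)
    (hv : ∀ u v v' : ℚ_[p], ‖u‖ < ε → ‖v‖ < ε → ‖v'‖ < ε →
      ‖ev (u, v) h - ev (u, v') h‖ = d * ‖v - v'‖)
    (hk : ∀ u v v' : ℚ_[p], ‖u‖ < ε → ‖v‖ < ε → ‖v'‖ < ε →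
      ‖ev (u, v) κ - ev (u, v') κ‖ ≤ M * ‖v - v'‖)
    (r : ℝ) (hr : 0 < r) (hκ : ∀ u v : ℚ_[p], ‖u‖ < ε → ‖v‖ < ε → ‖ev (u, v) κ‖ = r)
    (hM : ∀ u v : ℚ_[p], ‖u‖ < ε → ‖v‖ < ε → ‖ev (u, v) h‖ * M < ‖(m : ℚ_[p])‖ * d * r)
    (q : ℚ_[p]) (hq0 : q ≠ 0) (hq : ‖q‖ * d < 1) (hqm : ‖q‖ * d < ‖(m : ℚ_[p])‖)
    (x : ℚ_[p] × ℚ_[p]) (hx1 : ‖x.1‖ < ε) (hx2 : ‖x.2‖ < ε)
    (hx : ∀ t : ℤ_[p], ‖x.2 + q * inc p t * ev x h‖ < ε) (t t' : ℤ_[p]) :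
    ‖ev (tw h (q * inc p t) x) (h ^ m * κ) - ev (tw h (q * inc p t') x) (h ^ m * κ)‖ =
      ‖(m : ℚ_[p])‖ * d * ‖q‖ * ‖ev x (h ^ m * κ)‖ * ‖t - t'‖ := by
  by_cases htt : t = t'
  · rw [htt, sub_self, sub_self, norm_zero, norm_zero, mul_zero]
  by_cases h0 : ev x h = 0
  · have e1 : ∀ t, tw h (q * inc p t) x = x := by
      intro t
      unfold tw
      rw [h0, mul_zero, add_zero]
    rw [e1, e1, sub_self, norm_zero, map_mul, map_pow, h0, zero_pow (by omega), zero_mul,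
      norm_zero, mul_zero, zero_mul]
  have hT : 0 < ‖t - t'‖ := norm_pos_iff.2 (sub_ne_zero.2 htt)
  have hH : 0 < ‖ev x h‖ := norm_pos_iff.2 h0
  have hQ : 0 < ‖q‖ := norm_pos_iff.2 hq0
  have hmp : 0 < ‖(m : ℚ_[p])‖ := lt_of_le_of_lt (by positivity) hqm
  have hinc : ∀ s : ℤ_[p], ‖inc p s‖ = ‖s‖ := fun s => rfl
  have hincs : ∀ s s' : ℤ_[p], inc p s - inc p s' = inc p (s - s') := by
    intro s s'; simp [inc]
  -- differences of the values of `h`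
  have hd1 : ∀ s s' : ℤ_[p], ‖ev (tw h (q * inc p s) x) h - ev (tw h (q * inc p s') x) h‖ =
      d * (‖q‖ * ‖s - s'‖ * ‖ev x h‖) := by
    intro s s'
    have h1 := hv x.1 _ _ hx1 (hx s) (hx s')
    have e : x.2 + q * inc p s * ev x h - (x.2 + q * inc p s' * ev x h) =
        q * (inc p s - inc p s') * ev x h := by ring
    rw [e, norm_mul, norm_mul, hincs, hinc] at h1
    exact h1
  have hd0 : ∀ s : ℤ_[p], ‖ev (tw h (q * inc p s) x) h - ev x h‖ ≤ ‖q‖ * d * ‖ev x h‖ := by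
    intro s
    have h1 := hv x.1 _ _ hx1 (hx s) hx2
    have e : x.2 + q * inc p s * ev x h - x.2 = q * inc p s * ev x h := by ring
    rw [e, norm_mul, norm_mul, hinc] at h1
    have h2 : ‖ev (tw h (q * inc p s) x) h - ev x h‖ = d * (‖q‖ * ‖s‖ * ‖ev x h‖) := h1
    rw [h2]
    have h3 : ‖s‖ ≤ 1 := PadicInt.norm_le_one s
    have h4 : d * (‖q‖ * ‖s‖ * ‖ev x h‖) = ‖q‖ * d * ‖ev x h‖ * ‖s‖ := by ring
    rw [h4]
    exact mul_le_of_le_one_right (by positivity) h3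
  -- the ratios
  have ha : ∀ s : ℤ_[p], ‖ev (tw h (q * inc p s) x) h / ev x h - 1‖ ≤ ‖q‖ * d := by
    intro s
    rw [div_sub_one h0, norm_div, div_le_iff₀ hH]
    exact hd0 s
  have hpow : ‖ev (tw h (q * inc p t) x) h ^ m - ev (tw h (q * inc p t') x) h ^ m‖ =
      ‖ev x h‖ ^ m * (‖(m : ℚ_[p])‖ * (d * (‖q‖ * ‖t - t'‖))) := by
    have h1 := pow_sub_norm m (ha t) (ha t') hq hqm
    rw [div_pow, div_pow, ← sub_div, ← sub_div, norm_div, norm_div, norm_pow, hd1 t t'] at h1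
    have hHm : 0 < ‖ev x h‖ ^ m := pow_pos hH m
    rw [div_eq_iff hHm.ne'] at h1
    rw [h1]
    field_simp
  have hnt : ‖ev (tw h (q * inc p t') x) h‖ = ‖ev x h‖ := by
    have h1 := norm_near_one hq (ha t')
    rw [norm_div, div_eq_one_iff_eq hH.ne'] at h1
    exact h1
  have hkt : ‖ev (tw h (q * inc p t) x) κ‖ = r := hκ _ _ hx1 (hx t)
  have hkd : ‖ev (tw h (q * inc p t) x) κ - ev (tw h (q * inc p t') x) κ‖ ≤
      M * (‖q‖ * ‖t - t'‖ * ‖ev x h‖) := by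
    have h1 := hk x.1 _ _ hx1 (hx t) (hx t')
    have e : x.2 + q * inc p t * ev x h - (x.2 + q * inc p t' * ev x h) =
        q * (inc p t - inc p t') * ev x h := by ring
    rw [e, norm_mul, norm_mul, hincs, hinc] at h1
    exact h1
  have hMx := hM x.1 x.2 hx1 hx2
  have e : ev (tw h (q * inc p t) x) (h ^ m * κ) - ev (tw h (q * inc p t') x) (h ^ m * κ) =
      (ev (tw h (q * inc p t) x) h ^ m - ev (tw h (q * inc p t') x) h ^ m) *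
        ev (tw h (q * inc p t) x) κ +
      ev (tw h (q * inc p t') x) h ^ m *
        (ev (tw h (q * inc p t) x) κ - ev (tw h (q * inc p t') x) κ) := by
    rw [map_mul, map_mul, map_pow, map_pow]
    ring
  have hxx : ‖ev x κ‖ = r := hκ x.1 x.2 hx1 hx2
  rw [e, norm_dom, norm_mul, hpow, hkt, map_mul, map_pow, norm_mul, norm_pow, hxx]
  · ring
  · rw [norm_mul, norm_mul, hpow, hkt, norm_pow, hnt]
    have h5 : ‖ev x h‖ ^ m *
        ‖ev (tw h (q * inc p t) x) κ - ev (tw h (q * inc p t') x) κ‖ ≤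
        (‖ev x h‖ ^ m * (‖q‖ * ‖t - t'‖)) * (‖ev x h‖ * M) := by
      refine (mul_le_mul_of_nonneg_left hkd (by positivity)).trans (le_of_eq ?_)
      ring
    refine lt_of_le_of_lt h5 ?_
    have h6 : ‖ev x h‖ ^ m * (‖(m : ℚ_[p])‖ * (d * (‖q‖ * ‖t - t'‖))) * r =
        (‖ev x h‖ ^ m * (‖q‖ * ‖t - t'‖)) * (‖(m : ℚ_[p])‖ * d * r) := by ring
    rw [h6]
    exact mul_lt_mul_of_pos_left hMx (by positivity)

/-- the constants near the origin -/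
theorem setup (h κ : A ℚ_[p]) (c : ℝ) (hc : 0 < c) (hh : constantCoeff h = 0)
    (hh1 : constantCoeff (pderiv 1 h) ≠ 0) (hκ : constantCoeff κ ≠ 0) :
    ∃ (ε M : ℝ), 0 < ε ∧
    (∀ u v v' : ℚ_[p], ‖u‖ < ε → ‖v‖ < ε → ‖v'‖ < ε →
      ‖ev (u, v) h - ev (u, v') h‖ = ‖constantCoeff (pderiv 1 h)‖ * ‖v - v'‖) ∧
    (∀ u v v' : ℚ_[p], ‖u‖ < ε → ‖v‖ < ε → ‖v'‖ < ε →
      ‖ev (u, v) κ - ev (u, v') κ‖ ≤ M * ‖v - v'‖) ∧
    (∀ u v : ℚ_[p], ‖u‖ < ε → ‖v‖ < ε → ‖ev (u, v) κ‖ = ‖constantCoeff κ‖) ∧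
    (∀ u v : ℚ_[p], ‖u‖ < ε → ‖v‖ < ε → ‖ev (u, v) h‖ * M < c) ∧
    (∀ u v : ℚ_[p], ‖u‖ < ε → ‖v‖ < ε → ‖ev (u, v) h‖ ≤ 1) := by
  obtain ⟨Q, hQ1, hQ2, hQ3⟩ := exists_dq1 h
  obtain ⟨R, hR1, hR2, -⟩ := exists_dq1 κ
  have hQ0 : Q (0, 0, 0) = constantCoeff (pderiv 1 h) := by rw [hQ3, ev_zero]
  obtain ⟨U, hU, h0U, hU2⟩ := norm_const_near Q hQ1 (0, 0, 0) (by rw [hQ0]; exact hh1)
  obtain ⟨V, hV, h0V, hV2⟩ := norm_const_near (fun x : ℚ_[p] × ℚ_[p] => ev x κ) (ev_cont κ) (0, 0)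
    (by rw [ev_zero]; exact hκ)
  have hW : IsOpen (R ⁻¹' Metric.ball (R (0, 0, 0)) 1) := Metric.isOpen_ball.preimage hR1
  have hpr : Continuous (fun z : ℚ_[p] × ℚ_[p] × ℚ_[p] => ((z.1, z.2.1) : ℚ_[p] × ℚ_[p])) := by
    fun_prop
  have hevp : Continuous (fun z : ℚ_[p] × ℚ_[p] × ℚ_[p] => ev (z.1, z.2.1) h) :=
    (ev_cont h).comp hpr
  have hX : IsOpen {z : ℚ_[p] × ℚ_[p] × ℚ_[p] | ‖ev (z.1, z.2.1) h‖ * (‖R (0, 0, 0)‖ + 1) < c} :=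
    isOpen_lt (by fun_prop) continuous_const
  have hY : IsOpen {z : ℚ_[p] × ℚ_[p] × ℚ_[p] | ‖ev (z.1, z.2.1) h‖ < 1} :=
    isOpen_lt (by fun_prop) continuous_const
  have h00 : ev ((0 : ℚ_[p]), (0 : ℚ_[p])) h = 0 := by rw [ev_zero, hh]
  obtain ⟨ε, hε, hε2⟩ := Metric.isOpen_iff.1
    ((((hU.inter hW).inter (hV.preimage hpr)).inter hX).inter hY) (0, 0, 0)
    ⟨⟨⟨⟨h0U, Metric.mem_ball_self one_pos⟩, h0V⟩, by
      change ‖ev ((0 : ℚ_[p]), (0 : ℚ_[p])) h‖ * _ < c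
      rw [h00, norm_zero, zero_mul]
      exact hc⟩, by
      change ‖ev ((0 : ℚ_[p]), (0 : ℚ_[p])) h‖ < 1
      rw [h00, norm_zero]
      exact one_pos⟩
  have hball : ∀ a b c : ℚ_[p], ‖a‖ < ε → ‖b‖ < ε → ‖c‖ < ε → (a, b, c) ∈ Metric.ball
      ((0, 0, 0) : ℚ_[p] × ℚ_[p] × ℚ_[p]) ε := by
    intro a b c ha hb hc
    rw [Metric.mem_ball, Prod.dist_eq, Prod.dist_eq]
    simp only [dist_zero_right]
    exact max_lt ha (max_lt hb hc)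
  refine ⟨ε, ‖R (0, 0, 0)‖ + 1, hε, ?_, ?_, ?_, ?_, ?_⟩
  · intro u v v' hu hv hv'
    have h1 := hε2 (hball u v v' hu hv hv')
    rw [hQ2, norm_mul, hU2 _ h1.1.1.1.1, hQ0, mul_comm]
  · intro u v v' hu hv hv'
    have h1 := hε2 (hball u v v' hu hv hv')
    have h3 := h1.1.1.1.2
    rw [Set.mem_preimage, Metric.mem_ball, dist_eq_norm] at h3
    have h4 : ‖R (u, v, v')‖ ≤ ‖R (0, 0, 0)‖ + 1 := by
      have h5 : R (u, v, v') = (R (u, v, v') - R (0, 0, 0)) + R (0, 0, 0) := by ring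
      rw [h5]
      refine (norm_add_le _ _).trans ?_
      linarith
    rw [hR2, norm_mul, mul_comm]
    exact mul_le_mul_of_nonneg_right h4 (norm_nonneg _)
  · intro u v hu hv
    have h1 := hε2 (hball u v v hu hv hv)
    have h2 := hV2 _ h1.1.1.2
    rw [h2, ev_zero]
  · intro u v hu hv
    exact (hε2 (hball u v v hu hv hv)).1.2
  · intro u v hu hv
    exact (hε2 (hball u v v hu hv hv)).2.le

theorem okx_Hh (H : ℚ_[p] → ℂ) (hm : Measurable H) (hb : ∃ B : ℝ, ∀ z, ‖H z‖ ≤ B)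
    (g : A ℚ_[p]) (a0 n0 a1 n1 : ℕ) : Okx (Hh H g a0 n0 a1 n1) := by
  obtain ⟨B, hB⟩ := hb
  have h1 : Okx (fun (_ : ℝ) (x : ℚ_[p] × ℚ_[p]) => H (x.1 ^ a0 * x.2 ^ a1 * ev x g)) := by
    intro s _
    have hc : Continuous (fun x : ℚ_[p] × ℚ_[p] => x.1 ^ a0 * x.2 ^ a1 * ev x g) :=
      ((continuous_fst.pow a0).mul (continuous_snd.pow a1)).mul (ev_cont g)
    exact ⟨hm.comp hc.measurable, fun C _ => ⟨B, fun x _ => hB _⟩⟩
  exact h1.mul (((okx_nx (fun x => x.1) continuous_fst).pow (n0 - 1)).mul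
    ((okx_nx (fun x => x.2) continuous_snd).pow (n1 - 1)))

theorem main1 (h0 : StC0) (h κ : A ℚ_[p]) (m a n : ℕ) (hm : 1 ≤ m) (hn : 1 ≤ n)
    (hh : constantCoeff h = 0) (hκ0 : constantCoeff κ ≠ 0)
    (hh1 : constantCoeff (pderiv 1 h) ≠ 0) : LInv (h ^ m * κ) a n 0 1 (0, 0) := by
  have hmp : 0 < ‖(m : ℚ_[p])‖ := norm_pos_iff.2 (Nat.cast_ne_zero.2 (by omega))
  have hdp : 0 < ‖constantCoeff (pderiv 1 h)‖ := norm_pos_iff.2 hh1
  have hrp : 0 < ‖constantCoeff κ‖ := norm_pos_iff.2 hκ0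
  obtain ⟨ε, M, hε, hv, hk, hκ, hM, hB⟩ := setup h κ
    (‖(m : ℚ_[p])‖ * ‖constantCoeff (pderiv 1 h)‖ * ‖constantCoeff κ‖) (by positivity) hh hh1 hκ0
  set d := ‖constantCoeff (pderiv 1 h)‖ with hd
  refine ⟨Metric.ball 0 ε ×ˢ Metric.ball 0 ε, Metric.isOpen_ball.prod Metric.isOpen_ball,
    ⟨Metric.mem_ball_self hε, Metric.mem_ball_self hε⟩, fun C hC hCU => ?_⟩
  obtain ⟨k, hk2⟩ := exists_k C hC
  obtain ⟨L0, hL0⟩ := exists_pow_lt_of_lt_one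
    (show (0 : ℝ) < min 1 ‖(m : ℚ_[p])‖ / d from div_pos (lt_min one_pos hmp) hdp)
    (qr_lt_one (p := p))
  have hpow : ∀ {i j : ℕ}, i ≤ j → qr p ^ j ≤ qr p ^ i := fun hij =>
    pow_le_pow_of_le_one qr_pos.le qr_lt_one.le hij
  obtain ⟨L, hLdef⟩ : ∃ L, L = L0 + k := ⟨_, rfl⟩
  have hL1 : qr p ^ L * d < min 1 ‖(m : ℚ_[p])‖ := by
    rw [lt_div_iff₀ hdp] at hL0
    exact lt_of_le_of_lt (mul_le_mul_of_nonneg_right (hpow (by omega)) hdp.le) hL0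
  have hL2 : qr p ^ L ≤ qr p ^ k := hpow (by omega)
  have hqn : ‖(p : ℚ_[p]) ^ L‖ = qr p ^ L := by
    rw [norm_pow, Padic.norm_p]
    rfl
  have hpne : (p : ℚ_[p]) ≠ 0 := by exact_mod_cast (Fact.out : p.Prime).ne_zero
  have hq0 : (p : ℚ_[p]) ^ L ≠ 0 := pow_ne_zero _ hpne
  have hq1 : ‖(p : ℚ_[p]) ^ L‖ * d < 1 := by rw [hqn]; exact hL1.trans_le (min_le_left _ _)
  have hqm : ‖(p : ℚ_[p]) ^ L‖ * d < ‖(m : ℚ_[p])‖ := by
    rw [hqn]; exact hL1.trans_le (min_le_right _ _)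
  obtain ⟨N0, hN0⟩ := exists_pow_lt_of_lt_one
    (show (0 : ℝ) < ‖(m : ℚ_[p])‖ * d * qr p ^ L from mul_pos (mul_pos hmp hdp)
      (pow_pos qr_pos L)) (qr_lt_one (p := p))
  refine ⟨N0 + 1, fun v hv1 H hHm hHb => ?_⟩
  have hv2 : ‖v - 1‖ ≤ qr p ^ (N0 + 1) := hv1
  have hv3 : ‖v - 1‖ ≤ ‖(m : ℚ_[p])‖ * d * qr p ^ L :=
    hv2.trans ((hpow (Nat.le_succ N0)).trans hN0.le)
  have hv4 : ‖v‖ = 1 := by
    refine norm_near_one (ρ := qr p ^ (N0 + 1)) ?_ hv2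
    exact pow_lt_one₀ qr_pos.le qr_lt_one (by omega)
  have hHb' : ∃ B : ℝ, ∀ z, ‖H (v * z)‖ ≤ B := by
    obtain ⟨B, hB⟩ := hHb
    exact ⟨B, fun z => hB _⟩
  have hHm' : Measurable (fun z => H (v * z)) := hHm.comp (measurable_const_mul v)
  -- the invariance under the shears
  have hti : ∀ t : ℤ_[p], ‖inc p t‖ ≤ 1 := fun t => PadicInt.norm_le_one t
  have hqt : ∀ t : ℤ_[p], ‖(p : ℚ_[p]) ^ L * inc p t‖ ≤ ‖(p : ℚ_[p]) ^ L‖ := by
    intro t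
    rw [norm_mul]
    exact mul_le_of_le_one_right (norm_nonneg _) (hti t)
  have hinv : ∀ (F : CI p), Okx F → ∀ t : ℤ_[p],
      Zx (fun s x => F s (tw h ((p : ℚ_[p]) ^ L * inc p t) x)) C 0 = Zx F C 0 := by
    intro F hF t
    refine set_inv h ε d hv 1 hB _ ?_ C hC k hk2 ?_ hCU F hF
    · exact lt_of_le_of_lt (mul_le_mul_of_nonneg_right (hqt t) hdp.le) hq1
    · rw [mul_one]
      exact (hqt t).trans (by rw [hqn]; exact hL2)
  have hF1 := okx_Hh (fun z => H (v * z)) hHm' hHb' (h ^ m * κ) a n 0 1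
  have hF2 := okx_Hh H hHm hHb (h ^ m * κ) a n 0 1
  rw [avg h ((p : ℚ_[p]) ^ L) C hC _ hF1 (hinv _ hF1),
    avg h ((p : ℚ_[p]) ^ L) C hC _ hF2 (hinv _ hF2)]
  refine setIntegral_congr_fun hC.meas fun x hx => ?_
  -- the inner integrals
  have hxU := hCU hx
  rw [Set.mem_prod, Metric.mem_ball, Metric.mem_ball, dist_zero_right, dist_zero_right] at hxU
  have hxt : ∀ t : ℤ_[p], ‖x.2 + (p : ℚ_[p]) ^ L * inc p t * ev x h‖ < ε := by
    intro t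
    have h1 : (x.1, x.2 + (p : ℚ_[p]) ^ L * inc p t * ev x h) ∈ bx 0 x k := by
      rw [mem_bx]
      refine ⟨?_, ?_⟩
      · change ‖x.1 - x.1‖ ≤ _
        rw [sub_self, norm_zero]
        exact pow_nonneg qr_pos.le _
      · change ‖x.2 + (p : ℚ_[p]) ^ L * inc p t * ev x h - x.2‖ ≤ _
        rw [add_sub_cancel_left, norm_mul]
        refine le_trans (mul_le_of_le_one_right (norm_nonneg _) (hB x.1 x.2 hxU.1 hxU.2)) ?_
        exact (hqt t).trans (by rw [hqn]; exact hL2)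
    have h2 := hCU (hk2 x hx h1)
    rw [Set.mem_prod, Metric.mem_ball, Metric.mem_ball, dist_zero_right, dist_zero_right] at h2
    exact h2.2
  have hG := G_norm h κ m hm ε d M hdp hv hk _ hrp hκ hM ((p : ℚ_[p]) ^ L) hq0 hq1 hqm x
    hxU.1 hxU.2 hxt
  have hw : ∀ (K : ℚ_[p] → ℂ) (t : ℤ_[p]),
      Hh K (h ^ m * κ) a n 0 1 0 (tw h ((p : ℚ_[p]) ^ L * inc p t) x) =
      K (x.1 ^ a * ev (tw h ((p : ℚ_[p]) ^ L * inc p t) x) (h ^ m * κ)) * nx x.1 ^ (n - 1) := by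
    intro K t
    unfold Hh
    rw [pow_zero, mul_one, Nat.sub_self, pow_zero, mul_one]
    rfl
  have hzero : tw h ((p : ℚ_[p]) ^ L * inc p 0) x = x := by
    have : inc p 0 = 0 := by simp [inc]
    unfold tw
    rw [this, mul_zero, zero_mul, add_zero]
  set G : ℤ_[p] → ℚ_[p] := fun t =>
    x.1 ^ a * ev (tw h ((p : ℚ_[p]) ^ L * inc p t) x) (h ^ m * κ) with hGdef
  have hG0 : G 0 = x.1 ^ a * ev x (h ^ m * κ) := by
    rw [hGdef]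
    change x.1 ^ a * ev (tw h ((p : ℚ_[p]) ^ L * inc p 0) x) (h ^ m * κ) = _
    rw [hzero]
  set c : ℚ_[p] := (m : ℚ_[p]) * constantCoeff (pderiv 1 h) * (p : ℚ_[p]) ^ L * G 0 with hcdef
  have hcn : ‖c‖ = ‖(m : ℚ_[p])‖ * d * ‖(p : ℚ_[p]) ^ L‖ * ‖G 0‖ := by
    rw [hcdef, norm_mul, norm_mul, norm_mul]
  have hGG : ∀ t t', ‖G t - G t'‖ = ‖c‖ * ‖t - t'‖ := by
    intro t t'
    have h1 : G t - G t' = x.1 ^ a * (ev (tw h ((p : ℚ_[p]) ^ L * inc p t) x) (h ^ m * κ) -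
        ev (tw h ((p : ℚ_[p]) ^ L * inc p t') x) (h ^ m * κ)) := by
      rw [hGdef]
      ring
    rw [h1, norm_mul, hG, hcn, hG0, norm_mul]
    ring
  have hmain : ∫ t, H (v * G t) ∂(mu p) = ∫ t, H (G t) ∂(mu p) := by
    by_cases hc : c = 0
    · have hg0 : G 0 = 0 := by
        rw [hcdef] at hc
        rcases mul_eq_zero.1 hc with h1 | h1
        · exact absurd h1 (mul_ne_zero (mul_ne_zero (Nat.cast_ne_zero.2 (by omega)) hh1) hq0)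
        · exact h1
      have hgt : ∀ t, G t = 0 := by
        intro t
        have h1 := hGG t 0
        rw [hc, norm_zero, zero_mul, norm_eq_zero, sub_eq_zero, hg0] at h1
        exact h1
      simp only [hgt, mul_zero]
    · refine h0 p G c hc hGG v hv4 ?_ H hHm hHb
      rw [hcn, hqn]
      exact mul_le_mul_of_nonneg_right hv3 (norm_nonneg _)
  change ∫ t, Hh (fun z => H (v * z)) (h ^ m * κ) a n 0 1 0
      (tw h ((p : ℚ_[p]) ^ L * inc p t) x) ∂(mu p) =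
    ∫ t, Hh H (h ^ m * κ) a n 0 1 0 (tw h ((p : ℚ_[p]) ^ L * inc p t) x) ∂(mu p)
  simp only [hw]
  rw [integral_mul_const, integral_mul_const]
  congr 1

theorem CO_swap {C : Set (ℚ_[p] × ℚ_[p])} (hC : CO C) : CO (Prod.swap ⁻¹' C) := by
  refine ⟨?_, hC.opn.preimage continuous_swap⟩
  rw [← Set.image_swap_eq_preimage_swap]
  exact hC.cpt.image continuous_swap

theorem linv_swap (g : A ℚ_[p]) (a0 n0 a1 n1 : ℕ) (h : LInv (sw g) a1 n1 a0 n0 (0, 0)) :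
    LInv g a0 n0 a1 n1 (0, 0) := by
  obtain ⟨U, hU, h0, h1⟩ := h
  refine ⟨Prod.swap ⁻¹' U, hU.preimage continuous_swap, h0, fun C hC hCU => ?_⟩
  obtain ⟨N, hN⟩ := h1 (Prod.swap ⁻¹' C) (CO_swap hC) (fun x hx => by
    have h2 := hCU hx
    simpa using h2)
  refine ⟨N, fun v hv H hm hb => ?_⟩
  have h3 := hN v hv H hm hb
  have e : ∀ H : ℚ_[p] → ℂ, (fun (s : ℝ) (x : ℚ_[p] × ℚ_[p]) => Hh H g a0 n0 a1 n1 s x.swap) =
      Hh H (sw g) a1 n1 a0 n0 := by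
    intro H
    funext s x
    unfold Hh
    rw [ev_sw]
    simp only [Prod.fst_swap, Prod.snd_swap]
    rw [mul_comm (x.2 ^ a0), mul_comm (nx x.2 ^ (n0 - 1))]
  rw [Zx_swap _ C hC, Zx_swap _ C hC, e, e]
  exact h3

/-- Job C2 -/
theorem t (h0 : StC0) : StC2 := by
  intro p _ h κ m a n hm hn hh hκ
  refine ⟨fun hh1 => main1 h0 h κ m a n hm hn hh hκ hh1, fun hh1 => ?_⟩
  refine linv_swap _ _ _ _ _ ?_
  rw [map_mul, map_pow]
  refine main1 h0 (sw h) (sw κ) m a n hm hn ?_ ?_ ?_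
  · rw [cc_sw, hh]
  · rw [cc_sw]; exact hκ
  · rw [pderiv_sw, cc_sw]; exact hh1

end Pool.Agent.N138.SV.C2
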