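import Pool.Agent.N138.SV.Stm

set_option autoImplicit false
set_option linter.unusedSectionVars false

/-! # Invariance of the distribution of a polynomial in two variables near a zero (job C3) -/

namespace Pool.Agent.N138.SV.C3

open MeasureTheory Set Pool.Agent.W427.SMC Pool.Agent.Y230.PT Pool.Agent.Y230.RE
open Pool.Agent.N138.SU

variable {p : ℕ} [Fact p.Prime]

attribute [local instance] msK bsK

/-- families of integrands -/
abbrev Fam (p : ℕ) [Fact p.Prime] := (ℚ_[p] → ℂ) → CI p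

/-- bounded measurable functions -/
def BM (h : ℚ_[p] → ℂ) : Prop := Measurable h ∧ ∃ B : ℝ, ∀ z, ‖h z‖ ≤ B

theorem BM.scale {h : ℚ_[p] → ℂ} (hh : BM h) (v : ℚ_[p]) : BM (fun z => h (v * z)) :=
  ⟨hh.1.comp (continuous_const.mul continuous_id).measurable, hh.2.imp fun _ hB _ => hB _⟩

/-- the family is invariant on `C` -/
def Inv (F : Fam p) (C : Set (ℚ_[p] × ℚ_[p])) : Prop :=
  ∃ N : ℕ, ∀ v : ℚ_[p], ‖v - 1‖ ≤ ((p : ℝ)⁻¹) ^ N → ∀ h : ℚ_[p] → ℂ, Measurable h →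
    (∃ B : ℝ, ∀ z, ‖h z‖ ≤ B) → Zx (F (fun z => h (v * z))) C 0 = Zx (F h) C 0

/-- the family is invariant near `x` -/
def LI (F : Fam p) (x : ℚ_[p] × ℚ_[p]) : Prop :=
  ∃ U, IsOpen U ∧ x ∈ U ∧ ∀ C : Set (ℚ_[p] × ℚ_[p]), CO C → C ⊆ U → Inv F C

/-- good families -/
def OkF (F : Fam p) : Prop := ∀ h, BM h → Okx (F h)

theorem Inv.empty (F : Fam p) : Inv F ∅ := ⟨0, fun v _ h _ _ => by rw [Zx_empty, Zx_empty]⟩

theorem Inv.sum {F F1 F2 : Fam p} {C C1 C2 : Set (ℚ_[p] × ℚ_[p])}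
    (hs : ∀ h, BM h → Zx (F h) C 0 = Zx (F1 h) C1 0 + Zx (F2 h) C2 0) (h1 : Inv F1 C1)
    (h2 : Inv F2 C2) : Inv F C := by
  obtain ⟨N, hN⟩ := h1
  obtain ⟨M, hM⟩ := h2
  have hp0 : (0 : ℝ) ≤ (p : ℝ)⁻¹ := by positivity
  have hp1 : (p : ℝ)⁻¹ ≤ 1 := by
    refine inv_le_one_of_one_le₀ ?_
    exact_mod_cast (Fact.out : p.Prime).one_lt.le
  refine ⟨max N M, fun v hv h hm hb => ?_⟩
  have hv1 : ‖v - 1‖ ≤ ((p : ℝ)⁻¹) ^ N :=
    hv.trans (pow_le_pow_of_le_one hp0 hp1 (le_max_left _ _))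
  have hv2 : ‖v - 1‖ ≤ ((p : ℝ)⁻¹) ^ M :=
    hv.trans (pow_le_pow_of_le_one hp0 hp1 (le_max_right _ _))
  rw [hs _ (BM.scale ⟨hm, hb⟩ v), hs h ⟨hm, hb⟩, hN v hv1 h hm hb, hM v hv2 h hm hb]

theorem LI.glue {F : Fam p} (hF : OkF F) {C : Set (ℚ_[p] × ℚ_[p])} (hC : CO C)
    (h : ∀ x ∈ C, LI F x) : Inv F C := by
  refine ball_ind 0 (fun C => Inv F C) (Inv.empty F) ?_ C hC ?_
  · intro A B hA hB hd h1 h2
    exact Inv.sum (fun h hh => Zx_union (hF h hh) hA hB hd le_rfl) h1 h2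
  · intro x hx
    obtain ⟨U, hU, hxU, hU2⟩ := h x hx
    exact ⟨U, hU, hxU, fun y k hy => hU2 _ (CO_bx 0 y k) hy⟩

theorem LI.congr {F G : Fam p} {x : ℚ_[p] × ℚ_[p]} (hF : LI F x) {V : Set (ℚ_[p] × ℚ_[p])}
    (hV : IsOpen V) (hxV : x ∈ V) (c : ℂ)
    (h : ∀ C, CO C → C ⊆ V → ∀ h, BM h → Zx (G h) C 0 = c * Zx (F h) C 0) : LI G x := by
  obtain ⟨U, hU, hxU, hU2⟩ := hF
  refine ⟨U ∩ V, hU.inter hV, ⟨hxU, hxV⟩, fun C hC hCU => ?_⟩
  obtain ⟨N, hN⟩ := hU2 C hC (hCU.trans Set.inter_subset_left)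
  refine ⟨N, fun v hv k hm hb => ?_⟩
  have hCV := hCU.trans Set.inter_subset_right
  rw [h C hC hCV _ (BM.scale ⟨hm, hb⟩ v), h C hC hCV k ⟨hm, hb⟩, hN v hv k hm hb]

theorem LI.homeo {F G : Fam p} (τ : (ℚ_[p] × ℚ_[p]) ≃ₜ (ℚ_[p] × ℚ_[p]))
    (h : ∀ C, CO C → ∀ h, Zx (F h) C 0 = Zx (G h) (τ ⁻¹' C) 0) {x : ℚ_[p] × ℚ_[p]}
    (hG : LI G x) : LI F (τ x) := by
  obtain ⟨U, hU, hxU, hU2⟩ := hG
  refine ⟨τ.symm ⁻¹' U, hU.preimage τ.symm.continuous, by simpa using hxU, fun C hC hCU => ?_⟩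
  obtain ⟨N, hN⟩ := hU2 (τ ⁻¹' C) ⟨τ.isCompact_preimage.2 hC.cpt, hC.opn.preimage τ.continuous⟩ (by
    intro y hy
    have := hCU hy
    simpa using this)
  exact ⟨N, fun v hv k hm hb => by rw [h C hC, h C hC, hN v hv k hm hb]⟩

/-- **Gluing at a blow-up.** -/
theorem LI.blow {F F1 F2 : Fam p} (h1 : OkF F1)
    (hF : ∀ L C, CO C → ∀ h, BM h → Zx (F h) C 0 = Zx (F1 h) (S1 L C) 0 + Zx (F2 h) (S2 L C) 0)
    (hc : ∀ c : ℚ_[p], LI F1 (0, c)) (hI : LI F2 (0, 0)) : LI F (0, 0) := by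
  obtain ⟨UI, hUI, h0I, hI2⟩ := hI
  obtain ⟨ε, hε, hε2⟩ := Metric.isOpen_iff.1 hUI _ h0I
  obtain ⟨L, hL⟩ := exists_pow_lt_of_lt_one hε (qr_lt_one (p := p))
  have hq : 0 < qr p ^ L := pow_pos qr_pos L
  choose U hUo hUx hU2 using hc
  have hsub : ({0} : Set ℚ_[p]) ×ˢ Metric.closedBall (0 : ℚ_[p]) ((qr p ^ L)⁻¹) ⊆ ⋃ c, U c := by
    rintro ⟨x1, x2⟩ ⟨hx1, _⟩
    rw [Set.mem_singleton_iff] at hx1
    change x1 = 0 at hx1
    subst hx1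
    exact Set.mem_iUnion.2 ⟨x2, hUx x2⟩
  obtain ⟨u, v, huo, hvo, hu, hv, huv⟩ := generalized_tube_lemma (isCompact_singleton)
    (isCompact_closedBall (0 : ℚ_[p]) ((qr p ^ L)⁻¹)) (isOpen_iUnion hUo) hsub
  refine ⟨(u ∩ Metric.ball 0 (qr p ^ L)) ×ˢ Metric.ball 0 (qr p ^ L),
    (huo.inter Metric.isOpen_ball).prod Metric.isOpen_ball,
    ⟨⟨hu (Set.mem_singleton _), Metric.mem_ball_self hq⟩, Metric.mem_ball_self hq⟩,
    fun C hC hCU => ?_⟩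
  have e1 : Inv F1 (S1 L C) := by
    refine LI.glue h1 (CO_S1 L hC) fun x hx => ?_
    obtain ⟨hx1, hx2⟩ := hx
    have h3 : x ∈ u ×ˢ v := by
      refine ⟨(hCU hx2).1.1, hv ?_⟩
      rw [Set.mem_ofPred_eq, ← le_div_iff₀ hq, one_div] at hx1
      rw [Metric.mem_closedBall, dist_zero_right]
      exact hx1
    obtain ⟨c, hcx⟩ := Set.mem_iUnion.1 (huv h3)
    exact ⟨U c, hUo c, hcx, hU2 c⟩
  have e2 : Inv F2 (S2 L C) := by
    refine hI2 _ (CO_S2 L hC) fun x hx => hε2 ?_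
    obtain ⟨hx1, hx2⟩ := hx
    have h3 := (hCU hx2).2
    rw [Metric.mem_ball, dist_zero_right] at h3
    change ‖x.2‖ < qr p ^ L at h3
    change ‖x.1‖ < qr p ^ L at hx1
    rw [Metric.mem_ball, Prod.dist_eq]
    simp only [dist_zero_right]
    exact max_lt (hx1.trans hL) (h3.trans hL)
  exact Inv.sum (hF L C hC) e1 e2

/-! ### The integrands -/

theorem okx_Hh {h : ℚ_[p] → ℂ} (hh : BM h) (g : A ℚ_[p]) (a0 n0 a1 n1 : ℕ) :
    Okx (Hh h g a0 n0 a1 n1) := by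
  have h1 : Okx (fun (_ : ℝ) (x : ℚ_[p] × ℚ_[p]) => h (x.1 ^ a0 * x.2 ^ a1 * ev x g)) := by
    intro s _
    have hc : Continuous fun x : ℚ_[p] × ℚ_[p] => x.1 ^ a0 * x.2 ^ a1 * ev x g :=
      ((continuous_fst.pow a0).mul (continuous_snd.pow a1)).mul (ev_cont g)
    obtain ⟨B, hB⟩ := hh.2
    exact ⟨hh.1.comp hc.measurable, fun C _ => ⟨B, fun x _ => hB _⟩⟩
  exact h1.mul (((okx_nx (fun x => x.1) continuous_fst).pow (n0 - 1)).mul
    ((okx_nx (fun x => x.2) continuous_snd).pow (n1 - 1)))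

theorem Hh_c1 (h : ℚ_[p] → ℂ) (g g0 : A ℚ_[p]) (m : ℕ)
    (hg : MvPolynomial.aeval (ch 0) g = MvPolynomial.X 0 ^ m * g0)
    (a0 n0 a1 n1 : ℕ) (hn0 : 1 ≤ n0) (hn1 : 1 ≤ n1) :
    G1 (Hh h g a0 n0 a1 n1) = Hh h g0 (a0 + a1 + m) (n0 + n1) a1 n1 := by
  funext s x
  have h1 : ev (c1 x) g = x.1 ^ m * ev x g0 := ev_c1 x g g0 m hg
  change nx x.1 * (h (x.1 ^ a0 * (x.1 * x.2) ^ a1 * ev (c1 x) g) *
    (nx x.1 ^ (n0 - 1) * nx (x.1 * x.2) ^ (n1 - 1))) =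
    h (x.1 ^ (a0 + a1 + m) * x.2 ^ a1 * ev x g0) * (nx x.1 ^ (n0 + n1 - 1) * nx x.2 ^ (n1 - 1))
  have e : x.1 ^ a0 * (x.1 * x.2) ^ a1 * ev (c1 x) g =
      x.1 ^ (a0 + a1 + m) * x.2 ^ a1 * ev x g0 := by
    rw [h1]
    ring
  rw [e, nx_mul]
  obtain ⟨k, rfl⟩ : ∃ k, n0 = k + 1 := ⟨n0 - 1, by omega⟩
  obtain ⟨l, rfl⟩ : ∃ l, n1 = l + 1 := ⟨n1 - 1, by omega⟩
  have e2 : k + 1 + (l + 1) - 1 = k + l + 1 := by omega
  rw [e2, Nat.add_sub_cancel, Nat.add_sub_cancel]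
  ring

theorem Hh_c2 (h : ℚ_[p] → ℂ) (g gI : A ℚ_[p]) (m : ℕ)
    (hg : MvPolynomial.aeval chI g = MvPolynomial.X 1 ^ m * gI)
    (a0 n0 a1 n1 : ℕ) (hn0 : 1 ≤ n0) (hn1 : 1 ≤ n1) :
    G2 (Hh h g a0 n0 a1 n1) = Hh h gI a0 n0 (a0 + a1 + m) (n0 + n1) := by
  funext s x
  have h1 : ev (c2 x) g = x.2 ^ m * ev x gI := ev_c2 x g gI m hg
  change nx x.2 * (h ((x.1 * x.2) ^ a0 * x.2 ^ a1 * ev (c2 x) g) *
    (nx (x.1 * x.2) ^ (n0 - 1) * nx x.2 ^ (n1 - 1))) =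
    h (x.1 ^ a0 * x.2 ^ (a0 + a1 + m) * ev x gI) * (nx x.1 ^ (n0 - 1) * nx x.2 ^ (n0 + n1 - 1))
  have e : (x.1 * x.2) ^ a0 * x.2 ^ a1 * ev (c2 x) g =
      x.1 ^ a0 * x.2 ^ (a0 + a1 + m) * ev x gI := by
    rw [h1]
    ring
  rw [e, nx_mul]
  obtain ⟨k, rfl⟩ : ∃ k, n0 = k + 1 := ⟨n0 - 1, by omega⟩
  obtain ⟨l, rfl⟩ : ∃ l, n1 = l + 1 := ⟨n1 - 1, by omega⟩
  have e2 : k + 1 + (l + 1) - 1 = k + l + 1 := by omega
  rw [e2, Nat.add_sub_cancel, Nat.add_sub_cancel]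
  ring

theorem Hh_shift (h : ℚ_[p] → ℂ) (g0 gc : A ℚ_[p]) (c : ℚ_[p])
    (hg : gc = MvPolynomial.aeval ![MvPolynomial.X 0, MvPolynomial.X 1 +
      MvPolynomial.C c] g0) (a n a1 n1 : ℕ) (s : ℝ) (x : ℚ_[p] × ℚ_[p])
    (hx : ‖c + x.2‖ = ‖c‖) :
    Hh h g0 a n a1 n1 s (x.1, c + x.2) = nx c ^ (n1 - 1) *
      Hh h ((MvPolynomial.X 1 + MvPolynomial.C c) ^ a1 * gc) a n 0 1 s x := by
  have h1 : ev (x.1, c + x.2) g0 = ev x gc := by rw [hg, ev_shift]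
  have h2 : nx (c + x.2) = nx c := by
    unfold nx
    rw [hx]
  have h3 : ev x ((MvPolynomial.X 1 + MvPolynomial.C c) ^ a1 * gc) = (c + x.2) ^ a1 * ev x gc := by
    rw [map_mul, map_pow, map_add, ev_X1, ev_C, add_comm]
  unfold Hh
  simp only
  rw [h1, h2, h3, pow_zero, mul_one, Nat.sub_self, pow_zero, mul_one]
  have e : x.1 ^ a * (c + x.2) ^ a1 * ev x gc = x.1 ^ a * ((c + x.2) ^ a1 * ev x gc) := by ring
  rw [e]
  ring

theorem cc_ch (c : ℚ_[p]) (W : A ℚ_[p]) :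
    MvPolynomial.constantCoeff (MvPolynomial.aeval (ch c) W) = MvPolynomial.constantCoeff W := by
  rw [← ev_zero, ← ev_zero, ev_aeval, ch0, ch1, map_mul, ev_X0, zero_mul]

theorem cc_chI (W : A ℚ_[p]) :
    MvPolynomial.constantCoeff (MvPolynomial.aeval (chI : Fin 2 → A ℚ_[p]) W) =
      MvPolynomial.constantCoeff W := by
  rw [← ev_zero, ← ev_zero, ev_aeval, chI0, chI1, map_mul, ev_X0, ev_X1, zero_mul]

/-- the induction -/
theorem main (h1 : StC1) (h2 : StC2) {g : Fin 1 → A ℚ_[p]} {d0 d1 : Bool} (hT : KT g d0 d1) :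
    ∀ W : A ℚ_[p], MvPolynomial.constantCoeff W ≠ 0 → ∀ a0 n0 a1 n1 : ℕ, 1 ≤ n0 → 1 ≤ n1 →
    (d0 = false → a0 = 0 ∧ n0 = 1) → (d1 = false → a1 = 0 ∧ n1 = 1) → (d0 = true → 1 ≤ a0) →
    (d1 = true → 1 ≤ a1) →
    (d0 = false → d1 = false → MvPolynomial.constantCoeff (g 0) = 0) →
    LInv (W * g 0) a0 n0 a1 n1 (0, 0) := by
  induction hT with
  | unit g d0 d1 j hj =>
    intro W hW a0 n0 a1 n1 hn0 hn1 h0f h1f h0t h1t hc
    have hj0 := hj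
    rw [Subsingleton.elim j 0] at hj0
    refine h1 p (W * g 0) a0 n0 a1 n1 (by rw [map_mul]; exact mul_ne_zero hW hj0) hn0 hn1 ?_
    cases d0
    · cases d1
      · exact absurd (hc rfl rfl) hj0
      · exact Or.inr (h1t rfl)
    · exact Or.inl (h0t rfl)
  | curveV g d0 m hm h κ hg h0 hh1 j hj =>
    intro W hW a0 n0 a1 n1 hn0 hn1 h0f h1f h0t h1t hc
    have hj0 := hj
    rw [Subsingleton.elim j 0] at hj0
    obtain ⟨rfl, rfl⟩ := h1f rfl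
    have h3 := (h2 p h (W * κ 0) m a0 n0 hm hn0 h0
      (by rw [map_mul]; exact mul_ne_zero hW hj0)).1 hh1
    have e : W * g 0 = h ^ m * (W * κ 0) := by
      rw [hg]
      ring
    rw [e]
    exact h3
  | curveU g d1 m hm h κ hg h0 hh1 j hj =>
    intro W hW a0 n0 a1 n1 hn0 hn1 h0f h1f h0t h1t hc
    have hj0 := hj
    rw [Subsingleton.elim j 0] at hj0
    obtain ⟨rfl, rfl⟩ := h0f rfl
    have h3 := (h2 p h (W * κ 0) m a1 n1 hm hn1 h0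
      (by rw [map_mul]; exact mul_ne_zero hW hj0)).2 hh1
    have e : W * g 0 = h ^ m * (W * κ 0) := by
      rw [hg]
      ring
    rw [e]
    exact h3
  | blowup g d0 d1 m hm gc gI hgc hgI hne h0 hcc hI ih0 ihc ihI =>
    intro W hW a0 n0 a1 n1 hn0 hn1 h0f h1f h0t h1t hc
    have hW0 : ∀ c, MvPolynomial.aeval (ch c) (W * g 0) =
        MvPolynomial.X 0 ^ m * (MvPolynomial.aeval (ch c) W * gc c 0) := by
      intro c
      rw [map_mul, hgc]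
      ring
    have hWI : MvPolynomial.aeval chI (W * g 0) =
        MvPolynomial.X 1 ^ m * (MvPolynomial.aeval chI W * gI 0) := by
      rw [map_mul, hgI]
      ring
    have e1 : (fun h => G1 (Hh h (W * g 0) a0 n0 a1 n1)) =
        fun h => Hh h (MvPolynomial.aeval (ch 0) W * gc 0 0) (a0 + a1 + m) (n0 + n1) a1 n1 := by
      funext h
      exact Hh_c1 h _ _ m (hW0 0) a0 n0 a1 n1 hn0 hn1
    have e2 : (fun h => G2 (Hh h (W * g 0) a0 n0 a1 n1)) =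
        fun h => Hh h (MvPolynomial.aeval chI W * gI 0) a0 n0 (a0 + a1 + m) (n0 + n1) := by
      funext h
      exact Hh_c2 h _ _ m hWI a0 n0 a1 n1 hn0 hn1
    change LI (fun h => Hh h (W * g 0) a0 n0 a1 n1) (0, 0)
    refine LI.blow (F1 := fun h => G1 (Hh h (W * g 0) a0 n0 a1 n1))
      (F2 := fun h => G2 (Hh h (W * g 0) a0 n0 a1 n1)) (fun h hh => (okx_Hh hh _ _ _ _ _).G1)
      (fun L C hC h hh => Zx_blow L (okx_Hh hh _ _ _ _ _) hC le_rfl) (fun c => ?_) ?_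
    · rw [e1]
      by_cases hc0 : c = 0
      · subst hc0
        exact ih0 (MvPolynomial.aeval (ch 0) W) (by rw [cc_ch]; exact hW) (a0 + a1 + m) (n0 + n1)
          a1 n1 (by omega) hn1 (by simp) h1f (fun _ => by omega) h1t (by simp)
      · have hIH := ihc c hc0 ((MvPolynomial.X 1 + MvPolynomial.C c) ^ a1 *
          MvPolynomial.aeval (ch c) W) (by
            rw [map_mul, map_pow, cc_ch, map_add, MvPolynomial.constantCoeff_X, zero_add,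
              MvPolynomial.constantCoeff_C]
            exact mul_ne_zero (pow_ne_zero _ hc0) hW)
          (a0 + a1 + m) (n0 + n1) 0 1 (by omega) le_rfl (by simp) (fun _ => ⟨rfl, rfl⟩)
          (fun _ => by omega) (by simp) (by simp)
        rw [mul_assoc] at hIH
        have hV : IsOpen {x : ℚ_[p] × ℚ_[p] | ‖x.2‖ < ‖c‖} :=
          isOpen_lt (by fun_prop) (by fun_prop)
        have h3 : LI (fun h => fun s x => Hh h (MvPolynomial.aeval (ch 0) W * gc 0 0)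
            (a0 + a1 + m) (n0 + n1) a1 n1 s (x.1, c + x.2)) (0, 0) := by
          refine LI.congr (F := fun h => Hh h ((MvPolynomial.X 1 + MvPolynomial.C c) ^ a1 *
            (MvPolynomial.aeval (ch c) W * gc c 0)) (a0 + a1 + m) (n0 + n1) 0 1) hIH hV
            (by simpa using hc0) (nx c ^ (n1 - 1)) fun C hC hCV h hh => ?_
          refine Zx_mul _ _ C 0 _ hC fun x hx => ?_
          refine Hh_shift h _ _ c (ch_shift (hW0 0) (hW0 c)) _ _ _ _ 0 x ?_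
          have hx2 : ‖x.2‖ < ‖c‖ := hCV hx
          rw [Padic.add_eq_max_of_ne hx2.ne', max_eq_left hx2.le]
        have h4 := LI.homeo (F := fun h => Hh h (MvPolynomial.aeval (ch 0) W * gc 0 0)
            (a0 + a1 + m) (n0 + n1) a1 n1) (shV (fun _ => c) continuous_const)
          (fun C hC h => Zx_shearV _ (fun _ => c) continuous_const hC 0) h3
        have h5 : (shV (fun _ : ℚ_[p] => c) continuous_const) ((0, 0) : ℚ_[p] × ℚ_[p]) =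
            (0, c) := by
          change ((0 : ℚ_[p]), c + 0) = (0, c)
          rw [add_zero]
        rwa [h5] at h4
    · rw [e2]
      exact ihI (MvPolynomial.aeval chI W) (by rw [cc_chI]; exact hW) a0 n0 (a0 + a1 + m) (n0 + n1)
        hn0 (by omega) h0f (by simp) h0t (fun _ => by omega) (by simp)

/-- **C3.** -/
theorem t (h1 : StC1) (h2 : StC2) : StC3 := by
  intro p _ g hg hc
  have hT := exists_KT (fun _ : Fin 1 => g) false false ⟨0, hg⟩ (by simp) (by simp)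
  have h3 := main h1 h2 hT 1 (by simp) 0 1 0 1 le_rfl le_rfl (fun _ => ⟨rfl, rfl⟩)
    (fun _ => ⟨rfl, rfl⟩) (by simp) (by simp) (fun _ _ => hc)
  rwa [one_mul] at h3

end Pool.Agent.N138.SV.C3
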