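import Pool.Agent.N138.SV.Stm
import Pool.Agent.N138.SU.Ix
import Pool.Agent.Y230.PT.Node

set_option autoImplicit false
set_option linter.unusedSectionVars false
set_option linter.unusedVariables false

/-! # Plane curves on small balls -/

namespace Pool.Agent.N138.SV.C4

open MvPolynomial MeasureTheory Set
open Pool.Agent.W427.SMC (msZ bsZ mu)
open Pool.Agent.Y230.PT
open Pool.Agent.Y230.RE (A)
open Pool.Agent.N138.SU

attribute [local instance] msK bsK msZ bsZ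

variable {p : ℕ} [Fact p.Prime]

theorem map_ball0 : Measure.map (inc p) (mu p) = (Y230.PT.nu p).restrict (bl 0 0) := by
  rw [← comap_eq, (inc_meas p).map_comap, inc_range]
  unfold bl
  rw [pow_zero]

theorem map_box0 : Measure.map (fun x : Fin 2 → ℤ_[p] => (inc p (x 0), inc p (x 1)))
    (Measure.pi fun _ : Fin 2 => mu p) = (nu2 p).restrict (bx 0 (0, 0) 0) := by
  have hi : Measurable (inc p) := (inc_emb p).continuous.measurable
  have hmp := measurePreserving_finTwoArrow (mu p)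
  have h1 : Measure.map (Prod.map (inc p) (inc p)) ((mu p).prod (mu p)) =
      (nu2 p).restrict (bx 0 (0, 0) 0) := by
    rw [← Measure.map_prod_map _ _ hi hi, map_ball0, Measure.prod_restrict]
    rfl
  rw [← h1, ← hmp.map_eq, Measure.map_map (hi.prodMap hi) hmp.measurable]
  rfl

theorem CO_swap {C : Set (ℚ_[p] × ℚ_[p])} (hC : CO C) : CO (Prod.swap ⁻¹' C) := by
  refine ⟨?_, hC.opn.preimage continuous_swap⟩
  rw [← Set.image_swap_eq_preimage_swap]
  exact hC.cpt.image continuous_swap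

theorem CO_pre {C : Set (ℚ_[p] × ℚ_[p])} (hC : CO C)
    (τ : (ℚ_[p] × ℚ_[p]) ≃ₜ (ℚ_[p] × ℚ_[p])) : CO (τ ⁻¹' C) :=
  ⟨τ.isCompact_preimage.2 hC.cpt, hC.opn.preimage τ.continuous⟩

/-- the dilations -/
theorem scale_Zx (F : CI p) (α : ℚ_[p]) (hα : α ≠ 0) (C : Set (ℚ_[p] × ℚ_[p])) (hC : CO C)
    (s : ℝ) : Zx F C s = ((N p 1 α).toReal : ℂ) * (((N p 1 α).toReal : ℂ) *
      Zx (fun s x => F s (α * x.1, α * x.2)) {x | (α * x.1, α * x.2) ∈ C} s) := by
  have h1 := CO_pre hC (shU α hα (fun _ => 0) continuous_const)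
  have h2 := CO_swap h1
  have h3 := CO_pre h2 (shU α hα (fun _ => 0) continuous_const)
  rw [Zx_shearU F α hα (fun _ => 0) continuous_const hC s, Zx_swap _ _ h1 s,
    Zx_shearU _ α hα (fun _ => 0) continuous_const h2 s, Zx_swap _ _ h3 s]
  congr 2
  have e1 : (Prod.swap ⁻¹' (⇑(shU α hα (fun _ => 0) continuous_const) ⁻¹'
      (Prod.swap ⁻¹' (⇑(shU α hα (fun _ => 0) continuous_const) ⁻¹' C)))) =
      {x : ℚ_[p] × ℚ_[p] | (α * x.1, α * x.2) ∈ C} := by
    ext x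
    change (0 + α * x.1, 0 + α * x.2) ∈ C ↔ (α * x.1, α * x.2) ∈ C
    rw [zero_add, zero_add]
  rw [e1]
  congr 1
  funext s x
  simp only [Prod.fst_swap, Prod.snd_swap, Prod.swap_prod_mk, zero_add]

/-- integrals over small balls -/
theorem ball_int (k : ℕ) : ∃ K : ℂ, K ≠ 0 ∧ ∀ F : CI p, Measurable (F 0) →
    Zx F (bx 0 (0, 0) k) 0 = K * ∫ y : Fin 2 → ℤ_[p],
      F 0 ((p : ℚ_[p]) ^ k * inc p (y 0), (p : ℚ_[p]) ^ k * inc p (y 1))
      ∂(Measure.pi fun _ => mu p) := by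
  have hp : (p : ℚ_[p]) ≠ 0 := by exact_mod_cast (Fact.out : p.Prime).ne_zero
  have hα : (p : ℚ_[p]) ^ k ≠ 0 := pow_ne_zero _ hp
  have hN : ((N p 1 ((p : ℚ_[p]) ^ k)).toReal : ℂ) ≠ 0 := by
    rw [N1_toNN]
    exact_mod_cast norm_ne_zero_iff.2 hα
  refine ⟨((N p 1 ((p : ℚ_[p]) ^ k)).toReal : ℂ) * ((N p 1 ((p : ℚ_[p]) ^ k)).toReal : ℂ),
    mul_ne_zero hN hN, fun F hF => ?_⟩
  have hset : {x : ℚ_[p] × ℚ_[p] | ((p : ℚ_[p]) ^ k * x.1, (p : ℚ_[p]) ^ k * x.2) ∈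
      bx 0 (0, 0) k} = bx 0 (0, 0) 0 := by
    have hq : 0 < qr p ^ k := pow_pos qr_pos k
    have hn : ∀ z : ℚ_[p], ‖(p : ℚ_[p]) ^ k * z - 0‖ ≤ qr p ^ k ↔ ‖z - 0‖ ≤ 1 := by
      intro z
      rw [sub_zero, sub_zero, norm_mul, norm_pow, Padic.norm_p]
      change qr p ^ k * ‖z‖ ≤ qr p ^ k ↔ _
      exact mul_le_iff_le_one_right hq
    ext x
    change ((p : ℚ_[p]) ^ k * x.1, (p : ℚ_[p]) ^ k * x.2) ∈ bx 0 (0, 0) k ↔ _
    rw [mem_bx, mem_bx]
    simp only [add_zero, pow_zero]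
    rw [hn, hn]
  have hm : Measurable (fun x : Fin 2 → ℤ_[p] => (inc p (x 0), inc p (x 1))) :=
    (((inc_emb p).continuous.measurable).comp (measurable_pi_apply 0)).prodMk
      (((inc_emb p).continuous.measurable).comp (measurable_pi_apply 1))
  have hs : Measurable (fun x : ℚ_[p] × ℚ_[p] =>
      F 0 ((p : ℚ_[p]) ^ k * x.1, (p : ℚ_[p]) ^ k * x.2)) :=
    hF.comp (by fun_prop : Continuous fun x : ℚ_[p] × ℚ_[p] =>
      (((p : ℚ_[p]) ^ k * x.1, (p : ℚ_[p]) ^ k * x.2) : ℚ_[p] × ℚ_[p])).measurable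
  rw [scale_Zx F _ hα _ (CO_bx 0 (0, 0) k) 0, hset, mul_assoc]
  congr 2
  unfold Zx
  rw [← map_box0, integral_map hm.aemeasurable hs.aestronglyMeasurable]

/-- Job C4 -/
theorem t (h3 : StC3) : StC4 := by
  intro p _ g φ hφ P
  have hinj : Function.Injective (inc p) := (inc_emb p).injective
  have hsub : ∀ a b : ℤ_[p], inc p (a - b) = inc p a - inc p b := by
    intro a b; simp [inc]
  have hmul : ∀ a b : ℤ_[p], inc p (a * b) = inc p a * inc p b := by
    intro a b; simp [inc]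
  have hadd : ∀ a b : ℤ_[p], inc p (a + b) = inc p a + inc p b := by
    intro a b; simp [inc]
  have hpow : ∀ k : ℕ, inc p ((p : ℤ_[p]) ^ k) = (p : ℚ_[p]) ^ k := by
    intro k; simp [inc]
  obtain ⟨g0, hg0⟩ : ∃ g0 : MvPolynomial (Fin 2) ℚ_[p],
      g0 = aeval (fun i => X i + C (inc p (P i))) g - C (inc p (φ P)) := ⟨_, rfl⟩
  have hev : ∀ z : Fin 2 → ℚ_[p], eval z g0 = eval (fun i => z i + inc p (P i)) g - inc p (φ P) := by
    intro z
    rw [hg0, map_sub, eval_C]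
    congr 1
    rw [aeval_def, eval_eval₂, ← MvPolynomial.eval₂_id]
    · congr 1
      · ext c
        simp
      · funext i
        simp
  have hval : ∀ (k : ℕ) (y : Fin 2 → ℤ_[p]),
      ev ((p : ℚ_[p]) ^ k * inc p (y 0), (p : ℚ_[p]) ^ k * inc p (y 1)) g0 =
      inc p (φ (fun i => P i + (p : ℤ_[p]) ^ k * y i) - φ P) := by
    intro k y
    unfold ev
    rw [hev, hsub, hφ (fun i => P i + (p : ℤ_[p]) ^ k * y i)]
    congr 2
    congr 1
    funext i
    rw [hadd, hmul, hpow]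
    fin_cases i
    · exact add_comm _ _
    · exact add_comm _ _
  by_cases h0 : g0 = 0
  · refine ⟨0, fun k _ => ⟨1, le_rfl, fun v _ h _ _ => ?_⟩⟩
    have h1 : ∀ y : Fin 2 → ℤ_[p], φ (fun i => P i + (p : ℤ_[p]) ^ k * y i) - φ P = 0 := by
      intro y
      apply hinj
      rw [← hval k y, h0, map_zero]
      simp [inc]
    simp only [h1, mul_zero]
  have hcc : constantCoeff g0 = 0 := by
    rw [← eval_zero, hev, hφ, sub_eq_zero]
    congr 1
    congr 1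
    funext i
    simp
  obtain ⟨U, hU, h0U, hN⟩ := h3 p g0 h0 hcc
  obtain ⟨ε, hε, hεU⟩ := Metric.isOpen_iff.1 hU _ h0U
  obtain ⟨k0, hk0⟩ := exists_pow_lt_of_lt_one hε (qr_lt_one (p := p))
  refine ⟨k0, fun k hk => ?_⟩
  have hbU : bx 0 (0, 0) k ⊆ U := by
    refine (bx_sub_ball 0 (0, 0) k).trans ((Metric.closedBall_subset_ball ?_).trans hεU)
    exact lt_of_le_of_lt (pow_le_pow_of_le_one qr_pos.le qr_lt_one.le hk) hk0
  obtain ⟨N, hN⟩ := hN _ (CO_bx 0 (0, 0) k) hbU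
  refine ⟨N + 1, by omega, fun v hv h hm hb => ?_⟩
  have hv' : ‖inc p v - 1‖ ≤ ((p : ℝ)⁻¹) ^ N := by
    have e : inc p v - 1 = inc p (v - 1) := by simp [inc]
    rw [e]
    change ‖v - 1‖ ≤ _
    refine hv.trans ?_
    change qr p ^ (N + 1) ≤ qr p ^ N
    exact pow_le_pow_of_le_one qr_pos.le qr_lt_one.le (Nat.le_succ N)
  obtain ⟨B, hB⟩ := hb
  -- the extension of `h`
  set H : ℚ_[p] → ℂ := Function.extend (inc p) h (fun _ => 0) with hH
  have hHm : Measurable H := (inc_meas p).measurable_extend hm measurable_const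
  have hHi : ∀ z : ℤ_[p], H (inc p z) = h z := fun z => hinj.extend_apply _ _ _
  have hHb : ∃ B : ℝ, ∀ z, ‖H z‖ ≤ B := by
    refine ⟨B, fun z => ?_⟩
    by_cases hz : ∃ a, inc p a = z
    · obtain ⟨a, rfl⟩ := hz
      rw [hHi]
      exact hB a
    · rw [hH, Function.extend_apply' _ _ _ hz, norm_zero]
      exact (norm_nonneg _).trans (hB 0)
  have h1 := hN (inc p v) hv' H hHm hHb
  obtain ⟨K, hK, hKF⟩ := ball_int (p := p) k
  have hmeas : ∀ L : ℚ_[p] → ℂ, Measurable L → Measurable (Hh L g0 0 1 0 1 0) := by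
    intro L hL
    have hc : Continuous (fun x : ℚ_[p] × ℚ_[p] => x.1 ^ 0 * x.2 ^ 0 * ev x g0) :=
      ((continuous_fst.pow 0).mul (continuous_snd.pow 0)).mul (ev_cont g0)
    exact (hL.comp hc.measurable).mul (((nx_meas.comp measurable_fst).pow_const _).mul
      ((nx_meas.comp measurable_snd).pow_const _))
  rw [hKF _ (hmeas (fun z => H (inc p v * z)) (hHm.comp (measurable_const_mul _))),
    hKF _ (hmeas _ hHm)] at h1
  have h2 := mul_left_cancel₀ hK h1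
  have hval2 : ∀ (L : ℚ_[p] → ℂ) (y : Fin 2 → ℤ_[p]), Hh L g0 0 1 0 1 0
      ((p : ℚ_[p]) ^ k * inc p (y 0), (p : ℚ_[p]) ^ k * inc p (y 1)) =
      L (inc p (φ (fun i => P i + (p : ℤ_[p]) ^ k * y i) - φ P)) := by
    intro L y
    unfold Hh
    rw [pow_zero, pow_zero, one_mul, one_mul, Nat.sub_self, pow_zero, pow_zero, mul_one, mul_one,
      hval]
  simp only [hval2, ← hmul, hHi] at h2
  exact h2

end Pool.Agent.N138.SV.C4
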