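import Pool.Agent.N138.SV.Stm
import Pool.Agent.N138.SU.B2
import Pool.Agent.N138.SU.B2A

set_option autoImplicit false
set_option linter.unusedSectionVars false

/-! # The product of two functions of `e` and of the unit `u`

Written by helper655; the proof is the one of `SU/B2.lean` and `SU/W2.lean`.
-/

namespace Pool.Agent.N138.SV.D1

open MeasureTheory
open Pool.Agent.W427.SMC (msZ bsZ mu)
open Pool.Agent.N138.SU Pool.Agent.N138.SV
open Pool.Agent.N138.SU.B2 (X_cont un_compact un_meas qt qt_apply p_inv_pos)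
open Pool.Agent.Y230.PS (EP had)

attribute [local instance] msZ bsZ

variable {p : ℕ} [Fact p.Prime]

/-- a locally constant function is continuous on the units -/
theorem E_cont {C : ℕ} {E : ℕ → ℤ_[p] → ℂ} (h : LC C E) (e : ℕ) :
    ContinuousOn (fun u : ℤ_[p] => E e u) (un p) := by
  intro u hu
  refine (continuousAt_const (y := E e u)).congr ?_ |>.continuousWithinAt
  have h1 : Metric.ball u (((p : ℝ)⁻¹) ^ C) ∈ nhds u :=
    Metric.ball_mem_nhds _ (pow_pos p_inv_pos _)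
  filter_upwards [h1] with v hv
  rw [Metric.mem_ball, dist_eq_norm] at hv
  obtain ⟨u', hu'⟩ := PadicInt.isUnit_iff.2 (show ‖u‖ = 1 from hu)
  have e1 : v = u * ((u'⁻¹ : (ℤ_[p])ˣ) * v) := by
    rw [← mul_assoc, ← hu', Units.mul_inv, one_mul]
  have e2 : ‖((u'⁻¹ : (ℤ_[p])ˣ) : ℤ_[p]) * v - 1‖ ≤ ((p : ℝ)⁻¹) ^ C := by
    have e3 : ((u'⁻¹ : (ℤ_[p])ˣ) : ℤ_[p]) * v - 1 = ((u'⁻¹ : (ℤ_[p])ˣ) : ℤ_[p]) * (v - u) := by
      rw [mul_sub, ← hu', Units.inv_mul]
    rw [e3, norm_mul, PadicInt.norm_units, one_mul]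
    exact hv.le
  show E e u = E e v
  rw [e1]
  exact (h e u _ e2).symm

/-- Job D1 -/
theorem t : StD1 := by
  intro p _ C hC1 E1 E2 hE1 hE2 m1 m2 m3 hm h1 h2 χ
  obtain ⟨S, hS⟩ := Pool.Agent.N138.SU.B2A.t p C hC1
  have hp1 : (p : ℂ) - 1 ≠ 0 := by
    have h2 : (1 : ℝ) < p := by exact_mod_cast (Fact.out : p.Prime).one_lt
    intro h
    have h3 : ((p : ℝ) : ℂ) = ((1 : ℝ) : ℂ) := by
      push_cast
      exact sub_eq_zero.1 h
    rw [Complex.ofReal_inj] at h3
    linarith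
  have key : ∀ e : ℕ, ((p : ℂ) - 1) * hat (fun e u => E1 e u * E2 e u) χ e =
      (p : ℂ) * ∑ χ' ∈ S, hat E1 (qt χ χ') e * hat E2 χ' e := by
    intro e
    have h3 : ∀ u : ℤ_[p], ‖u‖ = 1 → ((p : ℂ) - 1) * E2 e u =
        (p : ℂ) * ∑ χ' ∈ S, χ'.X (u : ℚ_[p]) * hat E2 χ' e :=
      hS (fun u => E2 e u) fun u v _ hv => hE2 e u v hv
    have h4 : ((p : ℂ) - 1) * hat (fun e u => E1 e u * E2 e u) χ e =
        ∫ u in un p, ∑ χ' ∈ S, (p : ℂ) * hat E2 χ' e *
          ((starRingEnd ℂ) ((qt χ χ').X (u : ℚ_[p])) * E1 e u) ∂(mu p) := by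
      unfold hat
      rw [← integral_const_mul]
      refine setIntegral_congr_fun un_meas fun u hu => ?_
      calc ((p : ℂ) - 1) * ((starRingEnd ℂ) (χ.X (u : ℚ_[p])) * (E1 e u * E2 e u)) =
            (starRingEnd ℂ) (χ.X (u : ℚ_[p])) * E1 e u * (((p : ℂ) - 1) * E2 e u) := by ring
        _ = (starRingEnd ℂ) (χ.X (u : ℚ_[p])) * E1 e u *
              ((p : ℂ) * ∑ χ' ∈ S, χ'.X (u : ℚ_[p]) * hat E2 χ' e) := by rw [h3 u hu]
        _ = _ := by
            rw [Finset.mul_sum, Finset.mul_sum]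
            refine Finset.sum_congr rfl fun χ' _ => ?_
            rw [qt_apply, map_mul, Complex.conj_conj]
            unfold hat
            ring
    rw [h4, integral_finsetSum, Finset.mul_sum]
    · refine Finset.sum_congr rfl fun χ' _ => ?_
      rw [integral_const_mul]
      unfold hat
      ring
    · intro χ' _
      refine Integrable.const_mul ?_ _
      refine ContinuousOn.integrableOn_compact un_compact ?_
      exact (Complex.continuous_conj.comp_continuousOn (X_cont (qt χ χ'))).mul (E_cont hE1 e)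
  have hseq : (fun e : ℕ => hat (fun e u => E1 e u * E2 e u) χ e) =
      ((p : ℂ) / ((p : ℂ) - 1)) • ∑ χ' ∈ S, (fun e : ℕ => hat E1 (qt χ χ') e) *
        (fun e : ℕ => hat E2 χ' e) := by
    funext e
    rw [Pi.smul_apply, Finset.sum_apply, smul_eq_mul, div_mul_eq_mul_div, eq_div_iff hp1, mul_comm,
      key e]
    rfl
  rw [hseq]
  exact Submodule.smul_mem _ _ (Submodule.sum_mem _ fun χ' _ =>
    had m1 m2 m3 hm _ _ (h1 (qt χ χ')) (h2 χ'))

end Pool.Agent.N138.SV.D1
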