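import Pool.Agent.N138.SV.Stm

set_option autoImplicit false

/-! # Job D2: the contributions of the nonzero critical values -/

namespace Pool.Agent.N138.SV.D2

open MvPolynomial MeasureTheory
open Pool.Agent.W427.SMC (msZ bsZ mu)
open Pool.Agent.Y230.PS (EP N0)
open Pool.Agent.N138.SU

attribute [local instance] msZ bsZ

variable {p : ℕ} [Fact p.Prime]

theorem psi_add (e : ℕ) (x y : ℤ_[p]) : psi p e (x + y) = psi p e x * psi p e y := by
  unfold psi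
  rw [map_add, AddChar.map_add_eq_mul]

theorem psi_ne (e : ℕ) (he : 1 ≤ e) : psi p e ((p : ℤ_[p]) ^ (e - 1)) ≠ 1 := by
  unfold psi
  have : NeZero (p ^ e) := ⟨pow_ne_zero e (Fact.out : p.Prime).ne_zero⟩
  intro h
  have h1 : ZMod.stdAddChar (N := p ^ e) (PadicInt.toZModPow e ((p : ℤ_[p]) ^ (e - 1))) =
      ZMod.stdAddChar (N := p ^ e) 0 := by
    rw [h, AddChar.map_zero_eq_one]
  have h2 := ZMod.injective_stdAddChar h1
  rw [map_pow, map_natCast, ← Nat.cast_pow, ZMod.natCast_eq_zero_iff] at h2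
  have hp := (Fact.out : p.Prime)
  have h3 := (Nat.pow_dvd_pow_iff_le_right hp.one_lt).1 h2
  omega

theorem norm_p_pow (c : ℕ) (t : ℤ_[p]) : ‖(p : ℤ_[p]) ^ c * t‖ ≤ ((p : ℝ)⁻¹) ^ c := by
  rw [norm_mul, norm_pow, PadicInt.norm_p]
  exact mul_le_of_le_one_right (by positivity) (PadicInt.norm_le_one t)

theorem p_inv_lt : ((p : ℝ)⁻¹) < 1 := by
  have hp := (Fact.out : p.Prime)
  exact inv_lt_one_of_one_lt₀ (by exact_mod_cast hp.one_lt)

theorem unit_add {c : ℕ} (hc : 1 ≤ c) (t u : ℤ_[p]) :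
    u + (p : ℤ_[p]) ^ c * t ∈ un p ↔ u ∈ un p := by
  have h1 : ‖(p : ℤ_[p]) ^ c * t‖ < 1 := by
    refine (norm_p_pow c t).trans_lt ?_
    exact pow_lt_one₀ (by positivity) p_inv_lt (by omega)
  show ‖u + (p : ℤ_[p]) ^ c * t‖ = 1 ↔ ‖u‖ = 1
  constructor
  · intro h
    have h2 : u = (u + (p : ℤ_[p]) ^ c * t) + -((p : ℤ_[p]) ^ c * t) := by ring
    rw [h2, PadicInt.norm_add_eq_max_of_ne, norm_neg, h, max_eq_left h1.le]
    rw [norm_neg, h]
    exact h1.ne'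
  · intro h
    rw [PadicInt.norm_add_eq_max_of_ne, h, max_eq_left h1.le]
    rw [h]
    exact h1.ne'

/-- for a unit `u`, adding a multiple of `p ^ c` is the multiplication by a number near `1` -/
theorem exists_v {c : ℕ} (t u : ℤ_[p]) (hu : u ∈ un p) : ∃ v : ℤ_[p],
    ‖v - 1‖ ≤ ((p : ℝ)⁻¹) ^ c ∧ u * v = u + (p : ℤ_[p]) ^ c * t := by
  have hu' : IsUnit u := PadicInt.isUnit_iff.2 hu
  obtain ⟨w, hw⟩ := hu'.exists_right_inv
  refine ⟨1 + (p : ℤ_[p]) ^ c * (t * w), ?_, ?_⟩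
  · rw [add_sub_cancel_left]
    exact norm_p_pow c _
  · calc u * (1 + (p : ℤ_[p]) ^ c * (t * w)) = u + (p : ℤ_[p]) ^ c * t * (u * w) := by ring
      _ = _ := by rw [hw, mul_one]

theorem main (C : ℕ) (E : ℕ → ℤ_[p] → ℂ) (hE : LC C E) (Λ : ℤ_[p]) (hΛ : Λ ≠ 0) (χ : UC p) :
    (fun e => hat (fun e u => psi p e (u * Λ) * E e u) χ e) ∈ N0 := by
  obtain ⟨c, hc1, hc2⟩ : ∃ c, C ≤ c ∧ χ.c ≤ c := ⟨max C χ.c, le_max_left _ _, le_max_right _ _⟩
  have hc : 1 ≤ c := χ.hc.trans hc2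
  have hmono : ∀ {a b : ℕ}, a ≤ b → ((p : ℝ)⁻¹) ^ b ≤ ((p : ℝ)⁻¹) ^ a := fun h =>
    pow_le_pow_of_le_one (by positivity) p_inv_lt.le h
  refine ⟨c + Λ.valuation + 1, fun e he => ?_⟩
  show hat (fun e u => psi p e (u * Λ) * E e u) χ e = 0
  unfold hat
  -- the translation
  obtain ⟨w, hw⟩ : ∃ w : ℤ_[p], Λ * w = (p : ℤ_[p]) ^ Λ.valuation := by
    obtain ⟨r, hr⟩ : ∃ r : (ℤ_[p])ˣ, Λ = r * (p : ℤ_[p]) ^ Λ.valuation :=
      ⟨_, PadicInt.unitCoeff_spec hΛ⟩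
    refine ⟨(r⁻¹ : (ℤ_[p])ˣ), ?_⟩
    calc Λ * (r⁻¹ : (ℤ_[p])ˣ) = r * (p : ℤ_[p]) ^ Λ.valuation * (r⁻¹ : (ℤ_[p])ˣ) := by rw [← hr]
      _ = (r * (r⁻¹ : (ℤ_[p])ˣ) : ℤ_[p]) * (p : ℤ_[p]) ^ Λ.valuation := by ring
      _ = _ := by rw [Units.mul_inv, one_mul]
  obtain ⟨t, ht⟩ : ∃ t : ℤ_[p], t = (p : ℤ_[p]) ^ (e - 1 - c - Λ.valuation) * w := ⟨_, rfl⟩
  have hpt : (p : ℤ_[p]) ^ c * t * Λ = (p : ℤ_[p]) ^ (e - 1) := by
    calc (p : ℤ_[p]) ^ c * t * Λ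
        = (p : ℤ_[p]) ^ c * (p : ℤ_[p]) ^ (e - 1 - c - Λ.valuation) * (Λ * w) := by
          rw [ht]; ring
      _ = (p : ℤ_[p]) ^ (e - 1) := by
          rw [hw, ← pow_add, ← pow_add]
          congr 1
          omega
  set F : ℤ_[p] → ℂ := fun u => (starRingEnd ℂ) (χ.X (u : ℚ_[p])) *
    (psi p e (u * Λ) * E e u) with hF
  have hkey : ∀ u ∈ un p, F (u + (p : ℤ_[p]) ^ c * t) = psi p e ((p : ℤ_[p]) ^ (e - 1)) * F u := by
    intro u hu
    obtain ⟨v, hv1, hv2⟩ := exists_v (c := c) t u hu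
    have e1 : χ.X ((u + (p : ℤ_[p]) ^ c * t : ℤ_[p]) : ℚ_[p]) = χ.X (u : ℚ_[p]) := by
      rw [← hv2, PadicInt.coe_mul, map_mul, χ.tr (v : ℚ_[p]), mul_one]
      refine le_trans ?_ (hmono hc2)
      have : ((v - 1 : ℤ_[p]) : ℚ_[p]) = (v : ℚ_[p]) - 1 := by push_cast; ring
      rw [← this]
      exact hv1
    have e2 : E e (u + (p : ℤ_[p]) ^ c * t) = E e u := by
      rw [← hv2]
      exact hE e u v (hv1.trans (hmono hc1))
    rw [hF]
    dsimp only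
    rw [e1, e2, add_mul, psi_add, hpt]
    ring
  have hmeas : MeasurableSet (un p) := by
    have : IsClosed (un p) := isClosed_eq continuous_norm continuous_const
    exact this.measurableSet
  have h1 : ∫ u in un p, F u ∂(mu p) = ∫ u in un p, F (u + (p : ℤ_[p]) ^ c * t) ∂(mu p) := by
    rw [← integral_indicator hmeas, ← integral_indicator hmeas,
      ← integral_add_right_eq_self _ ((p : ℤ_[p]) ^ c * t)]
    congr 1
    funext u
    by_cases hu : u ∈ un p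
    · rw [Set.indicator_of_mem hu, Set.indicator_of_mem ((unit_add hc t u).2 hu)]
    · rw [Set.indicator_of_notMem hu,
        Set.indicator_of_notMem fun h => hu ((unit_add hc t u).1 h)]
  have h2 : ∫ u in un p, F (u + (p : ℤ_[p]) ^ c * t) ∂(mu p) =
      psi p e ((p : ℤ_[p]) ^ (e - 1)) * ∫ u in un p, F u ∂(mu p) := by
    rw [← integral_const_mul]
    exact setIntegral_congr_fun hmeas hkey
  rw [h2] at h1
  have h3 : (1 - psi p e ((p : ℤ_[p]) ^ (e - 1))) * ∫ u in un p, F u ∂(mu p) = 0 := by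
    linear_combination h1
  rcases mul_eq_zero.1 h3 with h4 | h4
  · exact absurd (sub_eq_zero.1 h4).symm (psi_ne e (by omega))
  · exact h4

theorem t : StD2 := by
  intro p _ C E hE Λ hΛ χ
  exact main C E hE Λ hΛ χ

end Pool.Agent.N138.SV.D2
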