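import Pool.Agent.N138.SV.B8
import Pool.Agent.N138.SV.A1
import Pool.Agent.N138.SV.A2
import Pool.Agent.N138.SV.A3
import Pool.Agent.N138.SV.A4
import Pool.Agent.N138.SV.A5
import Pool.Agent.N138.SV.A6
import Pool.Agent.N138.SV.C0
import Pool.Agent.N138.SV.C1
import Pool.Agent.N138.SV.C2
import Pool.Agent.N138.SV.C3
import Pool.Agent.N138.SV.C4
import Pool.Agent.N138.SV.D1
import Pool.Agent.N138.SV.D2
import Pool.Agent.N138.SV.D3

set_option autoImplicit false

/-! # All the statements hold -/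

namespace Pool.Agent.N138.SV

theorem hy : Hy where
  a1 := A1.t
  a2 := A2.t
  a3 := A3.t
  a5 := A5.t A4.t
  a6 := A6.t A4.t
  c4 := C4.t (C3.t (C1.t C0.t) (C2.t C0.t))
  d1 := D1.t
  d2 := D2.t
  d3 := D3.t

end Pool.Agent.N138.SV
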