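import Pool.Agent.N138.SV.B5
import Pool.Agent.N138.SU.Cls3

set_option autoImplicit false
set_option linter.unusedSectionVars false
set_option linter.unusedVariables false

/-! # The sums of plane curves: the exponential sums -/

namespace Pool.Agent.N138.SV

open MeasureTheory Pool.Agent.W574.SM Pool.Agent.Y230.RE Pool.Agent.Y230.PL Polynomial
open Pool.Agent.Y230.PT Pool.Agent.Y465.TH Pool.Agent.Y230.PS Pool.Agent.Y230.TH
open Pool.Agent.W427.SMC (msZ bsZ mu tr' tr'_pos tr'_lt tr'_le Conv exists_s)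
open Pool.Agent.N138.SU

variable {p : ℕ} [Fact p.Prime]

attribute [local instance] msK bsK msZ bsZ

section Meas

variable {Y : Type} [MeasurableSpace Y] (ν : Measure Y) [IsProbabilityMeasure ν] (φ : Y → ℤ_[p])

theorem Es_meas (hφ : Measurable φ) (e : ℕ) : Measurable (Es ν φ e) := by
  have hm : Measurable (fun z : ℤ_[p] × Y => psi p e (z.1 * φ z.2)) :=
    (Pool.Agent.N138.SU.B3.psi_meas e).comp (measurable_fst.mul (hφ.comp measurable_snd))
  have h1 : StronglyMeasurable (Function.uncurry fun (u : ℤ_[p]) (y : Y) => psi p e (u * φ y)) :=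
    hm.stronglyMeasurable
  exact h1.integral_prod_right.measurable

theorem Es_norm (e : ℕ) (u : ℤ_[p]) : ‖Es ν φ e u‖ ≤ 1 := by
  unfold Es
  refine (norm_integral_le_of_norm_le_const (C := 1) (Filter.Eventually.of_forall fun y =>
    (Pool.Agent.N138.SU.B3.psi_norm e _).le)).trans ?_
  rw [one_mul]
  exact measureReal_le_one

end Meas

theorem hat_int (χ : UC p) {G : ℤ_[p] → ℂ} (hG : Measurable G) {B : ℝ} (hB : ∀ u, ‖G u‖ ≤ B) :
    Integrable (fun u : ℤ_[p] => (starRingEnd ℂ) (χ.X (u : ℚ_[p])) * G u)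
      ((mu p).restrict (un p)) := by
  have hB0 : 0 ≤ B := (norm_nonneg _).trans (hB 0)
  refine Integrable.mono' (g := fun _ => B) (integrable_const _) ?_ ?_
  · exact ((Complex.continuous_conj.measurable.comp ((X_meas χ).comp inc_m)).mul hG).aestronglyMeasurable
  · refine Filter.Eventually.of_forall fun u => ?_
    rw [norm_mul, RCLike.norm_conj]
    have h1 := mul_le_mul (norm_X_le χ (u : ℚ_[p])) (hB u) (norm_nonneg _) zero_le_one
    rwa [one_mul] at h1

theorem hat_sum {κ : Type} (S : Finset κ) (c : κ → ℂ) (G : κ → ℕ → ℤ_[p] → ℂ) (e : ℕ)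
    (hG : ∀ a ∈ S, Measurable (G a e)) (hB : ∀ a ∈ S, ∀ u, ‖G a e u‖ ≤ 1) (χ : UC p) :
    hat (fun e u => ∑ a ∈ S, c a * G a e u) χ e = ∑ a ∈ S, c a * hat (G a) χ e := by
  unfold hat
  have h1 : ∀ u : ℤ_[p], (starRingEnd ℂ) (χ.X (u : ℚ_[p])) * ∑ a ∈ S, c a * G a e u =
      ∑ a ∈ S, c a * ((starRingEnd ℂ) (χ.X (u : ℚ_[p])) * G a e u) := by
    intro u
    rw [Finset.mul_sum]
    exact Finset.sum_congr rfl fun a _ => by ring
  simp only [h1]
  rw [integral_finsetSum]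
  · exact Finset.sum_congr rfl fun a _ => integral_const_mul _ _
  · intro a ha
    exact (hat_int χ (hG a ha) (hB a ha)).const_mul _

section Sum

variable {ι : Type} [Fintype ι] [DecidableEq ι]

/-- Fubini -/
theorem Es_prod (φ : ι → (Fin 2 → ℤ_[p]) → ℤ_[p]) (hφ : ∀ i, Measurable (φ i)) (e : ℕ)
    (u : ℤ_[p]) : Es (Measure.pi fun _ : ι × Fin 2 => mu p)
      (fun x => ∑ i, φ i (fun t => x (i, t))) e u =
      ∏ i, Es (Measure.pi fun _ : Fin 2 => mu p) (φ i) e u := by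
  unfold Es
  have h1 := integral_fintype_prod_eq_prod (𝕜 := ℂ) (ι := ι) (E := fun _ => Fin 2 → ℤ_[p])
    (fun i (y : Fin 2 → ℤ_[p]) => psi p e (u * φ i y))
    (μ := fun _ => Measure.pi fun _ : Fin 2 => mu p)
  rw [← h1]
  have h2 : Measure.map (MeasurableEquiv.curry ι (Fin 2) ℤ_[p])
      (Measure.pi fun _ : ι × Fin 2 => mu p) =
      Measure.pi fun _ : ι => Measure.pi fun _ : Fin 2 => mu p := by
    have h3 := Measure.infinitePi_map_curry (ι := ι) (κ := Fin 2) (X := ℤ_[p])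
      (μ := fun _ _ => mu p)
    simpa only [Measure.infinitePi_eq_pi] using h3
  rw [← h2, integral_map_equiv]
  refine integral_congr_ae (Filter.Eventually.of_forall fun x => ?_)
  beta_reduce
  rw [Finset.mul_sum, Pool.Agent.N138.SU.B3.psi_sum]
  rfl

theorem per_sum (hA2 : StA2) (hA3 : StA3) [Nonempty ι] (emb : ℚ_[p] →+* ℂ)
    (f : ι → MvPolynomial (Fin 2) ℚ) (K0 : ℕ) (lam : ι → ℚ_[p]) (hl : ∑ i, lam i = 0) (r : ι → ℂ)
    (h : ∀ i, Per (mp emb (MvPolynomial.C ((p : ℚ_[p]) ^ K0) *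
      MvPolynomial.map (algebraMap ℚ ℚ_[p]) (f i)) - MvPolynomial.C (emb (lam i))) (r i)) :
    Per (MvPolynomial.map (algebraMap ℚ ℂ) (sumF f)) (∑ i, r i) := by
  have hp0 : (p : ℚ_[p]) ^ K0 ≠ 0 :=
    pow_ne_zero _ (by exact_mod_cast (Fact.out : p.Prime).ne_zero)
  have hφ : emb.comp (algebraMap ℚ ℚ_[p]) = algebraMap ℚ ℂ := RingHom.ext_rat _ _
  have h1 := hA2 _ r h
  refine hA3 _ (emb ((p : ℚ_[p]) ^ K0)) 1 (fun _ => 0) _ (fun h0 => hp0 ((map_eq_zero emb).1 h0))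
    one_ne_zero ?_
  have e1 : (fun i : ι × Fin 2 => MvPolynomial.C (1 : ℂ) * MvPolynomial.X i +
      MvPolynomial.C ((fun _ : ι × Fin 2 => (0 : ℂ)) i)) = MvPolynomial.X := by
    funext i
    simp
  rw [e1, MvPolynomial.aeval_X_left, AlgHom.id_apply]
  have e2 : ∑ i, MvPolynomial.rename (fun t : Fin 2 => (i, t))
      (mp emb (MvPolynomial.C ((p : ℚ_[p]) ^ K0) *
      MvPolynomial.map (algebraMap ℚ ℚ_[p]) (f i)) - MvPolynomial.C (emb (lam i))) =
      MvPolynomial.C (emb ((p : ℚ_[p]) ^ K0)) *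
        MvPolynomial.map (algebraMap ℚ ℂ) (sumF f) := by
    rw [map_sumF]
    unfold sumF mp
    simp only [map_sub, map_mul, MvPolynomial.map_C, MvPolynomial.rename_C,
      MvPolynomial.map_map, hφ]
    rw [Finset.sum_sub_distrib, ← Finset.mul_sum, ← map_sum, ← map_sum, hl, map_zero, map_zero,
      sub_zero]
  rw [← e2]
  exact h1

/-- **The exponential sums of the sums of plane curves.** -/
theorem XW_sum (hA1 : StA1) (hA2 : StA2) (hA3 : StA3) (h5a : StA5) (h6a : StA6) (hC4 : StC4)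
    (hD1 : StD1) (hD2 : StD2) (hD3 : StD3) [Nonempty ι]
    (f : ι → MvPolynomial (Fin 2) ℚ) (hf : ∀ i c, f i ≠ MvPolynomial.C c) :
    XW w2 p (sumF f) := by
  obtain ⟨emb⟩ := exists_emb p
  choose K φ hφ using fun i => exists_IsV (p := p) (f i)
  set K0 := ∑ i, K i with hK0
  have hKi : ∀ i, K i ≤ K0 := fun i =>
    Finset.single_le_sum (f := K) (fun _ _ => Nat.zero_le _) (Finset.mem_univ i)
  have hpK : (p : ℚ_[p]) ^ K0 ≠ 0 :=
    pow_ne_zero _ (by exact_mod_cast (Fact.out : p.Prime).ne_zero)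
  set g : ι → A ℚ_[p] := fun i => MvPolynomial.C ((p : ℚ_[p]) ^ K0) *
    MvPolynomial.map (algebraMap ℚ ℚ_[p]) (f i) with hg
  set ψ : ι → (Fin 2 → ℤ_[p]) → ℤ_[p] := fun i x => (p : ℤ_[p]) ^ (K0 - K i) * φ i x with hψ
  have hψg : ∀ i x, inc p (ψ i x) = MvPolynomial.eval (fun t => inc p (x t)) (g i) := by
    intro i x
    rw [hψ, hg]
    beta_reduce
    rw [inc_mul, inc_p, hφ i x, map_mul, MvPolynomial.eval_C, ← mul_assoc, ← pow_add,
      Nat.sub_add_cancel (hKi i)]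
  have hψm : ∀ i, Measurable (ψ i) := fun i => cu_meas (g i) (ψ i) (hψg i)
  have hgn : ∀ i c, g i ≠ MvPolynomial.C c := by
    intro i c h
    apply map_nc (algebraMap ℚ ℚ_[p]) (f i) (hf i) (((p : ℚ_[p]) ^ K0)⁻¹ * c)
    rw [map_mul, ← h, hg]
    beta_reduce
    rw [← mul_assoc, ← map_mul, inv_mul_cancel₀ hpK, map_one, one_mul]
  choose S N hS1 hS2 hS3 using fun i =>
    pieces hA3 h5a h6a hC4 hD3 emb (g i) (hgn i) (ψ i) (hψg i)
  have h0 : IsV (sumF f) K0 (fun x : ι × Fin 2 → ℤ_[p] => ∑ i, ψ i (fun t => x (i, t))) := by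
    intro x
    rw [inc_sum, map_sumF]
    unfold sumF
    rw [map_sum, Finset.mul_sum]
    refine Finset.sum_congr rfl fun i _ => ?_
    rw [hψg i, hg]
    beta_reduce
    rw [map_mul, MvPolynomial.eval_C, MvPolynomial.eval_rename]
    rfl
  refine XW_of K0 _ h0 fun χ => ?_
  set N0' := ∑ i, N i + 1 with hN0
  have hp1 : ((p : ℝ)⁻¹) < 1 := inv_lt_one_of_one_lt₀ (by
    exact_mod_cast (Fact.out : p.Prime).one_lt)
  have hp0 : 0 < ((p : ℝ)⁻¹) := inv_pos.2 (by exact_mod_cast (Fact.out : p.Prime).pos)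
  have hNi : ∀ i, N i ≤ N0' := fun i =>
    (Finset.single_le_sum (f := N) (fun _ _ => Nat.zero_le _) (Finset.mem_univ i)).trans
      (Nat.le_succ _)
  set E : (ι → (Fin 2 → ℤ_[p]) × ℕ) → ι → ℕ → ℤ_[p] → ℂ := fun a i =>
    Es (Measure.pi fun _ : Fin 2 => mu p) (loc (ψ i) (a i)) with hE
  set Λ : (ι → (Fin 2 → ℤ_[p]) × ℕ) → ℤ_[p] := fun a => ∑ i, ψ i (a i).1 with hΛ
  set cc : (ι → (Fin 2 → ℤ_[p]) × ℕ) → ℂ := fun a => ∏ i, ((p : ℂ)⁻¹) ^ (2 * (a i).2) with hcc
  set G : (ι → (Fin 2 → ℤ_[p]) × ℕ) → ℕ → ℤ_[p] → ℂ := fun a e u =>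
    psi p e (u * Λ a) * ∏ i, E a i e u with hG
  have hlm : ∀ (a : ι → (Fin 2 → ℤ_[p]) × ℕ) (i : ι), Measurable (loc (ψ i) (a i)) := by
    intro a i
    exact cu_meas _ _ (loc_val (g i) (ψ i) (hψg i) (a i))
  have hGm : ∀ a e, Measurable (G a e) := by
    intro a e
    refine Measurable.mul ((Pool.Agent.N138.SU.B3.psi_meas e).comp
      (measurable_id.mul measurable_const)) ?_
    exact Finset.measurable_fun_prod _ fun i _ => Es_meas _ _ (hlm a i) e
  have hGb : ∀ a e u, ‖G a e u‖ ≤ 1 := by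
    intro a e u
    rw [hG]
    beta_reduce
    rw [norm_mul, Pool.Agent.N138.SU.B3.psi_norm, one_mul, norm_prod]
    exact Finset.prod_le_one (fun _ _ => norm_nonneg _) fun i _ => Es_norm _ _ e u
  have hdec : ∀ (e : ℕ) (u : ℤ_[p]), Es (Measure.pi fun _ : ι × Fin 2 => mu p)
      (fun x => ∑ i, ψ i (fun t => x (i, t))) e u =
      ∑ a ∈ Fintype.piFinset S, cc a * G a e u := by
    intro e u
    rw [Es_prod ψ hψm e u, Finset.prod_congr rfl fun i _ => hS1 i e u, Finset.prod_univ_sum]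
    refine Finset.sum_congr rfl fun a _ => ?_
    rw [Finset.prod_mul_distrib, Finset.prod_mul_distrib, hcc, hG, hΛ]
    beta_reduce
    rw [Finset.mul_sum, Pool.Agent.N138.SU.B3.psi_sum]
  have hEh : (fun e : ℕ => Eh (Measure.pi fun _ : ι × Fin 2 => mu p)
      (fun x => ∑ i, ψ i (fun t => x (i, t))) χ e) =
      ∑ a ∈ Fintype.piFinset S, cc a • (fun e => hat (G a) χ e) := by
    funext e
    rw [Finset.sum_apply]
    have h1 := hat_sum (Fintype.piFinset S) cc G e (fun a _ => hGm a e) (fun a _ => hGb a e) χ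
    simp only [Pi.smul_apply, smul_eq_mul]
    rw [← h1]
    unfold Pool.Agent.N138.SU.Eh hat
    refine integral_congr_ae (Filter.Eventually.of_forall fun u => ?_)
    beta_reduce
    rw [hdec]
  rw [hEh]
  refine Submodule.sum_mem _ fun a ha => Submodule.smul_mem _ _ ?_
  rw [Fintype.mem_piFinset] at ha
  have hLC : ∀ i, LC N0' (E a i) := fun i e u v hv => hS2 i (a i) (ha i) e u v
    (hv.trans (pow_le_pow_of_le_one hp0.le hp1.le (hNi i)))
  by_cases hL : Λ a = 0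
  swap
  · exact N0_EP _ (hD2 p N0' (fun e u => ∏ i, E a i e u) (LC_prod hLC Finset.univ) (Λ a) hL χ)
  set q : ι → MvPolynomial (Fin 2) ℂ := fun i =>
    mp emb (g i) - MvPolynomial.C (emb (inc p (ψ i (a i).1))) with hq
  have h1 := prod_EP hD1 (Nat.succ_le_succ (Nat.zero_le _)) hLC q
    (fun i χ => hS3 i (a i) (ha i) χ) Finset.univ Finset.univ_nonempty χ
  have h2 : (fun e => hat (G a) χ e) =
      fun e => hat (fun e u => ∏ i ∈ Finset.univ, E a i e u) χ e := by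
    funext e
    unfold hat
    refine integral_congr_ae (Filter.Eventually.of_forall fun u => ?_)
    rw [hG]
    beta_reduce
    rw [hL, mul_zero, Pool.Agent.N138.SU.B3.psi_zero, one_mul]
  rw [h2]
  refine EP_mono (fun T hT => ?_) h1
  by_cases h3 : ∃ T' : ι → ℂ, (∀ i ∈ Finset.univ, 1 < ‖T' i‖ ∧
    Per (q i) ((rr p (T' i) : ℝ) : ℂ)) ∧ ∏ i ∈ Finset.univ, T' i = T
  swap
  · refine le_trans (le_of_eq ?_) bot_le
    unfold mS
    rw [if_neg h3]
    rfl
  obtain ⟨T', h4, h5⟩ := h3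
  have h6 : 1 < ‖T‖ := by
    rw [← h5]
    exact norm_prod_gt T' _ Finset.univ_nonempty fun i hi => (h4 i hi).1
  have h7 : ((rr p T : ℝ) : ℂ) = ∑ i, ((rr p (T' i) : ℝ) : ℂ) := by
    rw [← h5, rr_prod T' _ fun i hi => (h4 i hi).1]
    push_cast
    rfl
  have h8 : Per (MvPolynomial.map (algebraMap ℚ ℂ) (sumF f)) ((rr p T : ℝ) : ℂ) := by
    rw [h7]
    refine per_sum hA2 hA3 emb f K0 (fun i => inc p (ψ i (a i).1)) ?_ _
      fun i => (h4 i (Finset.mem_univ i)).2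
    rw [← inc_sum]
    change inc p (Λ a) = 0
    rw [hL, inc_zero]
  have h9 : ((rr p T : ℝ) : ℂ) ≠ 0 := by
    have hp : (1 : ℝ) < p := by exact_mod_cast (Fact.out : p.Prime).one_lt
    have h10 : rr p T < 0 := by
      unfold rr
      rw [neg_div, neg_lt_zero]
      exact div_pos (Real.log_pos h6) (Real.log_pos hp)
    exact_mod_cast h10.ne
  have h11 : FK (hyp (sumF f)) ((rr p T : ℝ) : ℂ) (1 + dl ((rr p T : ℝ) : ℂ)) := by
    intro b hb
    obtain ⟨b', hb', hb2⟩ := hA1 _ _ h9 h8 b (Pool.Agent.Y229.isB_of_single _ b hb)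
    rw [hb']
    apply dvd_dl
    rw [pow_one]
    exact dvd_iff_isRoot.2 hb2
  refine le_trans le_top ?_
  unfold Pool.Agent.Y230.PS.tr
  rw [if_neg (not_le.2 h6)]
  exact le_mW (w := w2) h11

end Sum

end Pool.Agent.N138.SV
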