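import Pool.Agent.N138.SV.Defs
import Pool.Agent.N138.SU.Globx

set_option autoImplicit false

/-! # Statements for the sums of plane curves -/

namespace Pool.Agent.N138.SV

open MvPolynomial MeasureTheory
open Pool.Agent.W427.SMC (msZ bsZ mu)
open Pool.Agent.Y230.PT (msK bsK CO inc)
open Pool.Agent.Y230.PS (EP N0)
open Pool.Agent.N138.SU Pool.Agent.H628R4.TP Pool.Agent.W574.SM

/-- Job A1: the leading exponents of periods are roots of `b(s) / (s + 1)`. -/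
def StA1 : Prop := ∀ {τ : Type} (f : MvPolynomial τ ℂ) (e0 : ℂ), e0 ≠ 0 → Per f e0 →
  ∀ b : Polynomial ℂ, IsBFunction f b →
    ∃ b' : Polynomial ℂ, b = (Polynomial.X + 1) * b' ∧ b'.eval e0 = 0

/-- Job A2: periods of the sums in disjoint sets of variables. -/
def StA2 : Prop := ∀ {ι τ : Type} [Fintype ι] [Nonempty ι] (f : ι → MvPolynomial τ ℂ) (e : ι → ℂ),
  (∀ i, Per (f i) (e i)) → Per (∑ i, rename (fun t => (i, t)) (f i)) (∑ i, e i)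

/-- Job A3: affine changes of the variables. -/
def StA3 : Prop := ∀ {τ : Type} (g : MvPolynomial τ ℂ) (κ α : ℂ) (β : τ → ℂ) (e0 : ℂ),
  κ ≠ 0 → α ≠ 0 → Per (C κ * aeval (fun i => C α * X i + C (β i)) g) e0 → Per g e0

/-- Job A4: periods from functionals on a field. -/
def StA4 : Prop := ∀ {σ L : Type} [Fintype σ] [DecidableEq σ] [Field L] [Algebra ℂ L] [CharZero L]
  (φ : MvPolynomial σ ℂ →ₐ[ℂ] L) (θ : σ → Derivation ℂ L L) (f : MvPolynomial σ ℂ) (e : ℂ)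
  (F : Filt L) (a ν : ℤ), 0 < a → (Jac φ θ).det ≠ 0 → (Jac φ θ).det ∈ F.ge ν →
  (∀ s t u, θ s (θ t u) = θ t (θ s u)) → ∀ T : L →ₗ[ℂ] ℂ,
  (∀ t u, T (θ t u + algebraMap ℂ L e * (θ t (φ f) * (φ f)⁻¹) * u) = 0) →
  (∀ u ∈ F.ge (ν + 1), T u = 0) → φ f ∈ F.ge a → φ f ≠ 0 → ∀ S : Subalgebra ℂ L,
  (∀ q, φ q ∈ S) → (∀ i, ∀ u ∈ S, DD φ θ i u ∈ S) → (∀ u ∈ S, u ∈ F.ge 0) →
  (e = -1 → ∀ i, (Jac φ θ).det * DD φ θ i (φ f) ∈ F.ge (ν + 1)) →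
  (∃ ρ ∈ S, T ((Jac φ θ).det * ρ) ≠ 0) → Per f e

/-- Job A5: periods from exceptional curves whose twisted residue form is not exact. -/
def StA5 : Prop := ∀ {M : Type} [Field M] [Algebra ℂ M] (δ : Derivation ℂ M M) (x0 : M), δ x0 = 1 →
  ∀ (f : MvPolynomial (Fin 2) ℂ) (ξ : Fin 2 → MvPolynomial (Fin 2) ℂ) (a n : ℕ), 0 < a → 1 ≤ n →
  ∀ g : MvPolynomial (Fin 2) ℂ, aeval ξ f = X 0 ^ a * g → ∀ Jp : MvPolynomial (Fin 2) ℂ,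
  (Matrix.of fun t i => pderiv t (ξ i)).det = X 0 ^ (n - 1) * Jp → resM x0 Jp ≠ 0 →
  resM x0 g ≠ 0 → (∀ R : M, δ R + algebraMap ℂ M (-(n : ℂ) / a) *
    (δ (resM x0 g) * (resM x0 g)⁻¹) * R ≠ resM x0 Jp) →
  (∀ i, ∃ (c : ℂ) (q : MvPolynomial (Fin 2) ℂ), ξ i = C c + X 0 * q) → Per f (-(n : ℂ) / a)

/-- Job A6: periods from the multiple components. -/
def StA6 : Prop := ∀ (f : MvPolynomial (Fin 2) ℂ) (ξ : Fin 2 → MvPolynomial (Fin 2) ℂ)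
  (W W' : MvPolynomial (Fin 2) ℂ), constantCoeff W ≠ 0 → constantCoeff W' ≠ 0 →
  ∀ (a0 n0 m : ℕ), 2 ≤ m → ∀ h k : MvPolynomial (Fin 2) ℂ,
  aeval ξ f = X 0 ^ a0 * W * (h ^ m * k) → jac ξ = X 0 ^ (n0 - 1) * W' →
  constantCoeff h = 0 → constantCoeff (pderiv 1 h) ≠ 0 → constantCoeff k ≠ 0 →
  Per f (-1 / (m : ℂ))

attribute [local instance] msK bsK msZ bsZ

/-- Job C0: averaging in one variable. -/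
def StC0 : Prop := ∀ (p : ℕ) [Fact p.Prime] (G : ℤ_[p] → ℚ_[p]) (c : ℚ_[p]), c ≠ 0 →
  (∀ t t', ‖G t - G t'‖ = ‖c‖ * ‖t - t'‖) → ∀ v : ℚ_[p], ‖v‖ = 1 → ‖v - 1‖ * ‖G 0‖ ≤ ‖c‖ →
  ∀ h : ℚ_[p] → ℂ, Measurable h → (∃ B : ℝ, ∀ z, ‖h z‖ ≤ B) →
  ∫ t, h (v * G t) ∂(mu p) = ∫ t, h (G t) ∂(mu p)

/-- Job C1: monomials times a unit. -/
def StC1 : Prop := ∀ (p : ℕ) [Fact p.Prime] (W : MvPolynomial (Fin 2) ℚ_[p]) (a0 n0 a1 n1 : ℕ),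
  constantCoeff W ≠ 0 → 1 ≤ n0 → 1 ≤ n1 → (1 ≤ a0 ∨ 1 ≤ a1) → LInv W a0 n0 a1 n1 (0, 0)

/-- Job C2: smooth curves with a multiplicity. -/
def StC2 : Prop := ∀ (p : ℕ) [Fact p.Prime] (h κ : MvPolynomial (Fin 2) ℚ_[p]) (m a n : ℕ),
  1 ≤ m → 1 ≤ n → constantCoeff h = 0 → constantCoeff κ ≠ 0 →
  (constantCoeff (pderiv 1 h) ≠ 0 → LInv (h ^ m * κ) a n 0 1 (0, 0)) ∧
  (constantCoeff (pderiv 0 h) ≠ 0 → LInv (h ^ m * κ) 0 1 a n (0, 0))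

/-- Job C3: plane curves. -/
def StC3 : Prop := ∀ (p : ℕ) [Fact p.Prime] (g : MvPolynomial (Fin 2) ℚ_[p]), g ≠ 0 →
  constantCoeff g = 0 → LInv g 0 1 0 1 (0, 0)

/-- Job C4: plane curves, on small balls. -/
def StC4 : Prop := ∀ (p : ℕ) [Fact p.Prime] (g : MvPolynomial (Fin 2) ℚ_[p])
  (φ : (Fin 2 → ℤ_[p]) → ℤ_[p]), (∀ x, inc p (φ x) = eval (fun i => inc p (x i)) g) →
  ∀ P : Fin 2 → ℤ_[p], ∃ k0 : ℕ, ∀ k, k0 ≤ k → ∃ C : ℕ, 1 ≤ C ∧ ∀ v : ℤ_[p],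
  ‖v - 1‖ ≤ ((p : ℝ)⁻¹) ^ C → ∀ h : ℤ_[p] → ℂ, Measurable h → (∃ B : ℝ, ∀ z, ‖h z‖ ≤ B) →
  ∫ y, h (v * (φ (fun i => P i + (p : ℤ_[p]) ^ k * y i) - φ P)) ∂(Measure.pi fun _ => mu p) =
    ∫ y, h (φ (fun i => P i + (p : ℤ_[p]) ^ k * y i) - φ P) ∂(Measure.pi fun _ => mu p)

/-- Job D1: the product of two functions of `e` and `u`. -/
def StD1 : Prop := ∀ (p : ℕ) [Fact p.Prime] (C : ℕ), 1 ≤ C → ∀ E1 E2 : ℕ → ℤ_[p] → ℂ,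
  LC C E1 → LC C E2 → ∀ m1 m2 m3 : ℂ → ℕ∞,
  (∀ T1 T2 : ℂ, T1 ≠ 0 → T2 ≠ 0 → ∀ a b : ℕ, 1 ≤ a → 1 ≤ b → (a : ℕ∞) ≤ m1 T1 →
    (b : ℕ∞) ≤ m2 T2 → ((a + b - 1 : ℕ) : ℕ∞) ≤ m3 (T1 * T2)) →
  (∀ χ : UC p, (fun e => hat E1 χ e) ∈ EP m1) → (∀ χ : UC p, (fun e => hat E2 χ e) ∈ EP m2) →
  ∀ χ : UC p, (fun e => hat (fun e u => E1 e u * E2 e u) χ e) ∈ EP m3

/-- Job D2: the contributions of the nonzero critical values. -/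
def StD2 : Prop := ∀ (p : ℕ) [Fact p.Prime] (C : ℕ) (E : ℕ → ℤ_[p] → ℂ), LC C E →
  ∀ Λ : ℤ_[p], Λ ≠ 0 → ∀ χ : UC p,
  (fun e => hat (fun e u => psi p e (u * Λ) * E e u) χ e) ∈ N0

/-- Job D3: the decomposition into balls. -/
def StD3 : Prop := ∀ (p : ℕ) [Fact p.Prime] (k0 : (Fin 2 → ℤ_[p]) → ℕ),
  ∃ S : Finset ((Fin 2 → ℤ_[p]) × ℕ), (∀ a ∈ S, k0 a.1 ≤ a.2) ∧
  ∀ h : (Fin 2 → ℤ_[p]) → ℂ, Measurable h → (∃ B : ℝ, ∀ z, ‖h z‖ ≤ B) →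
  ∫ x, h x ∂(Measure.pi fun _ => mu p) = ∑ a ∈ S, ((p : ℂ)⁻¹) ^ (2 * a.2) *
    ∫ y, h (fun i => a.1 i + (p : ℤ_[p]) ^ a.2 * y i) ∂(Measure.pi fun _ => mu p)

end Pool.Agent.N138.SV
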