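import Pool.Agent.Y230.PT.Cx
import Pool.Agent.N138.SV.Stm

set_option autoImplicit false
set_option linter.unusedSectionVars false
set_option linter.unusedVariables false

/-! # The complex side with periods in place of functional equations -/

namespace Pool.Agent.N138.SV

open Polynomial Pool.Agent.W574.SM Pool.Agent.Y230.PT

theorem chart0_form (r : MP) : ∃ (c : ℂ) (q : MP),
    MvPolynomial.aeval (chart 0) r = MvPolynomial.C c + MvPolynomial.X 0 * q := by
  induction r using MvPolynomial.induction_on with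
  | C a => exact ⟨a, 0, by rw [MvPolynomial.aeval_C, mul_zero, add_zero]; rfl⟩
  | add u v hu hv =>
    obtain ⟨c, q, h⟩ := hu
    obtain ⟨c', q', h'⟩ := hv
    exact ⟨c + c', q + q', by rw [map_add, h, h', map_add]; ring⟩
  | mul_X u i hu =>
    obtain ⟨c, q, h⟩ := hu
    obtain ⟨d, hd⟩ : ∃ d : MP, chart 0 i = MvPolynomial.X 0 * d := by
      fin_cases i
      · exact ⟨1, by rw [mul_one]; rfl⟩
      · exact ⟨MvPolynomial.X 1 + MvPolynomial.C 0, rfl⟩
    exact ⟨0, MvPolynomial.aeval (chart 0) u * d, by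
      rw [map_mul, MvPolynomial.aeval_X, hd, map_zero]; ring⟩


/-- **The structure of a critical exceptional curve.** -/
theorem crit_structP (h5a : StA5) (f : Fin 1 → MP) (g : Fin 1 → MP)
    (a0 n0 a1 n1 : ℕ) (hn0 : 1 ≤ n0) (hn1 : 1 ≤ n1) (hgeom : Geom f g a0 n0 a1 n1)
    (m : ℕ) (hm : 1 ≤ m) (gc : ℂ → Fin 1 → MP) (gI : Fin 1 → MP)
    (hgc : ∀ c j, MvPolynomial.aeval (chart c) (g j) = MvPolynomial.X 0 ^ m * gc c j)
    (hgI : ∀ j, MvPolynomial.aeval chartI (g j) = MvPolynomial.X 1 ^ m * gI j)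
    (j0 : Fin 1) (hPj0 : res0 (gc 0 j0) ≠ 0)
    (hJ1 : (n0 - 1) * m ≤ a0 ∧ (n1 - 1) * m ≤ a1)
    (hJ2 : 0 < a0 → (n0 - 1) * a1 < a0 * n1) (hJ2' : 0 < a1 → (n1 - 1) * a0 < a1 * n0)
    (hz0 : a0 = 0 → n0 = 1) (hz1 : a1 = 0 → n1 = 1) (s0 : ℂ) (hs0 : ¬ Per (f 0) s0)
    (hA : ((n0 + n1 : ℕ) : ℂ) + ((a0 + a1 + m : ℕ) : ℂ) * s0 = 0) :
    (res0 (gc 0 j0)).natDegree ≤ m ∧
    (n1 : ℂ) + s0 * ((a1 + (res0 (gc 0 j0)).rootMultiplicity 0 : ℕ) : ℂ) ≠ 0 ∧
    (n0 : ℂ) + s0 * ((a0 + (m - (res0 (gc 0 j0)).natDegree) : ℕ) : ℂ) ≠ 0 ∧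
    (∀ c, c ≠ 0 → 1 + s0 * ((res0 (gc 0 j0)).rootMultiplicity c : ℂ) ≠ 0) ∧
      ∃ T : Finset ℂ, (∀ c, c ∈ T ↔ c ≠ 0 ∧ (res0 (gc 0 j0)).rootMultiplicity c ≠ 0) ∧
        T.card ≤ 2 ∧
        (T.card = 1 → (a0 + (m - (res0 (gc 0 j0)).natDegree) = 0 ∧ n0 = 1) ∨
          (a1 + (res0 (gc 0 j0)).rootMultiplicity 0 = 0 ∧ n1 = 1)) ∧
        (T.card = 2 → (a0 + (m - (res0 (gc 0 j0)).natDegree) = 0 ∧ n0 = 1) ∧
          (a1 + (res0 (gc 0 j0)).rootMultiplicity 0 = 0 ∧ n1 = 1)) ∧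
        (res0 (gc 0 j0)).rootMultiplicity 0 + ∑ c ∈ T, (res0 (gc 0 j0)).rootMultiplicity c =
          (res0 (gc 0 j0)).natDegree ∧
        ((n0 : ℂ) + s0 * ((a0 + (m - (res0 (gc 0 j0)).natDegree) : ℕ) : ℂ)) +
          ((n1 : ℂ) + s0 * ((a1 + (res0 (gc 0 j0)).rootMultiplicity 0 : ℕ) : ℂ)) +
          ∑ c ∈ T, s0 * ((res0 (gc 0 j0)).rootMultiplicity c : ℂ) = 0 := by
  classical
  obtain ⟨ξ, W, W', hW, hW', hf, hJ⟩ := hgeom
  obtain ⟨hf0, hJ0⟩ := geom_chart_aux f g (gc 0) a0 n0 a1 n1 hn0 hn1 ξ W W' hf hJ m 0 (hgc 0)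
  rw [map_zero, add_zero] at hJ0
  simp only [map_zero, add_zero] at hf0
  set ξ0 : Fin 2 → MP := fun i => MvPolynomial.aeval (chart 0) (ξ i) with hξ0
  set a := a0 + a1 + m with ha
  set n := n0 + n1 with hn
  have hapos : 0 < a := by omega
  have hac : (a : ℂ) ≠ 0 := Nat.cast_ne_zero.2 hapos.ne'
  have hs : s0 = -(n : ℂ) / a := by
    rw [eq_div_iff hac]
    linear_combination hA
  set P : Fin 1 → ℂ[X] := fun j => res0 (gc 0 j) with hP
  have hPc : ∀ c j, res0 (gc c j) = (P j).comp (X + C c) := fun c j =>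
    res0_chart (g j) (gc 0 j) (gc c j) m c (hgc 0 j) (hgc c j)
  change P j0 ≠ 0 at hPj0
  set S : Finset ℂ := insert 0 (P j0).roots.toFinset with hSdef
  have hPS : ∀ c ∉ S, (P j0).eval c ≠ 0 := by
    intro c hc h
    apply hc
    rw [hSdef, Finset.mem_insert, Multiset.mem_toFinset]
    exact Or.inr ((mem_roots hPj0).2 h)
  set w := MvPolynomial.constantCoeff W with hw
  set w' := MvPolynomial.constantCoeff W' with hw'
  set G : Fin 1 → MP := fun j => MvPolynomial.X 1 ^ a1 * MvPolynomial.aeval (chart 0) W * gc 0 j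
    with hG
  set Jp : MP := MvPolynomial.X 1 ^ (n1 - 1) * MvPolynomial.aeval (chart 0) W' with hJp
  have hresG : ∀ j, res0 (G j) = C w * (X ^ a1 * P j) := by
    intro j
    rw [hG]
    simp only
    rw [map_mul, map_mul, map_pow, res0_X1, res0_chart_const]
    ring
  have hresJ : res0 Jp = C w' * X ^ (n1 - 1) := by
    rw [hJp, map_mul, map_pow, res0_X1, res0_chart_const]
    ring
  -- there is a rational solution
  have hsol : ∃ R : RatFunc ℂ, dR R + algebraMap ℂ (RatFunc ℂ) (-(n : ℂ) / a) *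
      (dR (resM RatFunc.X (G j0)) * (resM RatFunc.X (G j0))⁻¹) * R = resM RatFunc.X Jp := by
    by_contra hno
    push Not at hno
    apply hs0
    rw [hs]
    have hj : f 0 = f j0 := by rw [Subsingleton.elim (0 : Fin 1) j0]
    rw [hj]
    refine h5a dR RatFunc.X ?_ (f j0) ξ0 a n hapos (by omega) (G j0) (hf0 j0) Jp hJ0 ?_ ?_ hno
      (fun i => chart0_form (ξ i))
    · rw [← RatFunc.algebraMap_X, dR_algebraMap, derivative_X, map_one]
    · rw [resM_eq, hresJ]
      exact am_ne (mul_ne_zero (C_ne_zero.2 hW') (pow_ne_zero _ X_ne_zero))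
    · rw [resM_eq, hresG]
      exact am_ne (mul_ne_zero (C_ne_zero.2 hW) (mul_ne_zero (pow_ne_zero _ X_ne_zero) hPj0))
  obtain ⟨R, hR⟩ := hsol
  set Q : ℂ[X] := X ^ a1 * P j0 with hQ
  have hQ0 : Q ≠ 0 := mul_ne_zero (pow_ne_zero _ X_ne_zero) hPj0
  have hR' : dR R + algebraMap ℂ (RatFunc ℂ) (-(n : ℂ) / a) *
      (dR (algebraMap ℂ[X] (RatFunc ℂ) Q) * (algebraMap ℂ[X] (RatFunc ℂ) Q)⁻¹) * R
        = algebraMap ℂ[X] (RatFunc ℂ) (C w' * X ^ (n1 - 1)) := by
    rw [resM_eq, resM_eq, hresG, hresJ] at hR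
    rw [← hR]
    congr 3
    have h1 : algebraMap ℂ[X] (RatFunc ℂ) (C w * (X ^ a1 * P j0))
        = algebraMap ℂ (RatFunc ℂ) w * algebraMap ℂ[X] (RatFunc ℂ) Q := by
      rw [map_mul]; rfl
    rw [h1, Derivation.leibniz, Derivation.map_algebraMap, smul_zero, add_zero, smul_eq_mul]
    have hwne : algebraMap ℂ (RatFunc ℂ) w ≠ 0 := by
      rw [Ne, map_eq_zero]; exact hW
    have hQne := am_ne hQ0
    field_simp
  obtain ⟨A, hAne, hAeq⟩ := sol_poly Q hQ0 n a hapos w' hW' (n1 - 1) R hR'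
  have hdeg := coeff_resI (g j0) (gc 0 j0) (gI j0) m (hgc 0 j0) (hgI j0)
  have hbr := bracketT (P j0) hPj0 m a0 n0 a1 n1 hdeg.1 hm hn0 hn1 S (Finset.mem_insert_self _ _) hPS (by
      intro h
      by_cases ha1 : 0 < a1
      · have h1 := hJ2' ha1
        have h2 := hJ1.2
        have h3 : (n1 - 1) * a = (n1 - 1) * a0 + (n1 - 1) * a1 + (n1 - 1) * m := by
          rw [ha]; ring
        have h4 : (n1 - 1) * a1 + a1 = a1 * n1 := by
          have : n1 = (n1 - 1) + 1 := by omega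
          conv_rhs => rw [this]
          ring
        have h5 : n * (a1 + (P j0).rootMultiplicity 0)
            = a1 * n0 + a1 * n1 + n * (P j0).rootMultiplicity 0 := by
          rw [hn]; ring
        have h6 : 0 ≤ n * (P j0).rootMultiplicity 0 := Nat.zero_le _
        show (n1 - 1) * a < n * (a1 + (P j0).rootMultiplicity 0)
        omega
      · have h1 : a1 = 0 := by omega
        have h2 := hz1 h1
        rw [h2, Nat.sub_self, zero_mul]
        exact Nat.mul_pos (by omega) h) hz1 (by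
      intro h
      by_cases ha0 : 0 < a0
      · have h1 := hJ2 ha0
        have h2 := hJ1.1
        have h3 : (n0 - 1) * a = (n0 - 1) * a0 + (n0 - 1) * a1 + (n0 - 1) * m := by
          rw [ha]; ring
        have h4 : (n0 - 1) * a0 + a0 = a0 * n0 := by
          have : n0 = (n0 - 1) + 1 := by omega
          conv_rhs => rw [this]
          ring
        have h5 : n * (a0 + (m - (P j0).natDegree))
            = a0 * n0 + a0 * n1 + n * (m - (P j0).natDegree) := by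
          rw [hn]; ring
        have h6 : 0 ≤ n * (m - (P j0).natDegree) := Nat.zero_le _
        show (n0 - 1) * a < n * (a0 + (m - (P j0).natDegree))
        omega
      · have h1 : a0 = 0 := by omega
        have h2 := hz0 h1
        rw [h2, Nat.sub_self, zero_mul]
        exact Nat.mul_pos (by omega) h) hz0 w' hW' A hAne s0 hs (by rw [hs]; exact hAeq)
  exact ⟨hdeg.1, hbr⟩

/-- **The invariants of the children.** -/
theorem inv_childrenP (h5a : StA5) (f : Fin 1 → MP) (s0 : ℂ)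
    (hs0 : ¬ Per (f 0) s0) {g : Fin 1 → MP} {a0 n0 a1 n1 : ℕ} (m : ℕ) (hm : 1 ≤ m)
    (gc : ℂ → Fin 1 → MP) (gI : Fin 1 → MP)
    (hgc : ∀ c j, MvPolynomial.aeval (chart c) (g j) = MvPolynomial.X 0 ^ m * gc c j)
    (hgI : ∀ j, MvPolynomial.aeval chartI (g j) = MvPolynomial.X 1 ^ m * gI j)
    (j0 : Fin 1) (hP0 : res0 (gc 0 j0) ≠ 0) (inv : Inv f s0 g a0 n0 a1 n1) :
    Inv f s0 (gc 0) (a0 + a1 + m) (n0 + n1) a1 n1 ∧
    (∀ c, c ≠ 0 → Inv f s0 (gc c) (a0 + a1 + m) (n0 + n1) 0 1) ∧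
    Inv f s0 gI a0 n0 (a0 + a1 + m) (n0 + n1) := by
  classical
  have hn0 := inv.hn0
  have hn1 := inv.hn1
  have hmult : IsMult g m := ⟨⟨gc 0, hgc 0⟩, ⟨gI, hgI⟩⟩
  have hJ1 := inv.hJ1 m hmult
  -- a generator with nonzero leading form
  have hresc : ∀ c j, res0 (gc c j) = (res0 (gc 0 j)).comp (X + C c) := fun c j =>
    res0_chart (g j) (gc 0 j) (gc c j) m c (hgc 0 j) (hgc c j)
  set S : Finset ℂ := insert 0 (res0 (gc 0 j0)).roots.toFinset with hSdef
  have h0S : (0 : ℂ) ∈ S := Finset.mem_insert_self _ _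
  have hS : ∀ c ∉ S, ∃ j, MvPolynomial.constantCoeff (gc c j) ≠ 0 := by
    intro c hc
    refine ⟨j0, ?_⟩
    rw [← coeff_res0, hresc, coeff_zero_eq_eval_zero, eval_comp]
    simp only [eval_add, eval_X, eval_C, zero_add]
    intro h
    apply hc
    rw [hSdef, Finset.mem_insert, Multiset.mem_toFinset]
    exact Or.inr ((mem_roots hP0).2 h)
  have hdeg := coeff_resI (g j0) (gc 0 j0) (gI j0) m (hgc 0 j0) (hgI j0)
  have hPc : ∀ c, res0 (gc c j0) ≠ 0 ∧ (res0 (gc c j0)).natDegree ≤ m := by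
    intro c
    have h1 : (X + C c : ℂ[X]).natDegree = 1 := natDegree_X_add_C c
    constructor
    · intro h
      have h2 := ord_comp (res0 (gc 0 j0)) hP0 c
      rw [hresc] at h
      rw [h, coeff_zero] at h2
      exact h2.2 rfl
    · rw [hresc, natDegree_comp, h1, mul_one]
      exact hdeg.1
  have hPI : res1 (gI j0) ≠ 0 := by
    intro h
    have h2 := hdeg.2.2 (m - (res0 (gc 0 j0)).natDegree) (by omega)
    rw [h, coeff_zero] at h2
    have h3 : m - (m - (res0 (gc 0 j0)).natDegree) = (res0 (gc 0 j0)).natDegree := by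
      have := hdeg.1
      omega
    rw [h3] at h2
    exact hP0 (leadingCoeff_eq_zero.1 h2.symm)
  have hmc : ∀ c m', IsMult (gc c) m' → m' ≤ m := by
    intro c m' hm'
    obtain ⟨g', hg'⟩ := hm'.2
    exact le_of_dvd (hPc c).1 (hPc c).2 (res0_of_chartI (hg' j0))
  have hmI : ∀ m', IsMult gI m' → m' ≤ m := by
    intro m' hm'
    obtain ⟨g', hg'⟩ := hm'.1
    exact le_of_dvd hPI hdeg.2.1 (res1_of_chart0 (hg' j0))
  have hresI : ∀ j, res0 (g j) = X ^ m * res0 (gI j) := fun j => res0_of_chartI (hgI j)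
  have hres0 : ∀ j, res1 (g j) = X ^ m * res1 (gc 0 j) := fun j => res1_of_chart0 (hgc 0 j)
  -- the analysis of the new exceptional curve
  have han := fun hA => crit_structP h5a f g a0 n0 a1 n1 hn0 hn1 inv.geom m hm gc gI hgc hgI
    j0 hP0 hJ1 inv.hJ2 inv.hJ2' inv.hz0 inv.hz1 s0 hs0 hA
  have hord : ∀ c, Ord0 (gc c) ((res0 (gc 0 j0)).rootMultiplicity c) := by
    intro c
    obtain ⟨h1, h2⟩ := ord_comp (res0 (gc 0 j0)) hP0 c
    refine ⟨?_, ⟨j0, ?_⟩⟩
    · intro j l hl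
      rw [Subsingleton.elim j j0, hresc]
      exact h1 l hl
    · rw [hresc]; exact h2
  have hordI : Ord1 gI (m - (res0 (gc 0 j0)).natDegree) := by
    refine ⟨?_, ⟨j0, ?_⟩⟩
    · intro j l hl
      rw [Subsingleton.elim j j0, hdeg.2.2 _ (by omega)]
      exact coeff_eq_zero_of_natDegree_lt (by omega)
    · rw [hdeg.2.2 _ (by omega)]
      have h3 : m - (m - (res0 (gc 0 j0)).natDegree) = (res0 (gc 0 j0)).natDegree := by
        have := hdeg.1
        omega
      rw [h3]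
      exact fun h => hP0 (leadingCoeff_eq_zero.1 h)
  have haz : a0 + a1 + m = 0 → n0 + n1 = 1 := by omega
  have inv0 : Inv f s0 (gc 0) (a0 + a1 + m) (n0 + n1) a1 n1 :=
    { geom := geom_chart0 f g (gc 0) a0 n0 a1 n1 hn0 hn1 inv.geom m (hgc 0)
      hn0 := by omega
      hn1 := hn1
      hz0 := haz
      hz1 := inv.hz1
      hJ1 := fun m' hm' => ⟨arith3 a0 n0 a1 n1 m m' hn0 hn1 (hmc 0 m' hm') hJ1.1 hJ1.2,
        (Nat.mul_le_mul_left _ (hmc 0 m' hm')).trans hJ1.2⟩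
      hJ2 := fun _ => arith1 a0 n0 a1 n1 m hn0 hn1 hm inv.hz0 inv.hJ2
      hJ2' := fun ha1 => arith2 a0 n0 a1 n1 m hn0 hn1 ha1 hJ1.2 inv.hJ2'
      hH0 := by
        intro hA μ' hμ'
        obtain ⟨h1, h2, h3, h4, h5⟩ := han hA
        rw [← (hord 0).unique hμ']
        exact h2
      hH1 := by
        intro hA1 μ' hμ'
        have h2 := inv.hH1 hA1 (m + μ') (hμ'.shift hres0)
        intro h3
        apply h2
        push_cast at h3 ⊢
        linear_combination h3 - hA1 }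
  have invc : ∀ c, c ≠ 0 → Inv f s0 (gc c) (a0 + a1 + m) (n0 + n1) 0 1 := fun c hc0 =>
    { geom := geom_chart f g (gc c) a0 n0 a1 n1 hn0 hn1 inv.geom m c hc0 (hgc c)
      hn0 := by omega
      hn1 := le_rfl
      hz0 := haz
      hz1 := fun _ => rfl
      hJ1 := fun m' hm' => ⟨arith3 a0 n0 a1 n1 m m' hn0 hn1 (hmc c m' hm') hJ1.1 hJ1.2,
        by simp⟩
      hJ2 := fun h => by rw [mul_zero, mul_one]; exact h
      hJ2' := fun h => absurd h (lt_irrefl 0)
      hH0 := by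
        intro hA μ' hμ'
        obtain ⟨h1, h2, h3, h4, h5⟩ := han hA
        have h6 := h4 c hc0
        rw [(hord c).unique hμ'] at h6
        rw [zero_add]
        intro h7
        apply h6
        push_cast at h7 ⊢
        linear_combination h7
      hH1 := by
        intro hA1
        simp at hA1 }
  have invI : Inv f s0 gI a0 n0 (a0 + a1 + m) (n0 + n1) :=
    { geom := geom_chartI f g gI a0 n0 a1 n1 hn0 hn1 inv.geom m hgI
      hn0 := hn0
      hn1 := by omega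
      hz0 := inv.hz0
      hz1 := haz
      hJ1 := fun m' hm' => ⟨(Nat.mul_le_mul_left _ (hmI m' hm')).trans hJ1.1,
        arith3 a0 n0 a1 n1 m m' hn0 hn1 (hmI m' hm') hJ1.1 hJ1.2⟩
      hJ2 := fun ha0 => by
        have := arith2 a1 n1 a0 n0 m hn1 hn0 ha0 hJ1.1 inv.hJ2
        rwa [add_comm a1 a0, add_comm n1 n0] at this
      hJ2' := fun _ => by
        have := arith1 a1 n1 a0 n0 m hn1 hn0 hm inv.hz1 inv.hJ2'
        rwa [add_comm a1 a0, add_comm n1 n0] at this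
      hH0 := by
        intro hA0 μ' hμ'
        have h2 := inv.hH0 hA0 (m + μ') (hμ'.shift hresI)
        intro h3
        apply h2
        push_cast at h3 ⊢
        linear_combination h3 - hA0
      hH1 := by
        intro hA μ' hμ'
        obtain ⟨h1, h2, h3, h4, h5⟩ := han hA
        rw [← hordI.unique hμ']
        exact h3 }
  exact ⟨inv0, invc, invI⟩


end Pool.Agent.N138.SV
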