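import Pool.Agent.N138.SV.B1

set_option autoImplicit false
set_option linter.unusedSectionVars false
set_option linter.unusedVariables false

/-! # The local theorems with periods in place of functional equations -/

namespace Pool.Agent.N138.SV

open Pool.Agent.W574.SM Pool.Agent.Y230.RE Pool.Agent.Y230.PL Polynomial
open Pool.Agent.Y230.PT Pool.Agent.Y465.TH Pool.Agent.N138.SU

variable {p : ℕ} [Fact p.Prime]

attribute [local instance] msK bsK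

theorem closed_ICP (h5a : StA5) (φ : ℚ_[p] →+* ℂ) (f : Fin 1 → A ℚ_[p]) (r : ℂ)
    (hr : ¬ Per (mp φ (f 0)) r) : Closed (IC φ f r) where
  pos _ _ _ _ _ _ _ h := ⟨h.1.1, h.1.2.1⟩
  ty0 _ _ _ _ _ _ h := h.1.2.2.1 rfl
  ty1 _ _ _ _ _ _ h := h.1.2.2.2 rfl
  child g d0 d1 a0 n0 a1 n1 m gc gI hm hgc hgI hne h := by
    obtain ⟨hT, hI⟩ := h
    obtain ⟨t0, tc, tI⟩ := closed_TC.child g d0 d1 a0 n0 a1 n1 m gc gI hm hgc hgI hne hT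
    obtain ⟨j0, hj0⟩ := hne
    have hP0 : res0 (gcC φ (gc 0) 0 j0) ≠ 0 := by
      rw [gcC_0 φ hgc, ← mp_r0, Ne, Polynomial.map_eq_zero]
      exact hj0
    obtain ⟨i0, ic, iI⟩ := inv_childrenP h5a (fun j => mp φ (f j)) r hr m hm
      (fun c j => gcC φ (gc 0) c j) (fun j => mp φ (gI j))
      (fun c j => gcC_eq φ (hgc 0) c j) (chI_mp φ hgI) j0 hP0 hI
    refine ⟨⟨t0, ?_⟩, fun c hc => ⟨tc c hc, ?_⟩, ⟨tI, iI⟩⟩
    · have : (fun j => mp φ (gc 0 j)) = fun j => gcC φ (gc 0) 0 j := by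
        funext j
        rw [gcC_0 φ hgc]
      rw [this]
      exact i0
    · have : (fun j => mp φ (gc c j)) = fun j => gcC φ (gc 0) (φ c) j := by
        funext j
        rw [gcC_k φ hgc]
      rw [this]
      exact ic (φ c) (fun h => hc ((map_eq_zero φ).1 h))

section Curves

variable (h6a : StA6) (φ : ℚ_[p] →+* ℂ) (f : Fin 1 → A ℚ_[p]) (r : ℂ)

include h6a

theorem perV (g : Fin 1 → A ℚ_[p]) (d0 : Bool) (a0 n0 m : ℕ) (hm : 2 ≤ m)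
    (hc : IC φ f r g d0 false a0 n0 0 1) (h : A ℚ_[p]) (κ : Fin 1 → A ℚ_[p])
    (hgj : ∀ j, g j = h ^ m * κ j) (h0 : MvPolynomial.constantCoeff h = 0)
    (h1 : MvPolynomial.constantCoeff (MvPolynomial.pderiv 1 h) ≠ 0) (j : Fin 1)
    (hj : MvPolynomial.constantCoeff (κ j) ≠ 0) : Per (mp φ (f 0)) (-1 / (m : ℂ)) := by
  obtain ⟨ξ, W, W', hW, hW', hf, hJ⟩ := hc.2.geom
  refine h6a (mp φ (f 0)) ξ W W' hW hW' a0 n0 m hm (mp φ h) (mp φ (κ 0)) ?_ ?_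
    (by rw [mp_cc, h0, map_zero]) (by
      rw [mp_pderiv, mp_cc]
      exact fun h => h1 ((map_eq_zero φ).1 h)) (by
      rw [mp_cc]
      rw [Subsingleton.elim j 0] at hj
      exact fun h => hj ((map_eq_zero φ).1 h))
  · rw [hf 0]
    beta_reduce
    rw [hgj, pow_zero, mul_one, mp_mul, mp_pow]
  · rw [hJ, Nat.sub_self, pow_zero, mul_one]

theorem perU (g : Fin 1 → A ℚ_[p]) (d1 : Bool) (a1 n1 m : ℕ) (hm : 2 ≤ m)
    (hc : IC φ f r g false d1 0 1 a1 n1) (h : A ℚ_[p]) (κ : Fin 1 → A ℚ_[p])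
    (hgj : ∀ j, g j = h ^ m * κ j) (h0 : MvPolynomial.constantCoeff h = 0)
    (h1 : MvPolynomial.constantCoeff (MvPolynomial.pderiv 0 h) ≠ 0) (j : Fin 1)
    (hj : MvPolynomial.constantCoeff (κ j) ≠ 0) : Per (mp φ (f 0)) (-1 / (m : ℂ)) := by
  obtain ⟨ξ, W, W', hW, hW', hf, hJ⟩ := hc.2.geom
  refine h6a (mp φ (f 0)) (fun i => W574.SM.sw (ξ i)) (W574.SM.sw W) (- W574.SM.sw W')
    (by rwa [W574.SM.cc_sw]) (by rw [map_neg, W574.SM.cc_sw]; exact neg_ne_zero.2 hW') a1 n1 m hm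
    (W574.SM.sw (mp φ h)) (W574.SM.sw (mp φ (κ 0))) ?_ ?_
    (by rw [W574.SM.cc_sw, mp_cc, h0, map_zero]) (by
      rw [(W574.SM.pderiv_sw _).2, W574.SM.cc_sw, mp_pderiv, mp_cc]
      exact fun h => h1 ((map_eq_zero φ).1 h)) (by
      rw [W574.SM.cc_sw, mp_cc]
      rw [Subsingleton.elim j 0] at hj
      exact fun h => hj ((map_eq_zero φ).1 h))
  · rw [aeval_sw, hf 0]
    beta_reduce
    rw [hgj, pow_zero, one_mul, mp_mul, mp_pow]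
    simp only [map_mul, map_pow, W574.SM.sw_X1]
  · rw [jac_sw, hJ, Nat.sub_self, pow_zero, one_mul, map_mul, map_pow, W574.SM.sw_X1]
    ring

end Curves

theorem crit_rr {T0 : ℂ} (hT0 : T0 ≠ 0) {m : ℕ} (hm : 1 ≤ m) (h : Crit p T0 m 1) :
    ((rr p T0 : ℝ) : ℂ) = -1 / (m : ℂ) := by
  have hmc : (m : ℂ) ≠ 0 := Nat.cast_ne_zero.2 (by omega)
  rw [eq_div_iff hmc]
  have := crit_r hT0 m 1 h
  push_cast at this
  linear_combination this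

theorem crit_one {T0 : ℂ} (h : Crit p T0 1 1) : T0 = p := by
  unfold Crit at h
  rwa [pow_one, pow_one] at h

/-- the model of a critical exceptional curve -/
theorem specP (h5a : StA5) (φ : ℚ_[p] →+* ℂ) (f : Fin 1 → A ℚ_[p]) {T0 : ℂ} (hT0 : T0 ≠ 0)
    (hr : ¬ Per (mp φ (f 0)) ((rr p T0 : ℝ) : ℂ))
    (g : Fin 1 → A ℚ_[p]) (d0 d1 : Bool) (a0 n0 a1 n1 m : ℕ) (gc : ℚ_[p] → Fin 1 → A ℚ_[p])
    (gI : Fin 1 → A ℚ_[p]) (hm : 1 ≤ m)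
    (hgc : ∀ c j, MvPolynomial.aeval (ch c) (g j) = MvPolynomial.X 0 ^ m * gc c j)
    (hgI : ∀ j, MvPolynomial.aeval chI (g j) = MvPolynomial.X 1 ^ m * gI j)
    (hne' : ∃ j, r0 (gc 0 j) ≠ 0) (hc : IC φ f ((rr p T0 : ℝ) : ℂ) g d0 d1 a0 n0 a1 n1)
    (hcrit : Crit p T0 (a0 + a1 + m) (n0 + n1)) :
    ∃ (lam : Fin 1 → ℚ_[p]) (P : Polynomial ℚ_[p]) (γ : ℚ_[p]) (μ0 : ℕ) (T : Finset ℚ_[p])
        (μ : ℚ_[p] → ℕ), (∀ j, r0 (gc 0 j) = Polynomial.C (lam j) * P) ∧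
        Spec T0 P m a0 n0 a1 n1 γ μ0 T μ := by
  set r : ℂ := ((rr p T0 : ℝ) : ℂ) with hrdef
  have hcr : ∀ a n : ℕ, Crit p T0 a n → (n : ℂ) + r * (a : ℂ) = 0 := fun a n h => crit_r hT0 a n h
  have hcr' : ∀ a n : ℕ, Crit p T0 a n → (n : ℂ) + (a : ℂ) * r = 0 := fun a n h => by
    rw [mul_comm]
    exact hcr a n h
  obtain ⟨j0, hj0⟩ := hne'
  have hI := hc.2
  have hP0 : res0 (gcC φ (gc 0) 0 j0) ≠ 0 := by
    rw [gcC_0 φ hgc, ← mp_r0, Ne, Polynomial.map_eq_zero]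
    exact hj0
  have hmult : IsMult (fun j => mp φ (g j)) m :=
    ⟨⟨fun j => gcC φ (gc 0) 0 j, fun j => gcC_eq φ (hgc 0) 0 j⟩,
      ⟨fun j => mp φ (gI j), fun j => chI_mp φ hgI j⟩⟩
  obtain ⟨hdeg, hA0, hAI, hAc, T, hT, hcard, h1, h2, hsum, hrel⟩ :=
    crit_structP h5a (fun j => mp φ (f j)) (fun j => mp φ (g j)) a0 n0 a1 n1 hI.hn0 hI.hn1
      hI.geom m hm (fun c j => gcC φ (gc 0) c j) (fun j => mp φ (gI j))
      (fun c j => gcC_eq φ (hgc 0) c j) (chI_mp φ hgI) j0 hP0 (hI.hJ1 m hmult) hI.hJ2 hI.hJ2'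
      hI.hz0 hI.hz1 r hr (hcr' _ _ hcrit)
  have hPP : res0 (gcC φ (gc 0) 0 j0) = (r0 (gc 0 j0)).map φ := by
    rw [gcC_0 φ hgc, ← mp_r0]
  rw [hPP] at hdeg hA0 hAI hsum hrel h1 h2
  simp only [hPP] at hAc hT hsum hrel
  obtain ⟨γ, μ0, T', μ, hS⟩ := spec_of φ T0 r hcr (r0 (gc 0 j0)) hj0 m a0 n0 a1 n1 hdeg hA0 hAI
    hAc T hT hcard h1 h2 hsum hrel
  refine ⟨fun _ => 1, r0 (gc 0 j0), γ, μ0, T', μ, fun j => ?_, hS⟩
  rw [Subsingleton.elim j j0, map_one, one_mul]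

theorem ic_init (φ : ℚ_[p] →+* ℂ) (f : Fin 1 → A ℚ_[p]) (r : ℂ) (P : Fin 2 → ℚ_[p]) :
    IC φ f r (nd f P) false false 0 1 0 1 :=
  ⟨⟨le_rfl, le_rfl, fun _ => ⟨rfl, rfl⟩, fun _ => ⟨rfl, rfl⟩⟩, by
      have h1 : (fun j => mp φ (nd f P j)) = fun j => W574.SM.translate (fun i => φ (P i))
          (mp φ (f j)) := by
        funext j
        exact mp_tr φ P (f j)
      rw [h1]
      exact inv_initial _ r _⟩

/-- both curves at a unit leaf are not critical -/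
theorem leaf_unit (φ : ℚ_[p] →+* ℂ) (f : Fin 1 → A ℚ_[p]) {T0 : ℂ} (hT0 : T0 ≠ 0)
    (g : Fin 1 → A ℚ_[p]) (d0 d1 : Bool) (a0 n0 a1 n1 : ℕ)
    (hc : IC φ f ((rr p T0 : ℝ) : ℂ) g d0 d1 a0 n0 a1 n1) (j : Fin 1)
    (hj : MvPolynomial.constantCoeff (g j) ≠ 0) (h1 : Crit p T0 a0 n0) : ¬ Crit p T0 a1 n1 := by
  intro h2
  have ho : Ord0 (fun j => mp φ (g j)) 0 := ⟨fun i k hk => absurd hk (Nat.not_lt_zero k), j, by
    rw [coeff_res0, mp_cc]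
    exact fun h => hj ((map_eq_zero φ).1 h)⟩
  have h3 := hc.2.hH0 (by rw [mul_comm]; exact crit_r hT0 _ _ h1) 0 ho
  rw [add_zero] at h3
  exact h3 (crit_r hT0 _ _ h2)

/-- **The twisted local theorem.** -/
theorem local_xP (h5a : StA5) (h6a : StA6) (χ : UC p) (hχ : ¬ χ.IsTr) (φ : ℚ_[p] →+* ℂ)
    (f : Fin 1 → A ℚ_[p]) {T0 : ℂ} (hT0 : T0 ≠ 0)
    (hr : ¬ Per (mp φ (f 0)) ((rr p T0 : ℝ) : ℂ)) (P : Fin 2 → ℚ_[p]) (hne : ∃ j, f j ≠ 0) :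
    LReg T0 0 (Zx (Hx χ (nd f P) 0 1 0 1)) (0, 0) := by
  have hT : KT (nd f P) false false := exists_KT _ false false (tr_ne_zero f P hne) (by simp)
    (by simp)
  have hcurve : ∀ m : ℕ, 1 ≤ m → (2 ≤ m → Per (mp φ (f 0)) (-1 / (m : ℂ))) →
      ¬ Cr χ T0 m 1 := by
    intro m hm h1 h2
    by_cases hm2 : 2 ≤ m
    · apply hr
      rw [crit_rr hT0 hm h2.1]
      exact h1 hm2
    · have hm1 : m = 1 := by omega
      subst hm1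
      apply hχ
      intro u hu
      have := h2.2 u hu
      rwa [pow_one] at this
  exact lreg_of_CCx χ (main_X χ hT0 (T0' := T0) (fun a n h => h.1)
    (IC φ f ((rr p T0 : ℝ) : ℂ)) (closed_ICP h5a φ f _ hr)
    (fun g d0 d1 a0 n0 a1 n1 hc j hj h => leaf_unit φ f hT0 g d0 d1 a0 n0 a1 n1 hc j hj h.1.1 h.2.1)
    (fun g d0 a0 n0 m hm hc h κ hgj h0 h1 j hj => hcurve m hm fun hm2 =>
      perV h6a φ f _ g d0 a0 n0 m hm2 hc h κ hgj h0 h1 j hj)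
    (fun g d1 a1 n1 m hm hc h κ hgj h0 h1 j hj => hcurve m hm fun hm2 =>
      perU h6a φ f _ g d1 a1 n1 m hm2 hc h κ hgj h0 h1 j hj)
    (fun g d0 d1 a0 n0 a1 n1 m gc gI hm hgc hgI hne' hc hcrit =>
      specP h5a φ f hT0 hr g d0 d1 a0 n0 a1 n1 m gc gI hm hgc hgI hne' hc hcrit)
    (fun g d0 d1 a0 n0 a1 n1 hc hcrit ρ hρ h =>
      hc.2.hH0 (by rw [mul_comm]; exact crit_r hT0 _ _ hcrit.1) ρ (ord0_mp φ hρ)
        (crit_r hT0 _ _ h.1))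
    (fun g d0 d1 a0 n0 a1 n1 hc hcrit ρ hρ h =>
      hc.2.hH1 (by rw [mul_comm]; exact crit_r hT0 _ _ hcrit.1) ρ (ord1_mp φ hρ)
        (crit_r hT0 _ _ h.1))
    hT 0 1 0 1 (ic_init φ f _ P))

/-- **The local theorem, away from `p`.** -/
theorem local_cP (h5a : StA5) (h6a : StA6) (φ : ℚ_[p] →+* ℂ)
    (f : Fin 1 → A ℚ_[p]) {T0 : ℂ} (hT0 : T0 ≠ 0) (hTp : T0 ≠ p)
    (hr : ¬ Per (mp φ (f 0)) ((rr p T0 : ℝ) : ℂ)) (P : Fin 2 → ℚ_[p]) (hne : ∃ j, f j ≠ 0) :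
    LReg T0 0 (Zc (Hn (nd f P) 0 1 0 1)) (0, 0) := by
  have hT : KT (nd f P) false false := exists_KT _ false false (tr_ne_zero f P hne) (by simp)
    (by simp)
  have hcurve : ∀ m : ℕ, 1 ≤ m → (2 ≤ m → Per (mp φ (f 0)) (-1 / (m : ℂ))) →
      ¬ Crit p T0 m 1 := by
    intro m hm h1 h2
    by_cases hm2 : 2 ≤ m
    · apply hr
      rw [crit_rr hT0 hm h2]
      exact h1 hm2
    · have hm1 : m = 1 := by omega
      subst hm1
      exact hTp (crit_one h2)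
  have hCC := main_C hT0 (IC φ f ((rr p T0 : ℝ) : ℂ)) (closed_ICP h5a φ f _ hr)
    (fun g d0 d1 a0 n0 a1 n1 hc j hj h => leaf_unit φ f hT0 g d0 d1 a0 n0 a1 n1 hc j hj h.1 h.2)
    (fun g d0 a0 n0 m hm hc h κ hgj h0 h1 j hj => hcurve m hm fun hm2 =>
      perV h6a φ f _ g d0 a0 n0 m hm2 hc h κ hgj h0 h1 j hj)
    (fun g d1 a1 n1 m hm hc h κ hgj h0 h1 j hj => hcurve m hm fun hm2 =>
      perU h6a φ f _ g d1 a1 n1 m hm2 hc h κ hgj h0 h1 j hj)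
    (fun g d0 d1 a0 n0 a1 n1 m gc gI hm hgc hgI hne' hc hcrit =>
      specP h5a φ f hT0 hr g d0 d1 a0 n0 a1 n1 m gc gI hm hgc hgI hne' hc hcrit)
    (fun g d0 d1 a0 n0 a1 n1 hc hcrit ρ hρ h =>
      hc.2.hH0 (by rw [mul_comm]; exact crit_r hT0 _ _ hcrit) ρ (ord0_mp φ hρ)
        (crit_r hT0 _ _ h))
    (fun g d0 d1 a0 n0 a1 n1 hc hcrit ρ hρ h =>
      hc.2.hH1 (by rw [mul_comm]; exact crit_r hT0 _ _ hcrit) ρ (ord1_mp φ hρ)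
        (crit_r hT0 _ _ h))
    hT 0 1 0 1 (ic_init φ f _ P)
  refine (hCC 0 0 (fun h => absurd h not_crit01) (fun h => absurd h not_crit01)).congr
    isOpen_univ trivial fun C _ _ s _ => ?_
  rw [crr_false not_crit01, crr_false not_crit01, sub_zero, sub_zero]

/-- **The local theorem at `p`.** -/
theorem local_pP (h5a : StA5) (φ : ℚ_[p] →+* ℂ)
    (f : Fin 1 → A ℚ_[p]) {T0 : ℂ} (hT0 : T0 ≠ 0)
    (hr : ¬ Per (mp φ (f 0)) ((rr p T0 : ℝ) : ℂ)) (P : Fin 2 → ℚ_[p]) (hne : ∃ j, f j ≠ 0) :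
    LReg T0 1 (Zc (Hn (nd f P) 0 1 0 1)) (0, 0) := by
  have hT : KT (nd f P) false false := exists_KT _ false false (tr_ne_zero f P hne) (by simp)
    (by simp)
  refine main_M hT0 1 (IC φ f ((rr p T0 : ℝ) : ℂ)) (closed_ICP h5a φ f _ hr) ?_ ?_ ?_ hT 0 1 0 1
    (ic_init φ f _ P)
  · intro g d0 d1 a0 n0 a1 n1 hc j hj
    refine Or.inr (Or.inl ⟨rfl, ?_⟩)
    rw [← not_and_or]
    rintro ⟨h5, h6⟩
    exact leaf_unit φ f hT0 g d0 d1 a0 n0 a1 n1 hc j hj h5 h6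
  · intro g d0 a0 n0 m hm hc h κ hg h0 h1 j hj
    refine Or.inr (Or.inl ⟨rfl, ?_⟩)
    rw [← not_and_or]
    rintro ⟨h5, h6⟩
    obtain ⟨_, _, _, _, _, hO, _⟩ := Hn_curve g m h κ hg h0 h1 j hj 0 1
    refine hc.2.hH0 (by rw [mul_comm]; exact crit_r hT0 _ _ h5) m (ord0_mp φ hO) ?_
    rw [zero_add]
    exact crit_r hT0 _ _ h6
  · intro g d1 a1 n1 m hm hc h κ hg h0 h1 j hj
    refine Or.inr (Or.inl ⟨rfl, ?_⟩)
    rw [← not_and_or]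
    rintro ⟨h5, h6⟩
    obtain ⟨_, _, _, _, _, hO, _⟩ := Hn_curve (fun j => Y230.PT.sw (g j)) m (Y230.PT.sw h)
      (fun j => Y230.PT.sw (κ j)) (fun i => by simp only [hg, map_mul, map_pow])
      (by rw [Y230.PT.cc_sw, h0]) (by rw [Y230.PT.pderiv_sw, Y230.PT.cc_sw]; exact h1) j
      (by rw [Y230.PT.cc_sw]; exact hj) 0 1
    simp only [r0_sw] at hO
    refine hc.2.hH1 (by rw [mul_comm]; exact crit_r hT0 _ _ h5) m (ord1_mp φ hO) ?_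
    rw [zero_add]
    exact crit_r hT0 _ _ h6

end Pool.Agent.N138.SV
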