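import Pool.Agent.N138.SV.B3

set_option autoImplicit false
set_option linter.unusedSectionVars false
set_option linter.unusedVariables false

/-! # The decomposition of the exponential sums of a plane curve -/

namespace Pool.Agent.N138.SV

open MeasureTheory Pool.Agent.W574.SM Pool.Agent.Y230.RE Pool.Agent.Y230.PL Polynomial
open Pool.Agent.Y230.PT Pool.Agent.Y465.TH Pool.Agent.Y230.PS Pool.Agent.Y230.TH
open Pool.Agent.W427.SMC (msZ bsZ mu tr' tr'_pos tr'_lt tr'_le Conv exists_s)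
open Pool.Agent.N138.SU

variable {p : ℕ} [Fact p.Prime]

attribute [local instance] msK bsK msZ bsZ

/-- the function near a point -/
noncomputable def loc (φ : (Fin 2 → ℤ_[p]) → ℤ_[p]) (a : (Fin 2 → ℤ_[p]) × ℕ)
    (y : Fin 2 → ℤ_[p]) : ℤ_[p] :=
  φ (fun i => a.1 i + (p : ℤ_[p]) ^ a.2 * y i) - φ a.1

/-- the polynomial near a point -/
noncomputable def locP (g : A ℚ_[p]) (c : ℚ_[p]) (a : (Fin 2 → ℤ_[p]) × ℕ) : A ℚ_[p] :=
  MvPolynomial.aeval (fun i => MvPolynomial.C ((p : ℚ_[p]) ^ a.2) * MvPolynomial.X i +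
    MvPolynomial.C (inc p (a.1 i))) g - MvPolynomial.C c

theorem eval_locP (g : A ℚ_[p]) (c : ℚ_[p]) (a : (Fin 2 → ℤ_[p]) × ℕ) (x : Fin 2 → ℚ_[p]) :
    MvPolynomial.eval x (locP g c a) =
      MvPolynomial.eval (fun i => inc p (a.1 i) + (p : ℚ_[p]) ^ a.2 * x i) g - c := by
  unfold locP
  rw [map_sub, MvPolynomial.eval_C]
  congr 1
  have h : ((MvPolynomial.aeval x : A ℚ_[p] →ₐ[ℚ_[p]] ℚ_[p]).comp
      (MvPolynomial.aeval (fun i => MvPolynomial.C ((p : ℚ_[p]) ^ a.2) * MvPolynomial.X i +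
        MvPolynomial.C (inc p (a.1 i))) : A ℚ_[p] →ₐ[ℚ_[p]] A ℚ_[p])) =
      MvPolynomial.aeval (fun i => inc p (a.1 i) + (p : ℚ_[p]) ^ a.2 * x i) := by
    refine MvPolynomial.algHom_ext fun i => ?_
    simp only [AlgHom.comp_apply, MvPolynomial.aeval_X, map_add, map_mul]
    have e1 : ∀ c : ℚ_[p], (MvPolynomial.aeval x : A ℚ_[p] →ₐ[ℚ_[p]] ℚ_[p])
        (MvPolynomial.C c) = c := fun c => MvPolynomial.aeval_C x c
    rw [e1, e1, add_comm]
  have h2 := congrArg (fun ψ : A ℚ_[p] →ₐ[ℚ_[p]] ℚ_[p] => ψ g) h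
  simp only [AlgHom.comp_apply, MvPolynomial.aeval_eq_eval] at h2
  simpa [MvPolynomial.aeval_eq_eval] using h2

theorem locP_ne (g : A ℚ_[p]) (hg : ∀ c, g ≠ MvPolynomial.C c) (c : ℚ_[p])
    (a : (Fin 2 → ℤ_[p]) × ℕ) : locP g c a ≠ 0 := by
  intro h
  have hp0 : (p : ℚ_[p]) ^ a.2 ≠ 0 :=
    pow_ne_zero _ (by exact_mod_cast (Fact.out : p.Prime).ne_zero)
  apply hg c
  refine MvPolynomial.funext fun x => ?_
  have h1 := eval_locP g c a (fun i => ((p : ℚ_[p]) ^ a.2)⁻¹ * (x i - inc p (a.1 i)))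
  rw [h, map_zero] at h1
  have h2 : (fun i => inc p (a.1 i) + (p : ℚ_[p]) ^ a.2 *
      (((p : ℚ_[p]) ^ a.2)⁻¹ * (x i - inc p (a.1 i)))) = x := by
    funext i
    field_simp
    ring
  rw [h2] at h1
  rw [MvPolynomial.eval_C]
  exact (sub_eq_zero.1 h1.symm)

theorem locP_per (h3a : StA3) (emb : ℚ_[p] →+* ℂ) (g : A ℚ_[p]) (c : ℚ_[p])
    (a : (Fin 2 → ℤ_[p]) × ℕ) (e0 : ℂ) (h : Per (mp emb (locP g c a)) e0) :
    Per (mp emb g - MvPolynomial.C (emb c)) e0 := by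
  have hp0 : (p : ℚ_[p]) ^ a.2 ≠ 0 :=
    pow_ne_zero _ (by exact_mod_cast (Fact.out : p.Prime).ne_zero)
  refine h3a _ 1 (emb ((p : ℚ_[p]) ^ a.2)) (fun i => emb (inc p (a.1 i))) e0 one_ne_zero
    (fun h0 => hp0 ((map_eq_zero emb).1 h0)) ?_
  have e : (MvPolynomial.C (1 : ℂ) * MvPolynomial.aeval (fun i =>
      MvPolynomial.C (emb ((p : ℚ_[p]) ^ a.2)) * MvPolynomial.X i +
        MvPolynomial.C (emb (inc p (a.1 i)))) (mp emb g - MvPolynomial.C (emb c)) :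
      MvPolynomial (Fin 2) ℂ) = mp emb (locP g c a) := by
    rw [map_one, one_mul, map_sub]
    unfold locP mp
    rw [map_sub, MvPolynomial.map_C]
    have e1 : (MvPolynomial.aeval (fun i =>
      MvPolynomial.C (emb ((p : ℚ_[p]) ^ a.2)) * MvPolynomial.X i +
        MvPolynomial.C (emb (inc p (a.1 i)))) (MvPolynomial.C (emb c)) :
      MvPolynomial (Fin 2) ℂ) = MvPolynomial.C (emb c) := MvPolynomial.aeval_C _ _
    rw [e1]
    congr 1
    clear h
    induction g using MvPolynomial.induction_on with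
    | C c =>
      rw [MvPolynomial.map_C]
      have e2 : (MvPolynomial.aeval (fun i : Fin 2 => MvPolynomial.C ((p : ℚ_[p]) ^ a.2) *
        MvPolynomial.X i + MvPolynomial.C (inc p (a.1 i))) (MvPolynomial.C c : A ℚ_[p]) :
          A ℚ_[p]) = MvPolynomial.C c := MvPolynomial.aeval_C _ _
      rw [e2, MvPolynomial.map_C]
      exact MvPolynomial.aeval_C _ _
    | add u v hu hv => rw [map_add, map_add, map_add, map_add, hu, hv]
    | mul_X u i hu =>
      rw [map_mul, map_mul, map_mul, map_mul, hu, MvPolynomial.map_X, MvPolynomial.aeval_X,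
        MvPolynomial.aeval_X, map_add, map_mul, MvPolynomial.map_C, MvPolynomial.map_C,
        MvPolynomial.map_X]
  rw [e]
  exact h

section Pieces

variable (h3a : StA3) (h5a : StA5) (h6a : StA6) (hC4 : StC4) (hD3 : StD3) (emb : ℚ_[p] →+* ℂ)
  (g : A ℚ_[p]) (hg : ∀ c, g ≠ MvPolynomial.C c) (φ : (Fin 2 → ℤ_[p]) → ℤ_[p])
  (hφ : ∀ x, inc p (φ x) = MvPolynomial.eval (fun i => inc p (x i)) g)

include hφ

theorem loc_val (a : (Fin 2 → ℤ_[p]) × ℕ) (x : Fin 2 → ℤ_[p]) :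
    inc p (loc φ a x) = MvPolynomial.eval (fun i => inc p (x i)) (locP g (inc p (φ a.1)) a) := by
  unfold loc
  rw [eval_locP, inc_sub, hφ (fun i => a.1 i + (p : ℤ_[p]) ^ a.2 * x i)]
  congr 1

include h3a h5a h6a hg

theorem loc_EP (a : (Fin 2 → ℤ_[p]) × ℕ) (χ : UC p) :
    (fun e => hat (Es (Measure.pi fun _ : Fin 2 => mu p) (loc φ a)) χ e) ∈
      EP (mP p (mp emb g - MvPolynomial.C (emb (inc p (φ a.1))))) := by
  have h1 := cu_Eh h5a h6a emb (locP g (inc p (φ a.1)) a) (locP_ne g hg _ a) (loc φ a)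
    (loc_val g φ hφ a) χ
  refine EP_mono (fun T hT => ?_) h1
  by_cases h : 1 < ‖T‖ ∧ Per (mp emb (locP g (inc p (φ a.1)) a)) ((rr p T : ℝ) : ℂ)
  · rw [mP_top h.1 (locP_per h3a emb g _ a _ h.2)]
    exact le_top
  · refine le_trans (le_of_eq ?_) bot_le
    unfold mP
    rw [if_neg h]
    rfl

include hC4 hD3

/-- **The pieces.** -/
theorem pieces : ∃ (S : Finset ((Fin 2 → ℤ_[p]) × ℕ)) (N : ℕ),
    (∀ (e : ℕ) (u : ℤ_[p]), Es (Measure.pi fun _ : Fin 2 => mu p) φ e u =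
      ∑ a ∈ S, ((p : ℂ)⁻¹) ^ (2 * a.2) * (psi p e (u * φ a.1) *
        Es (Measure.pi fun _ : Fin 2 => mu p) (loc φ a) e u)) ∧
    (∀ a ∈ S, LC N (Es (Measure.pi fun _ : Fin 2 => mu p) (loc φ a))) ∧
    ∀ a ∈ S, ∀ χ : UC p, (fun e => hat (Es (Measure.pi fun _ : Fin 2 => mu p) (loc φ a)) χ e) ∈
      EP (mP p (mp emb g - MvPolynomial.C (emb (inc p (φ a.1))))) := by
  classical
  have hm : Measurable φ := cu_meas g φ hφ
  have hp1 : ((p : ℝ)⁻¹) < 1 := inv_lt_one_of_one_lt₀ (by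
    exact_mod_cast (Fact.out : p.Prime).one_lt)
  have hp0 : 0 < ((p : ℝ)⁻¹) := inv_pos.2 (by exact_mod_cast (Fact.out : p.Prime).pos)
  choose k0 hk0 using hC4 p g φ hφ
  obtain ⟨S, hS1, hS2⟩ := hD3 p k0
  have hC : ∀ a ∈ S, ∃ N : ℕ, LC N (Es (Measure.pi fun _ : Fin 2 => mu p) (loc φ a)) := by
    intro a ha
    obtain ⟨N, _, hN⟩ := hk0 a.1 a.2 (hS1 a ha)
    refine ⟨N, fun e u v hv => ?_⟩
    have h1 := hN v hv (fun z => psi p e (u * z))
      ((Pool.Agent.N138.SU.B3.psi_meas e).comp (measurable_const.mul measurable_id))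
      ⟨1, fun z => (Pool.Agent.N138.SU.B3.psi_norm e _).le⟩
    unfold Es
    simp only [mul_assoc]
    exact h1
  choose! N hN using hC
  refine ⟨S, ∑ a ∈ S, N a, fun e u => ?_, fun a ha e u v hv => ?_, fun a ha χ =>
    loc_EP h3a h5a h6a emb g hg φ hφ a χ⟩
  · unfold Es
    rw [hS2 (fun x => psi p e (u * φ x))
      ((Pool.Agent.N138.SU.B3.psi_meas e).comp (measurable_const.mul hm))
      ⟨1, fun z => (Pool.Agent.N138.SU.B3.psi_norm e _).le⟩]
    refine Finset.sum_congr rfl fun a _ => ?_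
    congr 1
    rw [← integral_const_mul]
    refine integral_congr_ae (Filter.Eventually.of_forall fun y => ?_)
    change psi p e (u * φ (fun i => a.1 i + (p : ℤ_[p]) ^ a.2 * y i)) = psi p e (u * φ a.1) *
      psi p e (u * loc φ a y)
    rw [← Pool.Agent.N138.SU.B3.psi_add]
    unfold loc
    congr 1
    ring
  · refine hN a ha e u v (hv.trans ?_)
    exact pow_le_pow_of_le_one hp0.le hp1.le (Finset.single_le_sum
      (f := N) (fun _ _ => Nat.zero_le _) ha)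

end Pieces

end Pool.Agent.N138.SV
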