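import Pool.Agent.N138.SV.B4
import Pool.Agent.W574.HS.Minus

set_option autoImplicit false
set_option linter.unusedSectionVars false
set_option linter.unusedVariables false

/-! # The sums of plane curves -/

namespace Pool.Agent.N138.SV

open MeasureTheory Pool.Agent.W574.SM Pool.Agent.Y230.RE Pool.Agent.Y230.PL Polynomial
open Pool.Agent.Y230.PT Pool.Agent.Y465.TH Pool.Agent.Y230.PS Pool.Agent.Y230.TH
open Pool.Agent.W427.SMC (msZ bsZ mu tr' tr'_pos tr'_lt tr'_le Conv exists_s)
open Pool.Agent.N138.SU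

variable {p : ℕ} [Fact p.Prime]

attribute [local instance] msK bsK msZ bsZ

section Prod

variable {ι : Type} [Fintype ι] [DecidableEq ι]

/-- the multiplicities of the products -/
noncomputable def mS (p : ℕ) [Fact p.Prime] (q : ι → MvPolynomial (Fin 2) ℂ) (s : Finset ι)
    (T : ℂ) : ℕ∞ := open Classical in
  if ∃ T' : ι → ℂ, (∀ i ∈ s, 1 < ‖T' i‖ ∧ Per (q i) ((rr p (T' i) : ℝ) : ℂ)) ∧
    ∏ i ∈ s, T' i = T then ⊤ else 0

theorem mS_top {q : ι → MvPolynomial (Fin 2) ℂ} {s : Finset ι} {T : ℂ} (T' : ι → ℂ)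
    (h : ∀ i ∈ s, 1 < ‖T' i‖ ∧ Per (q i) ((rr p (T' i) : ℝ) : ℂ)) (h2 : ∏ i ∈ s, T' i = T) :
    mS p q s T = ⊤ := by
  unfold mS
  rw [if_pos ⟨T', h, h2⟩]

theorem mS_le {q : ι → MvPolynomial (Fin 2) ℂ} {s : Finset ι} {T : ℂ} {a : ℕ} (ha : 1 ≤ a)
    (h : (a : ℕ∞) ≤ mS p q s T) : ∃ T' : ι → ℂ,
    (∀ i ∈ s, 1 < ‖T' i‖ ∧ Per (q i) ((rr p (T' i) : ℝ) : ℂ)) ∧ ∏ i ∈ s, T' i = T := by
  by_contra hn
  unfold mS at h
  rw [if_neg hn] at h
  have : (a : ℕ∞) = 0 := le_antisymm h bot_le
  have h2 : a = 0 := by exact_mod_cast this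
  omega

theorem LC_prod {N : ℕ} {E : ι → ℕ → ℤ_[p] → ℂ} (hE : ∀ i, LC N (E i)) (s : Finset ι) :
    LC N (fun e u => ∏ i ∈ s, E i e u) := by
  intro e u v hv
  exact Finset.prod_congr rfl fun i _ => hE i e u v hv

theorem prod_EP (hD1 : StD1) {N : ℕ} (hN : 1 ≤ N) {E : ι → ℕ → ℤ_[p] → ℂ} (hE : ∀ i, LC N (E i))
    (q : ι → MvPolynomial (Fin 2) ℂ)
    (h : ∀ i, ∀ χ : UC p, (fun e => hat (E i) χ e) ∈ EP (mP p (q i))) (s : Finset ι)
    (hs : s.Nonempty) : ∀ χ : UC p, (fun e => hat (fun e u => ∏ i ∈ s, E i e u) χ e) ∈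
      EP (mS p q s) := by
  induction hs using Finset.Nonempty.cons_induction with
  | singleton j =>
    intro χ
    have h1 : (fun (e : ℕ) (u : ℤ_[p]) => ∏ i ∈ {j}, E i e u) = E j := by
      funext e u
      rw [Finset.prod_singleton]
    rw [h1]
    refine EP_mono (fun T hT => ?_) (h j χ)
    by_cases h2 : 1 < ‖T‖ ∧ Per (q j) ((rr p T : ℝ) : ℂ)
    · rw [mS_top (fun _ => T) (fun i hi => by rw [Finset.mem_singleton.1 hi]; exact h2)
        (Finset.prod_singleton _ _)]
      exact le_top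
    · refine le_trans (le_of_eq ?_) bot_le
      unfold mP
      rw [if_neg h2]
      rfl
  | cons j s hj hs ih =>
    intro χ
    have h1 : (fun (e : ℕ) (u : ℤ_[p]) => ∏ i ∈ Finset.cons j s hj, E i e u) =
        fun e u => E j e u * ∏ i ∈ s, E i e u := by
      funext e u
      rw [Finset.prod_cons]
    rw [h1]
    refine hD1 p N hN (E j) (fun e u => ∏ i ∈ s, E i e u) (hE j) (LC_prod hE s) (mP p (q j))
      (mS p q s) (mS p q (Finset.cons j s hj)) (fun T1 T2 _ _ a b ha hb h2 h3 => ?_) (h j) ih χ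
    obtain ⟨k1, k2⟩ := mP_le ha h2
    obtain ⟨T', k3, k4⟩ := mS_le hb h3
    rw [mS_top (Function.update T' j T1)]
    · exact le_top
    · intro i hi
      rcases Finset.mem_cons.1 hi with h5 | h5
      · rw [h5, Function.update_self]
        exact ⟨k1, k2⟩
      · have : i ≠ j := fun h6 => hj (h6 ▸ h5)
        rw [Function.update_of_ne this]
        exact k3 i h5
    · rw [Finset.prod_cons, Function.update_self, ← k4]
      congr 1
      refine Finset.prod_congr rfl fun i hi => ?_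
      have : i ≠ j := fun h6 => hj (h6 ▸ hi)
      rw [Function.update_of_ne this]

theorem rr_prod (T' : ι → ℂ) (s : Finset ι) (h : ∀ i ∈ s, 1 < ‖T' i‖) :
    rr p (∏ i ∈ s, T' i) = ∑ i ∈ s, rr p (T' i) := by
  unfold rr
  rw [← Finset.sum_div]
  congr 1
  rw [norm_prod, Real.log_prod fun i hi => (by have := h i hi; positivity),
    Finset.sum_neg_distrib]

theorem norm_prod_gt (T' : ι → ℂ) (s : Finset ι) (hs : s.Nonempty) (h : ∀ i ∈ s, 1 < ‖T' i‖) :
    1 < ‖∏ i ∈ s, T' i‖ := by
  induction hs using Finset.Nonempty.cons_induction with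
  | singleton j =>
    rw [Finset.prod_singleton]
    exact h j (Finset.mem_singleton_self j)
  | cons j s hj hs ih =>
    rw [Finset.prod_cons, norm_mul]
    exact one_lt_mul_of_lt_of_le (h j (Finset.mem_cons_self j s))
      (ih fun i hi => h i (Finset.mem_cons_of_mem hi)).le

/-- the sum in disjoint sets of variables -/
noncomputable def sumF {k : Type} [Field k] (f : ι → MvPolynomial (Fin 2) k) :
    MvPolynomial (ι × Fin 2) k :=
  ∑ i, MvPolynomial.rename (fun t => (i, t)) (f i)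

theorem sumF_nc {k : Type} [Field k] (f : ι → MvPolynomial (Fin 2) k) (i0 : ι)
    (hf : ∀ c, f i0 ≠ MvPolynomial.C c) (c : k) : sumF f ≠ MvPolynomial.C c := by
  intro h
  have h1 := congrArg (MvPolynomial.aeval (fun q : ι × Fin 2 => if q.1 = i0 then
    (MvPolynomial.X q.2 : MvPolynomial (Fin 2) k) else 0)) h
  unfold sumF at h1
  rw [map_sum, MvPolynomial.aeval_C] at h1
  have h2 : ∀ i, MvPolynomial.aeval (fun q : ι × Fin 2 => if q.1 = i0 then
    (MvPolynomial.X q.2 : MvPolynomial (Fin 2) k) else 0)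
      (MvPolynomial.rename (fun t => (i, t)) (f i)) =
      if i = i0 then f i0 else MvPolynomial.C (MvPolynomial.constantCoeff (f i)) := by
    intro i
    rw [MvPolynomial.aeval_rename]
    by_cases hi : i = i0
    · subst hi
      rw [if_pos rfl]
      have : ((fun q : ι × Fin 2 => if q.1 = i then
        (MvPolynomial.X q.2 : MvPolynomial (Fin 2) k) else 0) ∘ fun t => (i, t)) =
        MvPolynomial.X := by
        funext t
        simp
      rw [this, MvPolynomial.aeval_X_left, AlgHom.id_apply]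
    · rw [if_neg hi]
      have : ((fun q : ι × Fin 2 => if q.1 = i0 then
        (MvPolynomial.X q.2 : MvPolynomial (Fin 2) k) else 0) ∘ fun t => (i, t)) =
        fun _ => 0 := by
        funext t
        simp [hi]
      rw [this]
      have h3 := MvPolynomial.aeval_zero' (S₁ := MvPolynomial (Fin 2) k) (f i)
      exact h3
  simp only [h2] at h1
  rw [← Finset.add_sum_erase _ _ (Finset.mem_univ i0), if_pos rfl] at h1
  have h4 : ∑ x ∈ Finset.univ.erase i0, (if x = i0 then f i0 else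
      MvPolynomial.C (MvPolynomial.constantCoeff (f x))) =
      MvPolynomial.C (∑ x ∈ Finset.univ.erase i0, MvPolynomial.constantCoeff (f x)) := by
    rw [map_sum]
    refine Finset.sum_congr rfl fun x hx => ?_
    rw [if_neg (Finset.ne_of_mem_erase hx)]
  rw [h4] at h1
  apply hf (c - ∑ x ∈ Finset.univ.erase i0, MvPolynomial.constantCoeff (f x))
  rw [map_sub]
  exact eq_sub_of_add_eq h1

theorem map_nc {V k K : Type} [Field k] [Field K] (φ : k →+* K) (F : MvPolynomial V k)
    (h : ∀ c, F ≠ MvPolynomial.C c) (c : K) : MvPolynomial.map φ F ≠ MvPolynomial.C c := by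
  classical
  intro h1
  apply h (MvPolynomial.coeff 0 F)
  ext m
  rw [MvPolynomial.coeff_C]
  split_ifs with hm
  · rw [hm]
  · have h2 := congrArg (MvPolynomial.coeff m) h1
    rw [MvPolynomial.coeff_map, MvPolynomial.coeff_C, if_neg hm] at h2
    exact (map_eq_zero φ).1 h2

theorem map_sumF {k K : Type} [Field k] [Field K] (φ : k →+* K)
    (f : ι → MvPolynomial (Fin 2) k) : MvPolynomial.map φ (sumF f) =
    sumF (fun i => MvPolynomial.map φ (f i)) := by
  unfold sumF
  rw [map_sum]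
  refine Finset.sum_congr rfl fun i _ => ?_
  rw [MvPolynomial.map_rename]

/-- `-1` is a root -/
theorem FK_nc {V : Type} [Fintype V] (F : MvPolynomial V ℚ) (h : ∀ c, F ≠ MvPolynomial.C c) :
    FK (hyp F) (-1) 1 := by
  intro b hb
  obtain ⟨P, hP⟩ := Pool.Agent.Y229.isB_of_single _ b hb
  have hnc := map_nc (algebraMap ℚ ℂ) F h
  have h1 : b.eval (-1) = 0 := by
    refine Pool.Agent.W574.HS.minus_one (MvPolynomial.map (algebraMap ℚ ℂ) F) 1
      (fun h0 => hnc 0 (by rw [h0, map_zero])) (fun hd => ?_) b P fun s => ?_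
    · have h2 : IsUnit (MvPolynomial.map (algebraMap ℚ ℂ) F) := isUnit_of_dvd_one hd
      rw [MvPolynomial.isUnit_iff_eq_C_of_isReduced] at h2
      obtain ⟨r, _, hr⟩ := h2
      exact hnc r hr
    · rw [one_mul]
      exact hP s
  rw [pow_one]
  exact dvd_iff_isRoot.2 h1

end Prod

end Pool.Agent.N138.SV
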