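import Pool.Agent.N138.SV.C3

set_option autoImplicit false
set_option linter.unusedSectionVars false

/-! # Averaging over a family of measure preserving maps (jobs C1 and C2) -/

namespace Pool.Agent.N138.SV.CAvg

open MeasureTheory Set Pool.Agent.W427.SMC Pool.Agent.Y230.PT Pool.Agent.Y230.RE
open Pool.Agent.N138.SU
open Pool.Agent.N138.SV.C3

variable {p : ℕ} [Fact p.Prime]

attribute [local instance] msK bsK msZ bsZ

theorem exists_N (c : ℚ_[p]) (hc : c ≠ 0) : ∃ N : ℕ, 1 ≤ N ∧ ((p : ℝ)⁻¹) ^ N ≤ ‖c‖ := by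
  obtain ⟨N, hN⟩ := exists_pow_lt_of_lt_one (norm_pos_iff.2 hc) (qr_lt_one (p := p))
  exact ⟨N + 1, by omega,
    (pow_le_pow_of_le_one qr_pos.le qr_lt_one.le (Nat.le_succ N)).trans hN.le⟩

theorem norm_one_of_near {v : ℚ_[p]} {N : ℕ} (hN : 1 ≤ N) (hv : ‖v - 1‖ ≤ ((p : ℝ)⁻¹) ^ N) :
    ‖v‖ = 1 := by
  have h1 : ‖v - 1‖ < ‖(1 : ℚ_[p])‖ := by
    rw [norm_one]
    exact hv.trans_lt (pow_lt_one₀ qr_pos.le qr_lt_one (by omega))
  have h2 : v = (v - 1) + 1 := by ring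
  rw [h2, Padic.add_eq_max_of_ne h1.ne, max_eq_right h1.le, norm_one]

/-- **Averaging.** Suppose that the maps `τ t` preserve the integrals over `C` and the weight `w`,
and that the values of `G` on the orbits are spread out. Then the distribution of `G` on `C` is
invariant under the multiplication by the numbers near `1`. -/
theorem avg (h0 : StC0) {C : Set (ℚ_[p] × ℚ_[p])} (hC : CO C) (G : ℚ_[p] × ℚ_[p] → ℚ_[p])
    (hG : Continuous G) (w : ℚ_[p] × ℚ_[p] → ℂ) (hw : Okx (fun _ : ℝ => w))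
    (τ : ℤ_[p] → ℚ_[p] × ℚ_[p] → ℚ_[p] × ℚ_[p])
    (hτ : Continuous fun z : ℤ_[p] × (ℚ_[p] × ℚ_[p]) => τ z.1 z.2)
    (hτ0 : ∀ x ∈ C, τ 0 x = x)
    (hpres : ∀ t, ∀ F : CI p, Okx F → Zx (fun s x => F s (τ t x)) C 0 = Zx F C 0)
    (hw2 : ∀ t, ∀ x ∈ C, w (τ t x) = w x) (c : ℚ_[p]) (hc : c ≠ 0)
    (hG2 : ∀ x ∈ C, ∀ t t', ‖G (τ t x) - G (τ t' x)‖ = ‖c * G x‖ * ‖t - t'‖) :
    ∃ N : ℕ, ∀ v : ℚ_[p], ‖v - 1‖ ≤ ((p : ℝ)⁻¹) ^ N → ∀ h : ℚ_[p] → ℂ, Measurable h →
    (∃ B : ℝ, ∀ z, ‖h z‖ ≤ B) →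
    Zx (fun _ x => h (v * G x) * w x) C 0 = Zx (fun _ x => h (G x) * w x) C 0 := by
  obtain ⟨N, hN1, hN⟩ := exists_N c hc
  have key : ∀ k : ℚ_[p] → ℂ, BM k → Zx (fun _ x => k (G x) * w x) C 0 =
      ∫ x in C, (∫ t, k (G (τ t x)) ∂(mu p)) * w x ∂(nu2 p) := by
    intro k hk
    have hok : Okx (fun (_ : ℝ) x => k (G x) * w x) := by
      have h1 : Okx (fun (_ : ℝ) x => k (G x)) := by
        intro s _
        obtain ⟨B, hB⟩ := hk.2
        exact ⟨hk.1.comp hG.measurable, fun C _ => ⟨B, fun x _ => hB _⟩⟩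
      exact h1.mul hw
    have h1 : ∀ t, ∫ x in C, k (G (τ t x)) * w x ∂(nu2 p) =
        Zx (fun _ x => k (G x) * w x) C 0 := by
      intro t
      rw [← hpres t _ hok]
      refine setIntegral_congr_fun hC.meas fun x hx => ?_
      simp only [hw2 t x hx]
    have h2 : ∫ t, (∫ x in C, k (G (τ t x)) * w x ∂(nu2 p)) ∂(mu p) =
        Zx (fun _ x => k (G x) * w x) C 0 := by
      simp only [h1]
      rw [integral_const, probReal_univ, one_smul]
    have hfin : IsFiniteMeasure ((nu2 p).restrict C) :=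
      ⟨by rw [Measure.restrict_apply_univ]; exact hC.cpt.measure_lt_top⟩
    have hint : Integrable (Function.uncurry fun (t : ℤ_[p]) (x : ℚ_[p] × ℚ_[p]) =>
        k (G (τ t x)) * w x) ((mu p).prod ((nu2 p).restrict C)) := by
      obtain ⟨B, hB⟩ := hk.2
      obtain ⟨B', hB'⟩ := (hw 0 le_rfl).2 C hC.cpt
      have hm1 : Measurable fun z : ℤ_[p] × (ℚ_[p] × ℚ_[p]) => k (G (τ z.1 z.2)) :=
        hk.1.comp (hG.comp hτ).measurable
      have hm2 : Measurable fun z : ℤ_[p] × (ℚ_[p] × ℚ_[p]) => w z.2 :=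
        (hw 0 le_rfl).1.comp measurable_snd
      refine Integrable.of_bound (hm1.mul hm2).aestronglyMeasurable (B * B') ?_
      have h3 : ∀ᵐ z ∂((mu p).prod ((nu2 p).restrict C)), z.2 ∈ C :=
        Measure.quasiMeasurePreserving_snd.ae (ae_restrict_mem hC.meas)
      filter_upwards [h3] with z hz
      change ‖k (G (τ z.1 z.2)) * w z.2‖ ≤ B * B'
      rw [norm_mul]
      exact mul_le_mul (hB _) (hB' _ hz) (norm_nonneg _) ((norm_nonneg _).trans (hB 0))
    rw [← h2, integral_integral_swap hint]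
    refine setIntegral_congr_fun hC.meas fun x _ => ?_
    exact integral_mul_const _ _
  refine ⟨N, fun v hv h hm hb => ?_⟩
  have hv1 : ‖v‖ = 1 := norm_one_of_near hN1 hv
  have e1 := key (fun z => h (v * z)) (BM.scale ⟨hm, hb⟩ v)
  have e2 := key h ⟨hm, hb⟩
  rw [e2]
  refine e1.trans ?_
  refine setIntegral_congr_fun hC.meas fun x hx => ?_
  congr 1
  by_cases hGx : G x = 0
  · have h3 : ∀ t, G (τ t x) = 0 := by
      intro t
      have h4 := hG2 x hx t 0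
      rw [hGx, mul_zero, norm_zero, zero_mul, norm_eq_zero, hτ0 x hx, hGx, sub_zero] at h4
      exact h4
    simp only [h3, mul_zero]
  · refine h0 p (fun t => G (τ t x)) (c * G x) (mul_ne_zero hc hGx)
      (fun t t' => hG2 x hx t t') v hv1 ?_ h hm hb
    rw [hτ0 x hx, norm_mul]
    exact mul_le_mul_of_nonneg_right (hv.trans hN) (norm_nonneg _)

/-! ### Exchange of the variables -/

/-- the polynomial with the exchanged variables -/
noncomputable def sw (g : A ℚ_[p]) : A ℚ_[p] :=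
  MvPolynomial.aeval ![MvPolynomial.X 1, MvPolynomial.X 0] g

theorem ev_sw (g : A ℚ_[p]) (x : ℚ_[p] × ℚ_[p]) : ev x (sw g) = ev x.swap g := by
  unfold sw
  rw [ev_aeval]
  simp only [Matrix.cons_val_zero, Matrix.cons_val_one]
  rw [ev_X0, ev_X1]
  rfl

theorem cc_sw (g : A ℚ_[p]) :
    MvPolynomial.constantCoeff (sw g) = MvPolynomial.constantCoeff g := by
  rw [← ev_zero, ← ev_zero, ev_sw]
  rfl

theorem sw_mul (g h : A ℚ_[p]) : sw (g * h) = sw g * sw h := map_mul _ _ _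

theorem sw_pow (g : A ℚ_[p]) (m : ℕ) : sw (g ^ m) = sw g ^ m := map_pow _ _ _

theorem sw_pderiv (g : A ℚ_[p]) :
    MvPolynomial.pderiv 1 (sw g) = sw (MvPolynomial.pderiv 0 g) := by
  induction g using MvPolynomial.induction_on with
  | C c => simp [sw]
  | add f g hf hg =>
    have e : sw (f + g) = sw f + sw g := map_add _ _ _
    have e2 : sw (MvPolynomial.pderiv 0 f + MvPolynomial.pderiv 0 g) =
      sw (MvPolynomial.pderiv 0 f) + sw (MvPolynomial.pderiv 0 g) := map_add _ _ _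
    rw [e, map_add, map_add, e2, hf, hg]
  | mul_X f i hf =>
    have hX0 : sw (MvPolynomial.X 0 : A ℚ_[p]) = MvPolynomial.X 1 := by simp [sw]
    have hX1 : sw (MvPolynomial.X 1 : A ℚ_[p]) = MvPolynomial.X 0 := by simp [sw]
    have h1 : sw (1 : A ℚ_[p]) = 1 := map_one _
    have h0 : sw (0 : A ℚ_[p]) = 0 := map_zero _
    have hadd : ∀ a b : A ℚ_[p], sw (a + b) = sw a + sw b := fun a b => map_add _ _ _
    have hi : i = 0 ∨ i = 1 := by fin_cases i <;> simp
    rcases hi with rfl | rfl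
    · rw [sw_mul, hX0, MvPolynomial.pderiv_mul, hf, MvPolynomial.pderiv_X_self,
        MvPolynomial.pderiv_mul, MvPolynomial.pderiv_X_self, hadd, sw_mul, sw_mul, hX0, h1]
    · rw [sw_mul, hX1, MvPolynomial.pderiv_mul, hf, MvPolynomial.pderiv_X_of_ne (by decide),
        MvPolynomial.pderiv_mul, MvPolynomial.pderiv_X_of_ne (by decide), hadd, sw_mul, sw_mul,
        hX1, h0]

theorem LInv.swap {g : A ℚ_[p]} {a0 n0 a1 n1 : ℕ} (h : LInv (sw g) a1 n1 a0 n0 (0, 0)) :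
    LInv g a0 n0 a1 n1 (0, 0) := by
  have h1 := LI.homeo (F := fun h => Hh h g a0 n0 a1 n1) (G := fun h => Hh h (sw g) a1 n1 a0 n0)
    (Homeomorph.prodComm _ _) (fun C hC k => ?_) (x := (0, 0)) h
  · exact h1
  · have e : (fun s (x : ℚ_[p] × ℚ_[p]) => Hh k g a0 n0 a1 n1 s x.swap) =
        Hh k (sw g) a1 n1 a0 n0 := by
      funext s x
      unfold Hh
      rw [ev_sw]
      simp only [Prod.fst_swap, Prod.snd_swap]
      rw [mul_comm (x.2 ^ a0), mul_comm (nx x.2 ^ (n0 - 1))]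
    have h2 := Zx_swap (Hh k g a0 n0 a1 n1) C hC 0
    rw [e] at h2
    exact h2

end Pool.Agent.N138.SV.CAvg
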