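import Pool.Agent.N138.SU.Zx
import Pool.Agent.W574.SM.TwRoot
import Pool.Agent.H628R4.TP.Defs

set_option autoImplicit false

/-! # Periods of polynomials, exponential sums: definitions -/

namespace Pool.Agent.N138.SV

open MvPolynomial MeasureTheory
open Pool.Agent.W427.SMC (msZ bsZ mu)
open Pool.Agent.Y230.PT (msK bsK CO)
open Pool.Agent.N138.SU

/-- A family of period functionals of the polynomial `g` with the exponent `e0`: for `c` in the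
family, `c m h` is, up to a constant, the coefficient of `τ ^ (e0 - m)` in the asymptotic expansion of
the integral of `h exp(- τ g)` over a cycle (or a chain; then the derivatives of the functional are in
the family as well). -/
structure IsPer {τ : Type} (g : MvPolynomial τ ℂ) (e0 : ℂ)
    (S : Set (ℕ → MvPolynomial τ ℂ →ₗ[ℂ] ℂ)) : Prop where
  e1 : ∀ c ∈ S, ∀ h, c 0 (g * h) = 0
  e2 : ∀ c ∈ S, ∀ (m : ℕ) h, c (m + 1) (g * h) = ((m : ℂ) - e0) * c m h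
  d1 : ∀ c ∈ S, ∀ i h, c 0 (pderiv i g * h) = 0
  d2 : ∀ c ∈ S, ∀ i, ∃ c' ∈ S, ∀ (m : ℕ) h,
    c m (pderiv i h) - c (m + 1) (pderiv i g * h) = c' m h
  mu : ∀ c ∈ S, ∀ i, ∃ c' ∈ S, ∀ (m : ℕ) h, c m (X i * h) = c' m h

/-- `e0` is the leading exponent of a period of `g`. -/
def Per {τ : Type} (g : MvPolynomial τ ℂ) (e0 : ℂ) : Prop :=
  ∃ S, IsPer g e0 S ∧ ∃ c ∈ S, c 0 1 ≠ 0

attribute [local instance] msK bsK msZ bsZ

section

variable {p : ℕ} [Fact p.Prime]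

/-- the integrand `h(x ^ a0 y ^ a1 g(x, y)) |x| ^ (n0 - 1) |y| ^ (n1 - 1)` -/
noncomputable def Hh (h : ℚ_[p] → ℂ) (g : MvPolynomial (Fin 2) ℚ_[p]) (a0 n0 a1 n1 : ℕ) : CI p :=
  fun _ x => h (x.1 ^ a0 * x.2 ^ a1 * Pool.Agent.Y230.PT.ev x g) *
    (nx x.1 ^ (n0 - 1) * nx x.2 ^ (n1 - 1))

/-- the distribution of `x ^ a0 y ^ a1 g(x, y)` near the point `x0` is invariant under the
multiplication by the numbers near `1` -/
def LInv (g : MvPolynomial (Fin 2) ℚ_[p]) (a0 n0 a1 n1 : ℕ) (x0 : ℚ_[p] × ℚ_[p]) : Prop :=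
  ∃ U, IsOpen U ∧ x0 ∈ U ∧ ∀ C : Set (ℚ_[p] × ℚ_[p]), CO C → C ⊆ U → ∃ N : ℕ, ∀ v : ℚ_[p],
    ‖v - 1‖ ≤ ((p : ℝ)⁻¹) ^ N → ∀ h : ℚ_[p] → ℂ, Measurable h → (∃ B : ℝ, ∀ z, ‖h z‖ ≤ B) →
    Zx (Hh (fun z => h (v * z)) g a0 n0 a1 n1) C 0 = Zx (Hh h g a0 n0 a1 n1) C 0

/-- the component of the character `χ` of a function of `e` and of the unit `u` -/
noncomputable def hat (E : ℕ → ℤ_[p] → ℂ) (χ : UC p) (e : ℕ) : ℂ :=
  ∫ u in un p, (starRingEnd ℂ) (χ.X (u : ℚ_[p])) * E e u ∂(mu p)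

/-- locally constant in `u`, uniformly in `e` -/
def LC (C : ℕ) (E : ℕ → ℤ_[p] → ℂ) : Prop :=
  ∀ (e : ℕ) (u v : ℤ_[p]), ‖v - 1‖ ≤ ((p : ℝ)⁻¹) ^ C → E e (u * v) = E e u

end

end Pool.Agent.N138.SV
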